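import Pool.Agent.Lib.FU.Int

/-!
# The algebra generated by the coefficients is finite and unramified
-/

set_option autoImplicit false

namespace FU

universe u

section Alg

variable {p : ℕ} [hp : Fact p.Prime] {A B : Type u} [CommRing A] [IsDomain A] [IsNoetherianRing A]
  [IsIntegrallyClosed A] [CommRing B] [IsDomain B] [Algebra A B]
  {Λ : ℕ → Submodule A B}

theorem finite_adjoin [CharP B p] [Algebra.EssFiniteType A B]
    (hinj : Function.Injective (algebraMap A B)) (S : Seq p A Λ) :
    Module.Finite A (Algebra.adjoin A (⋃ q, (Λ q : Set B))) := by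
  have hinj' : Function.Injective (algebraMap A (FractionRing B)) := by
    rw [IsScalarTower.algebraMap_eq A B (FractionRing B)]
    exact (IsFractionRing.injective B (FractionRing B)).comp hinj
  have hf : FaithfulSMul A (FractionRing B) := (faithfulSMul_iff_algebraMap_injective _ _).mpr hinj'
  let alg : Algebra (FractionRing A) (FractionRing B) := FractionRing.liftAlgebra A (FractionRing B)
  have tower : IsScalarTower A (FractionRing A) (FractionRing B) :=
    FractionRing.isScalarTower_liftAlgebra A (FractionRing B)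
  have e1 : Algebra.EssFiniteType B (FractionRing B) :=
    Algebra.EssFiniteType.of_isLocalization (FractionRing B) (nonZeroDivisors B)
  have e2 : Algebra.EssFiniteType A (FractionRing B) := Algebra.EssFiniteType.comp A B (FractionRing B)
  have e3 : Algebra.EssFiniteType (FractionRing A) (FractionRing B) :=
    Algebra.EssFiniteType.of_comp A (FractionRing A) (FractionRing B)
  have hchar : CharP (FractionRing B) p :=
    charP_of_injective_algebraMap (IsFractionRing.injective B (FractionRing B)) p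
  let f : B →ₐ[A] FractionRing B := IsScalarTower.toAlgHom A B (FractionRing B)
  have hfinj : Function.Injective f := IsFractionRing.injective B (FractionRing B)
  have S' : Seq p A (fun q => (Λ q).map f.toLinearMap) := by
    refine ⟨fun q => (S.fg q).map _, fun q => ?_, fun q => ?_⟩
    · rintro _ ⟨x, hx, rfl⟩
      refine Submodule.span_induction (p := fun x _ => f.toLinearMap x ∈ Submodule.span A
        {y | ∃ c ∈ (Λ (q + 1)).map f.toLinearMap, y = c ^ p}) ?_ ?_ ?_ ?_ (S.le q hx)
      · rintro _ ⟨c, hc, rfl⟩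
        exact Submodule.subset_span ⟨f c, ⟨c, hc, rfl⟩, map_pow f c p⟩
      · rw [map_zero]
        exact zero_mem _
      · intro a b _ _ ha hb
        rw [map_add]
        exact add_mem ha hb
      · intro a b _ hb
        rw [map_smul]
        exact Submodule.smul_mem _ _ hb
    · rintro _ ⟨c, hc, rfl⟩
      exact ⟨c ^ p, S.pow q c hc, map_pow f c p⟩
  obtain ⟨P, hP, hΛ⟩ := exists_algebra (K := FractionRing A) S'
  have hle : Algebra.adjoin A (⋃ q, (Λ q : Set B)) ≤ P.comap f := by
    apply Algebra.adjoin_le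
    intro x hx
    obtain ⟨q, hq⟩ := Set.mem_iUnion.mp hx
    exact hΛ q _ ⟨x, hq, rfl⟩
  let g : Algebra.adjoin A (⋃ q, (Λ q : Set B)) →ₗ[A] P :=
    { toFun := fun x => ⟨f x, hle x.2⟩
      map_add' := fun x y => Subtype.ext (map_add f (x : B) y)
      map_smul' := fun a x => Subtype.ext (map_smul f a (x : B)) }
  have hg : Function.Injective g := fun x y hxy =>
    Subtype.ext (hfinj (congrArg (fun z : P => (z : FractionRing B)) hxy))
  have := isNoetherian_of_injective g hg
  infer_instance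

omit [IsDomain A] [IsNoetherianRing A] [IsIntegrallyClosed A] [IsDomain B] hp in
theorem unramified_adjoin [CharP B p] (S : Seq p A Λ) :
    Algebra.FormallyUnramified A (Algebra.adjoin A (⋃ q, (Λ q : Set B))) := by
  obtain ⟨C, hC⟩ : ∃ C, C = Algebra.adjoin A (⋃ q, (Λ q : Set B)) := ⟨_, rfl⟩
  rw [← hC]
  have hΛC : ∀ q, ∀ x ∈ Λ q, x ∈ C := fun q x hx => by
    rw [hC]
    exact Algebra.subset_adjoin (Set.mem_iUnion.mpr ⟨q, hx⟩)
  have hp0 : ∀ x : C, (p : C) * x = 0 := by
    intro x
    apply Subtype.ext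
    show ((p : C) : B) * (x : B) = 0
    have : ((p : C) : B) = (p : B) := rfl
    rw [this, CharP.cast_eq_zero, zero_mul]
  have hspan : ∀ q, ∀ x ∈ Λ q, ∃ hx : x ∈ C, KaehlerDifferential.D A C ⟨x, hx⟩ = 0 := by
    intro q x hx
    refine Submodule.span_induction (p := fun x _ => ∃ hx : x ∈ C,
      KaehlerDifferential.D A C ⟨x, hx⟩ = 0) ?_ ?_ ?_ ?_ (S.le q hx)
    · rintro _ ⟨c, hc, rfl⟩
      have hcN : c ∈ C := hΛC (q + 1) c hc
      refine ⟨pow_mem hcN p, ?_⟩
      have e : (⟨c ^ p, pow_mem hcN p⟩ : C) = (⟨c, hcN⟩ : C) ^ p := rfl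
      rw [e, Derivation.leibniz_pow, ← Nat.cast_smul_eq_nsmul C, smul_smul, hp0, zero_smul]
    · exact ⟨zero_mem _, map_zero _⟩
    · rintro a b _ _ ⟨ha, ha'⟩ ⟨hb, hb'⟩
      refine ⟨add_mem ha hb, ?_⟩
      have e : (⟨a + b, add_mem ha hb⟩ : C) = ⟨a, ha⟩ + ⟨b, hb⟩ := rfl
      rw [e, map_add, ha', hb', add_zero]
    · rintro a b _ ⟨hb, hb'⟩
      refine ⟨C.smul_mem hb a, ?_⟩
      have e : (⟨a • b, C.smul_mem hb a⟩ : C) = a • ⟨b, hb⟩ := rfl
      rw [e, Derivation.map_smul, hb', smul_zero]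
  have hD : ∀ x : C, KaehlerDifferential.D A C x = 0 := by
    rintro ⟨x, hx⟩
    have hx' := hx
    rw [hC] at hx'
    have key : ∃ hx : x ∈ C, KaehlerDifferential.D A C ⟨x, hx⟩ = 0 := by
      refine Algebra.adjoin_induction (p := fun x _ => ∃ hx : x ∈ C,
        KaehlerDifferential.D A C ⟨x, hx⟩ = 0) ?_ ?_ ?_ ?_ hx'
      · intro y hy
        obtain ⟨q, hq⟩ := Set.mem_iUnion.mp hy
        exact hspan q y hq
      · intro a
        exact ⟨C.algebraMap_mem a, Derivation.map_algebraMap (KaehlerDifferential.D A C) a⟩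
      · rintro a b _ _ ⟨ha, ha'⟩ ⟨hb, hb'⟩
        refine ⟨add_mem ha hb, ?_⟩
        have e : (⟨a + b, add_mem ha hb⟩ : C) = ⟨a, ha⟩ + ⟨b, hb⟩ := rfl
        rw [e, map_add, ha', hb', add_zero]
      · rintro a b _ _ ⟨ha, ha'⟩ ⟨hb, hb'⟩
        refine ⟨mul_mem ha hb, ?_⟩
        have e : (⟨a * b, mul_mem ha hb⟩ : C) = ⟨a, ha⟩ * ⟨b, hb⟩ := rfl
        rw [e, Derivation.leibniz, ha', hb', smul_zero, smul_zero, add_zero]
    obtain ⟨_, h⟩ := key
    exact h
  have hΩ : Subsingleton (Ω[C⁄A]) := by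
    rw [← Submodule.subsingleton_iff C, ← subsingleton_iff_bot_eq_top,
      ← KaehlerDifferential.span_range_derivation, eq_comm, Submodule.span_eq_bot]
    rintro _ ⟨x, rfl⟩
    exact hD x
  exact ⟨hΩ⟩

end Alg

end FU
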