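import Pool.Agent.Lib.FU.SpecT

/-!
# Cramer's rule: a horizontal subspace with a rational Pluecker tensor is defined over `K`
-/

set_option autoImplicit false

namespace FU

open Finset FD

universe u v₁ v₂

namespace CRAM

section A

variable {p : ℕ} {K L : Type u} [Field K] [Field L] [Algebra K L] {V : Type v₁}
  [AddCommGroup V] [Module K V] {M : Type v₂} [AddCommGroup M] [Module L M] [Module K M]
  [IsScalarTower K L M] {S₀ : FDiv p K V} {S : FDiv p L M} {ι : V →ₗ[K] M} (h : IsPull S₀ S ι)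
  {r : ℕ}

/-- the matrix of the values -/
noncomputable def mat (w : Fin r → M) (l : Fin r → (V →ₗ[K] K)) : Matrix (Fin r) (Fin r) L :=
  Matrix.of fun i j => extB h (l i) (w j)

/-- the dual basis -/
noncomputable def uu (w : Fin r → M) (l : Fin r → (V →ₗ[K] K)) (i : Fin r) : M :=
  ∑ j, ((mat h w l).det⁻¹ * (mat h w l).adjugate j i) • w j

theorem plu_eq (w : Fin r → M) (l : Fin r → (V →ₗ[K] K)) : plu h w l = (mat h w l).det := rfl

theorem mat_update (w : Fin r → M) (l : Fin r → (V →ₗ[K] K)) (i : Fin r) (η : V →ₗ[K] K) :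
    mat h w (Function.update l i η) = (mat h w l).updateRow i (fun j => extB h η (w j)) := by
  ext a b
  rw [Matrix.updateRow_apply]
  unfold mat
  rw [Matrix.of_apply, Matrix.of_apply, Function.update_apply]
  by_cases hab : a = i
  · rw [if_pos hab, if_pos hab]
  · rw [if_neg hab, if_neg hab]

theorem cramer (w : Fin r → M) (l : Fin r → (V →ₗ[K] K)) (i : Fin r) (η : V →ₗ[K] K) :
    extB h η (uu h w l i) = (plu h w l)⁻¹ * plu h w (Function.update l i η) := by
  rw [plu_eq, plu_eq, mat_update, ← Matrix.cramer_transpose_apply,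
    Matrix.cramer_eq_adjugate_mulVec, ← Matrix.adjugate_transpose]
  unfold uu
  rw [map_sum]
  show _ = (mat h w l).det⁻¹ * ∑ j, (mat h w l).adjugate.transpose i j * extB h η (w j)
  rw [mul_sum]
  refine sum_congr rfl fun j _ => ?_
  rw [map_smul, smul_eq_mul, Matrix.transpose_apply, mul_assoc]

theorem w_eq (w : Fin r → M) (l : Fin r → (V →ₗ[K] K)) (hne : plu h w l ≠ 0) (j : Fin r) :
    ∑ i, extB h (l i) (w j) • uu h w l i = w j := by
  unfold uu
  simp only [smul_sum, smul_smul]
  rw [sum_comm]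
  have key : ∀ k, ∑ i, (extB h (l i) (w j) * ((mat h w l).det⁻¹ * (mat h w l).adjugate k i)) • w k =
      (if k = j then (1 : L) else 0) • w k := by
    intro k
    rw [← sum_smul]
    congr 1
    have h1 := congrFun (congrFun (Matrix.adjugate_mul (mat h w l)) k) j
    rw [Matrix.mul_apply, Matrix.smul_apply, Matrix.one_apply, smul_eq_mul] at h1
    have h2 : ∑ i, extB h (l i) (w j) * ((mat h w l).det⁻¹ * (mat h w l).adjugate k i) =
        (mat h w l).det⁻¹ * ∑ i, (mat h w l).adjugate k i * mat h w l i j := by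
      rw [mul_sum]
      refine sum_congr rfl fun i _ => ?_
      show _ = (mat h w l).det⁻¹ * ((mat h w l).adjugate k i * extB h (l i) (w j))
      ring
    have hne' : (mat h w l).det ≠ 0 := hne
    rw [h2, h1, ← mul_assoc, inv_mul_cancel₀ hne', one_mul]
  rw [sum_congr rfl fun k _ => key k]
  simp only [ite_smul, one_smul, zero_smul]
  rw [Finset.sum_ite_eq' univ j, if_pos (mem_univ j)]

theorem y_eq (w : Fin r → M) (l : Fin r → (V →ₗ[K] K)) (hne : plu h w l ≠ 0) {y : M}
    (hy : y ∈ Submodule.span L (Set.range w)) :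
    ∑ i, extB h (l i) y • uu h w l i = y := by
  refine Submodule.span_induction (p := fun y _ => ∑ i, extB h (l i) y • uu h w l i = y)
    ?_ ?_ ?_ ?_ hy
  · rintro _ ⟨j, rfl⟩
    exact w_eq h w l hne j
  · exact sum_eq_zero fun i _ => by rw [map_zero, zero_smul]
  · intro a b _ _ ha hb
    conv_rhs => rw [← ha, ← hb]
    rw [← sum_add_distrib]
    exact sum_congr rfl fun i _ => by rw [map_add, add_smul]
  · intro a b _ hb
    conv_rhs => rw [← hb]
    rw [smul_sum]
    exact sum_congr rfl fun i _ => by rw [map_smul, smul_eq_mul, mul_smul]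

theorem uu_mem (w : Fin r → M) (l : Fin r → (V →ₗ[K] K)) (i : Fin r) :
    uu h w l i ∈ Submodule.span L (Set.range w) :=
  Submodule.sum_mem _ fun j _ => Submodule.smul_mem _ _ (Submodule.subset_span ⟨j, rfl⟩)

end A

section B

variable {p : ℕ} [hp : Fact p.Prime] {K L : Type u} [Field K] [CharP K p] [Field L] [CharP L p]
  [Algebra K L] {V : Type v₁} [AddCommGroup V] [Module K V] {M : Type v₂} [AddCommGroup M]
  [Module L M] [Module K M] [IsScalarTower K L M] {S₀ : FDiv p K V} {S : FDiv p L M}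
  {ι : V →ₗ[K] M} (h : IsPull S₀ S ι) {r : ℕ}

include h in
theorem frame (w : Fin r → M) (e : Ten K V K r) (c : L) (hc : c ≠ 0) (he : e ≠ 0)
    (he0 : ∀ l, algebraMap K L (e l) = c * plu h w l)
    (heq : ∀ q, ∃ c : K, c ≠ 0 ∧ c • e ∈ (TP K r S₀).F q) (q : ℕ) :
    ∃ (l : Fin r → (V →ₗ[K] K)) (z : Fin r → V), plu h w l ≠ 0 ∧ (∀ i, z i ∈ S₀.F q) ∧
      ∀ i, ι (z i) = uu h w l i := by
  obtain ⟨d, f, ξ, hf1, hf2, hf3⟩ := S₀.dual q
  have h1 : ∃ k : Fin r → Fin d, e (fun i => ξ (k i)) ≠ 0 := by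
    by_contra hcon
    push Not at hcon
    apply he
    ext l
    rw [ten_expand K r hf3 e l]
    show _ = (0 : K)
    exact sum_eq_zero fun j _ => by rw [hcon j, mul_zero]
  obtain ⟨k, hk⟩ := h1
  obtain ⟨c', hc', hlev⟩ := heq q
  have hne : plu h w (fun i => ξ (k i)) ≠ 0 := by
    intro h0
    have h2 := he0 (fun i => ξ (k i))
    rw [h0, mul_zero] at h2
    exact hk ((map_eq_zero _).mp h2)
  refine ⟨fun i => ξ (k i),
    fun i => ∑ a, (e (Function.update (fun i => ξ (k i)) i (ξ a)) / e (fun i => ξ (k i))) • f a,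
    hne, fun i => ?_, fun i => ?_⟩
  · refine sum_mem fun a _ => ?_
    have hl1 : IsPow p q (c' * e (fun i => ξ (k i))) := hlev _ fun i => hf2 (k i)
    have hl2 : IsPow p q (c' * e (Function.update (fun i => ξ (k i)) i (ξ a))) := by
      refine hlev _ fun i' => ?_
      rw [Function.update_apply]
      by_cases hi : i' = i
      · rw [if_pos hi]; exact hf2 a
      · rw [if_neg hi]; exact hf2 (k i')
    obtain ⟨s, hs⟩ := hl1
    obtain ⟨t, ht⟩ := hl2
    have h3 : e (Function.update (fun i => ξ (k i)) i (ξ a)) / e (fun i => ξ (k i)) =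
        (t / s) ^ p ^ q := by
      rw [div_pow, hs, ht]
      rw [mul_div_mul_left _ _ hc']
    rw [h3]
    exact S₀.pow_smul q _ _ (hf1 a)
  · rw [map_sum]
    conv_rhs => rw [← expand_val h hf3 (uu h w (fun i => ξ (k i)) i)]
    refine sum_congr rfl fun a _ => ?_
    rw [map_smul, ← algebraMap_smul L _ (ι (f a)), map_div₀, he0, he0, cramer,
      mul_div_mul_left _ _ hc, div_eq_inv_mul]

end B

end CRAM

open CRAM in
theorem specCRA : SpecCRA.{u, v₁, v₂} := by
  intro p _ K L _ _ _ _ _ V _ _ M _ _ _ _ S₀ S ι h W r w _ hspan e c hc he he0 heq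
  have hι := ι_injective h (algebraMap K L).injective
  refine ⟨(W.restrictScalars K).comap ι, fun q => ?_, ?_⟩
  · obtain ⟨l, z, hne, hz, hzu⟩ := frame h w e c hc he he0 heq q
    intro x hx
    have hx' : ι x ∈ Submodule.span L (Set.range w) := by
      rw [hspan]
      exact hx
    have h1 := y_eq h w l hne hx'
    have h2 : x = ∑ i, l i x • z i := by
      apply hι
      rw [map_sum]
      conv_lhs => rw [← h1]
      refine sum_congr rfl fun i _ => ?_
      rw [map_smul, ← algebraMap_smul L _ (ι (z i)), hzu, extB_ι]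
    rw [h2]
    refine Submodule.sum_mem _ fun i _ => Submodule.smul_mem _ _ (Submodule.subset_span ⟨?_, hz i⟩)
    show ι (z i) ∈ W
    rw [hzu, ← hspan]
    exact uu_mem h w l i
  · obtain ⟨l, z, hne, hz, hzu⟩ := frame h w e c hc he he0 heq 0
    apply le_antisymm
    · intro y hy
      rw [← hspan] at hy
      rw [← y_eq h w l hne hy]
      refine Submodule.sum_mem _ fun i _ => Submodule.smul_mem _ _ (Submodule.subset_span ?_)
      refine ⟨z i, ?_, hzu i⟩
      show ι (z i) ∈ W
      rw [hzu, ← hspan]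
      exact uu_mem h w l i
    · rw [Submodule.span_le]
      rintro _ ⟨x, hx, rfl⟩
      exact hx

end FU
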