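import Pool.Agent.Lib.FU.Gen
import Pool.Agent.Lib.FD.Main

/-!
# The coefficients of a horizontal homomorphism
-/

set_option autoImplicit false

namespace FU

open Finset FD

universe u v₁ v₂

section IsPow

variable {p : ℕ} [hp : Fact p.Prime] {R : Type*} [CommRing R] [CharP R p]

theorem isPow_zero' (q : ℕ) : IsPow p q (0 : R) :=
  ⟨0, zero_pow (pow_ne_zero _ hp.out.ne_zero)⟩

theorem isPow_add' {q : ℕ} {a b : R} (ha : IsPow p q a) (hb : IsPow p q b) : IsPow p q (a + b) := by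
  obtain ⟨c, rfl⟩ := ha
  obtain ⟨d, rfl⟩ := hb
  exact ⟨c + d, add_pow_char_pow ..⟩

theorem isPow_neg' {q : ℕ} {a : R} (ha : IsPow p q a) : IsPow p q (-a) := by
  obtain ⟨c, rfl⟩ := ha
  refine ⟨0 - c, ?_⟩
  rw [sub_pow_char_pow, zero_pow (pow_ne_zero _ hp.out.ne_zero), zero_sub]

omit hp [CharP R p] in
theorem isPow_mul' {q : ℕ} {a b : R} (ha : IsPow p q a) (hb : IsPow p q b) : IsPow p q (a * b) := by
  obtain ⟨c, rfl⟩ := ha
  obtain ⟨d, rfl⟩ := hb
  exact ⟨c * d, mul_pow ..⟩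

theorem isPow_sum' {q : ℕ} {ι : Type*} (s : Finset ι) (f : ι → R) (h : ∀ i ∈ s, IsPow p q (f i)) :
    IsPow p q (∑ i ∈ s, f i) := by
  classical
  induction s using Finset.induction_on with
  | empty => rw [sum_empty]; exact isPow_zero' q
  | insert a s ha ih =>
    rw [sum_insert ha]
    exact isPow_add' (h a (mem_insert_self _ _)) (ih fun i hi => h i (mem_insert_of_mem hi))

theorem pow_inj [IsDomain R] (q : ℕ) {a b : R} (h : a ^ p ^ q = b ^ p ^ q) : a = b := by
  have h1 : (a - b) ^ p ^ q = 0 := by rw [sub_pow_char_pow, h, sub_self]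
  exact sub_eq_zero.mp (pow_eq_zero_iff (pow_ne_zero _ hp.out.ne_zero) |>.mp h1)

theorem sum_pow_char_pow' {ι : Type*} (s : Finset ι) (q : ℕ) (f : ι → R) :
    (∑ i ∈ s, f i) ^ p ^ q = ∑ i ∈ s, f i ^ p ^ q := by
  classical
  induction s using Finset.induction_on with
  | empty => rw [sum_empty, sum_empty, zero_pow (pow_ne_zero _ hp.out.ne_zero)]
  | insert a s ha ih => rw [sum_insert ha, sum_insert ha, add_pow_char_pow, ih]

end IsPow

section Lev

variable {p : ℕ} [hp : Fact p.Prime] {A : Type*} [CommRing A] [CharP A p]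
  {E : Type*} [AddCommGroup E] [Module A E] (S₀ : FDiv p A E)

/-- forms of level `q` -/
def IsLev (q : ℕ) (η : E →ₗ[A] A) : Prop := ∀ x ∈ S₀.F q, IsPow p q (η x)

theorem IsLev.succ {q : ℕ} {η : E →ₗ[A] A} (h : IsLev S₀ (q + 1) η) : IsLev S₀ q η := by
  intro x hx
  refine AddSubgroup.closure_induction (p := fun x _ => IsPow p q (η x)) ?_ ?_ ?_ ?_ (S₀.gen q x hx)
  · rintro _ ⟨c, m, hm, rfl⟩
    rw [map_smul, smul_eq_mul]
    obtain ⟨d, hd⟩ := h m hm
    exact isPow_mul' ⟨c, rfl⟩ ⟨d ^ p, by rw [← pow_mul, ← pow_succ', hd]⟩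
  · rw [map_zero]
    exact isPow_zero' q
  · intro a b _ _ ha hb
    rw [map_add]
    exact isPow_add' ha hb
  · intro a _ ha
    rw [map_neg]
    exact isPow_neg' ha

theorem IsLev.mono {q r : ℕ} (hqr : q ≤ r) {η : E →ₗ[A] A} (h : IsLev S₀ r η) : IsLev S₀ q η := by
  induction r, hqr using Nat.le_induction with
  | base => exact h
  | succ r _ ih => exact ih h.succ

end Lev

section Coef

variable {p : ℕ} [hp : Fact p.Prime] {A B : Type u} [CommRing A] [CharP A p] [CommRing B]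
  [IsDomain B] [CharP B p] [Algebra A B]
  {E E' : Type v₁} [AddCommGroup E] [Module A E] [AddCommGroup E'] [Module A E']
  {M M' : Type v₂} [AddCommGroup M] [Module B M] [Module A M] [IsScalarTower A B M]
  [AddCommGroup M'] [Module B M'] [Module A M'] [IsScalarTower A B M']
  {S₀ : FDiv p A E} {S₀' : FDiv p A E'} {S : FDiv p B M} {S' : FDiv p B M'}
  {ι : E →ₗ[A] M} {ι' : E' →ₗ[A] M'}

/-- the extension of a form to `M' = B ⊗ E'` -/
noncomputable def extB (h' : IsPull S₀' S' ι') (η : E' →ₗ[A] A) : M' →ₗ[B] B :=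
  h'.1.lift ((Algebra.linearMap A B).comp η)

omit hp [CharP A p] [IsDomain B] [CharP B p] in
theorem extB_ι (h' : IsPull S₀' S' ι') (η : E' →ₗ[A] A) (x : E') :
    extB h' η (ι' x) = algebraMap A B (η x) := by
  have := h'.1.lift_eq ((Algebra.linearMap A B).comp η) x
  exact this

omit hp [CharP A p] [IsDomain B] [CharP B p] in
theorem hom_ext_B (h' : IsPull S₀' S' ι') {N : Type*} [AddCommGroup N] [Module B N]
    (f g : M' →ₗ[B] N) (hfg : ∀ x, f (ι' x) = g (ι' x)) : f = g := by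
  ext y
  induction y using h'.1.inductionOn with
  | zero => rw [map_zero, map_zero]
  | tmul x => exact hfg x
  | smul s x hx => rw [map_smul, map_smul, hx]
  | add x y hx hy => rw [map_add, map_add, hx, hy]

variable (h : IsPull S₀ S ι) (h' : IsPull S₀' S' ι') (w : M →ₗ[B] M')

/-- the coefficients -/
noncomputable def coef (h' : IsPull S₀' S' ι') (ι : E →ₗ[A] M) (w : M →ₗ[B] M') (η : E' →ₗ[A] A)
    (e : E) : B := extB h' η (w (ι e))

include h h' in
theorem coef_isPow (hw : IsHor S S' w) {q : ℕ} {η : E' →ₗ[A] A} (hη : IsLev S₀' q η) {e : E}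
    (he : e ∈ S₀.F q) : IsPow p q (coef h' ι w η e) := by
  have h1 : ι e ∈ S.F q := by
    rw [h.2 q]
    exact AddSubgroup.subset_closure ⟨1, e, he, by rw [one_pow, one_smul]⟩
  have h2 := hw q _ h1
  rw [h'.2 q] at h2
  unfold coef
  refine AddSubgroup.closure_induction (p := fun x _ => IsPow p q (extB h' η x)) ?_ ?_ ?_ ?_ h2
  · rintro _ ⟨c, m, hm, rfl⟩
    rw [map_smul, smul_eq_mul, extB_ι]
    obtain ⟨d, hd⟩ := hη m hm
    exact isPow_mul' ⟨c, rfl⟩ ⟨algebraMap A B d, by rw [← map_pow, hd]⟩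
  · rw [map_zero]
    exact isPow_zero' q
  · intro a b _ _ ha hb
    rw [map_add]
    exact isPow_add' ha hb
  · intro a _ ha
    rw [map_neg]
    exact isPow_neg' ha

omit hp [CharP A p] [IsDomain B] [CharP B p] in
/-- expansion of the form -/
theorem coef_form {d : ℕ} {f : Fin d → E'} {ξ : Fin d → (E' →ₗ[A] A)}
    (hf : ∀ m, ∑ i, ξ i m • f i = m) (η : E' →ₗ[A] A) (e : E) :
    coef h' ι w η e = ∑ i, algebraMap A B (η (f i)) * coef h' ι w (ξ i) e := by
  have h1 : extB h' η = ∑ i, (algebraMap A B (η (f i))) • extB h' (ξ i) := by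
    apply hom_ext_B h'
    intro x
    rw [extB_ι, LinearMap.sum_apply]
    conv_lhs => rw [← hf x, map_sum, map_sum]
    refine sum_congr rfl fun i _ => ?_
    rw [LinearMap.smul_apply, extB_ι, map_smul, smul_eq_mul, smul_eq_mul, map_mul, mul_comm]
  unfold coef
  rw [h1, LinearMap.sum_apply]
  rfl

omit hp [CharP A p] [IsDomain B] [CharP B p] in
theorem coef_sum {τ : Type*} (s : Finset τ) (a : τ → A) (e : τ → E) (η : E' →ₗ[A] A) :
    coef h' ι w η (∑ j ∈ s, a j • e j) = ∑ j ∈ s, algebraMap A B (a j) * coef h' ι w η (e j) := by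
  unfold coef
  rw [map_sum, map_sum, map_sum]
  refine sum_congr rfl fun j _ => ?_
  rw [map_smul, ← algebraMap_smul B (a j) (ι (e j)), map_smul, map_smul, smul_eq_mul]

omit hp [CharP A p] [IsDomain B] [CharP B p] in
/-- expansion of the values -/
theorem expand_val {d : ℕ} {f : Fin d → E'} {ξ : Fin d → (E' →ₗ[A] A)}
    (hf : ∀ m, ∑ i, ξ i m • f i = m) (y : M') : ∑ i, extB h' (ξ i) y • ι' (f i) = y := by
  have h1 : (∑ i, (LinearMap.toSpanSingleton B M' (ι' (f i))).comp (extB h' (ξ i))) = LinearMap.id := by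
    apply hom_ext_B h'
    intro x
    rw [LinearMap.sum_apply, LinearMap.id_apply]
    conv_rhs => rw [← hf x, map_sum]
    refine sum_congr rfl fun i _ => ?_
    rw [LinearMap.comp_apply, extB_ι, LinearMap.toSpanSingleton_apply, map_smul, algebraMap_smul]
  have h2 := congrArg (fun f : M' →ₗ[B] M' => f y) h1
  simp only [LinearMap.sum_apply, LinearMap.comp_apply, LinearMap.toSpanSingleton_apply,
    LinearMap.id_apply] at h2
  exact h2

/-- roots of the coefficients of level `q` -/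
def Gs (S₀ : FDiv p A E) (h' : IsPull S₀' S' ι') (ι : E →ₗ[A] M) (w : M →ₗ[B] M') (q : ℕ) : Set B :=
  {b | ∃ e ∈ S₀.F q, ∃ η : E' →ₗ[A] A, IsLev S₀' q η ∧ b ^ p ^ q = coef h' ι w η e}

/-- the modules `Λ q` -/
def Lam (S₀ : FDiv p A E) (h' : IsPull S₀' S' ι') (ι : E →ₗ[A] M) (w : M →ₗ[B] M') (q : ℕ) :
    Submodule A B := Submodule.span A (Gs S₀ h' ι w q)

include h h' in
theorem expand (hw : IsHor S S' w) {q r : ℕ} (hqr : q ≤ r) {d d' : ℕ} {e : Fin d → E}
    {ζ : Fin d → (E →ₗ[A] A)} (hζ : ∀ j, IsLev S₀ r (ζ j)) (he : ∀ m, ∑ j, ζ j m • e j = m)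
    {f : Fin d' → E'} {ξ : Fin d' → (E' →ₗ[A] A)} (hfr : ∀ i, f i ∈ S₀'.F r)
    (hf : ∀ m, ∑ i, ξ i m • f i = m) (D : Fin d' → Fin d → B)
    (hD : ∀ i j, D i j ^ p ^ r = coef h' ι w (ξ i) (e j)) {b : B} (hb : b ∈ Gs S₀ h' ι w q) :
    ∃ a : Fin d' → Fin d → A, b = ∑ i, ∑ j, algebraMap A B (a i j) * D i j ^ p ^ (r - q) := by
  obtain ⟨x, hx, η, hη, hbx⟩ := hb
  have h1 : ∀ j, ∃ c : A, c ^ p ^ q = ζ j x := fun j => (hζ j).mono S₀ hqr x hx
  have h2 : ∀ i, ∃ c : A, c ^ p ^ q = η (f i) := fun i => hη (f i) (S₀'.anti_le hqr (hfr i))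
  choose c hc using h1
  choose c' hc' using h2
  refine ⟨fun i j => c' i * c j, ?_⟩
  apply pow_inj (p := p) q
  rw [hbx, coef_form h' w hf η x, sum_pow_char_pow']
  refine sum_congr rfl fun i _ => ?_
  rw [sum_pow_char_pow']
  conv_lhs => rw [← he x]
  rw [coef_sum h' w, mul_sum]
  refine sum_congr rfl fun j _ => ?_
  rw [mul_pow, ← pow_mul, ← pow_add, Nat.sub_add_cancel hqr, hD, ← map_pow, mul_pow, hc, hc', map_mul,
    mul_assoc]

include h h' in
theorem seq_Lam (hw : IsHor S S' w) : Seq p A (Lam S₀ h' ι w) := by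
  have hroot : ∀ (r : ℕ) {d d' : ℕ} {e : Fin d → E} {ξ : Fin d' → (E' →ₗ[A] A)},
      (∀ j, e j ∈ S₀.F r) → (∀ i, IsLev S₀' r (ξ i)) →
      ∃ D : Fin d' → Fin d → B, ∀ i j, D i j ^ p ^ r = coef h' ι w (ξ i) (e j) := by
    intro r d d' e ξ he hξ
    choose D hD using fun i j => coef_isPow h h' w hw (hξ i) (he j)
    exact ⟨D, hD⟩
  refine ⟨fun q => ?_, fun q => ?_, fun q => ?_⟩
  · obtain ⟨d, e, ζ, he1, he2, he3⟩ := S₀.dual q
    obtain ⟨d', f, ξ, hf1, hf2, hf3⟩ := S₀'.dual q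
    obtain ⟨D, hD⟩ := hroot q he1 hf2
    classical
    refine ⟨univ.image fun x : Fin d' × Fin d => D x.1 x.2, ?_⟩
    apply le_antisymm
    · rw [Submodule.span_le]
      intro b hb
      rw [coe_image] at hb
      obtain ⟨x, _, rfl⟩ := hb
      exact Submodule.subset_span ⟨e x.2, he1 x.2, ξ x.1, hf2 x.1, hD x.1 x.2⟩
    · unfold Lam
      rw [Submodule.span_le]
      intro b hb
      obtain ⟨a, rfl⟩ := expand h h' w hw le_rfl he2 he3 hf1 hf3 D hD hb
      refine Submodule.sum_mem _ fun i _ => Submodule.sum_mem _ fun j _ => ?_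
      rw [Nat.sub_self, pow_zero, pow_one, ← Algebra.smul_def]
      refine Submodule.smul_mem _ _ (Submodule.subset_span ?_)
      rw [coe_image]
      exact ⟨(i, j), mem_univ _, rfl⟩
  · obtain ⟨d, e, ζ, he1, he2, he3⟩ := S₀.dual (q + 1)
    obtain ⟨d', f, ξ, hf1, hf2, hf3⟩ := S₀'.dual (q + 1)
    obtain ⟨D, hD⟩ := hroot (q + 1) he1 hf2
    unfold Lam
    rw [Submodule.span_le]
    intro b hb
    obtain ⟨a, rfl⟩ := expand h h' w hw (Nat.le_succ q) he2 he3 hf1 hf3 D hD hb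
    refine Submodule.sum_mem _ fun i _ => Submodule.sum_mem _ fun j _ => ?_
    rw [show q.succ - q = 1 by omega, pow_one, ← Algebra.smul_def]
    refine Submodule.smul_mem _ _ (Submodule.subset_span ?_)
    exact ⟨D i j, Submodule.subset_span ⟨e j, he1 j, ξ i, hf2 i, hD i j⟩, rfl⟩
  · intro c hc
    refine Submodule.span_induction (p := fun c _ => c ^ p ∈ Lam S₀ h' ι w q) ?_ ?_ ?_ ?_ hc
    · rintro g ⟨e, he, η, hη, hg⟩
      refine Submodule.subset_span ⟨e, S₀.anti q he, η, hη.succ, ?_⟩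
      rw [← hg, ← pow_mul, ← pow_succ']
    · rw [zero_pow hp.out.ne_zero]
      exact zero_mem _
    · intro a b _ _ ha hb
      rw [add_pow_char]
      exact add_mem ha hb
    · intro a b _ hb
      rw [Algebra.smul_def, mul_pow, ← map_pow, ← Algebra.smul_def]
      exact Submodule.smul_mem _ _ hb

end Coef

end FU
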