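import Pool.Agent.Lib.FU.FinAlg

/-!
# Sequences of coefficient modules generate finite unramified algebras
-/

set_option autoImplicit false

namespace FU

open IntermediateField

universe u

/-- The `Λ q` are the modules of the coefficients of the sections `s ∈ F q`. -/
structure Seq (p : ℕ) (A : Type*) {B : Type*} [CommRing A] [CommRing B] [Algebra A B]
    (Λ : ℕ → Submodule A B) : Prop where
  fg : ∀ q, (Λ q).FG
  le : ∀ q, Λ q ≤ Submodule.span A {x | ∃ c ∈ Λ (q + 1), x = c ^ p}
  pow : ∀ q, ∀ c ∈ Λ (q + 1), c ^ p ∈ Λ q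

section Field

variable {p : ℕ} [hp : Fact p.Prime] {A K L : Type u} [CommRing A] [Field K] [Field L]
  [Algebra A K] [Algebra A L] [Algebra K L] [IsScalarTower A K L]
  {Λ : ℕ → Submodule A L}

omit hp in
theorem Seq.pow_mem (S : Seq p A Λ) (q m : ℕ) : ∀ c ∈ Λ (q + m), c ^ p ^ m ∈ Λ q := by
  induction m with
  | zero => intro c hc; simpa using hc
  | succ m ih =>
    intro c hc
    have h1 := ih (c ^ p) (S.pow (q + m) c hc)
    rwa [← pow_mul, ← pow_succ'] at h1

/-- the field generated by `Λ q` -/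
def Nf (K : Type u) [Field K] [Algebra K L] (Λ : ℕ → Submodule A L) (q : ℕ) : IntermediateField K L :=
  adjoin K (Λ q : Set L)

omit hp in
theorem Nf_mono (S : Seq p A Λ) : Monotone (Nf K Λ) := by
  apply monotone_nat_of_le_succ
  intro q
  unfold Nf
  rw [adjoin_le_iff]
  intro x hx
  have h1 := S.le q hx
  refine Submodule.span_induction (p := fun x _ => x ∈ adjoin K (Λ (q + 1) : Set L)) ?_ ?_ ?_ ?_ h1
  · rintro _ ⟨c, hc, rfl⟩
    exact pow_mem (subset_adjoin K _ hc) p
  · exact zero_mem _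
  · intro a b _ _ ha hb
    exact add_mem ha hb
  · intro a b _ hb
    rw [← algebraMap_smul K a b, Algebra.smul_def]
    exact mul_mem (_root_.algebraMap_mem _ _) hb

theorem exists_stable (S : Seq p A Λ) [Algebra.EssFiniteType K L] :
    ∃ Q, ∀ q, Q ≤ q → Nf K Λ q = Nf K Λ Q := by
  have hmono := Nf_mono (K := K) S
  obtain ⟨N₀, hN₀⟩ : ∃ N₀ : IntermediateField K L, N₀ = Nf K Λ 0 := ⟨_, rfl⟩
  have hle : ∀ q, N₀ ≤ Nf K Λ q := fun q => by rw [hN₀]; exact hmono (Nat.zero_le q)
  obtain ⟨M, hM⟩ : ∃ M : IntermediateField N₀ L, M = adjoin N₀ (⋃ q, (Λ q : Set L)) := ⟨_, rfl⟩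
  have hEss : Algebra.EssFiniteType N₀ L := Algebra.EssFiniteType.of_comp K N₀ L
  have halg : Algebra.IsAlgebraic N₀ M := by
    rw [hM]
    apply isAlgebraic_adjoin
    intro x hx
    obtain ⟨q, hq⟩ := Set.mem_iUnion.mp hx
    have h1 : x ^ p ^ q ∈ Λ 0 := S.pow_mem 0 q x (by rwa [zero_add])
    have h2 : x ^ p ^ q ∈ N₀ := by rw [hN₀]; exact subset_adjoin K _ h1
    exact IsIntegral.of_pow (pow_pos hp.out.pos q) (isIntegral_algebraMap (x := (⟨_, h2⟩ : N₀)))
  have hfin : FiniteDimensional N₀ M := finite_of_isAlgebraic M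
  have hNM : ∀ q, ∀ x ∈ Nf K Λ q, x ∈ M := by
    intro q x hx
    have h1 : Nf K Λ q ≤ M.restrictScalars K := by
      unfold Nf
      rw [adjoin_le_iff]
      intro y hy
      show y ∈ M
      rw [hM]
      exact subset_adjoin _ _ (Set.mem_iUnion.mpr ⟨q, hy⟩)
    exact h1 hx
  let f : ℕ →o Submodule N₀ M :=
    { toFun := fun q =>
        { carrier := {m | (m : L) ∈ Nf K Λ q}
          add_mem' := fun {a b} ha hb => by
            show ((a + b : M) : L) ∈ Nf K Λ q
            exact add_mem (show (a : L) ∈ Nf K Λ q from ha) (show (b : L) ∈ Nf K Λ q from hb)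
          zero_mem' := by
            show ((0 : M) : L) ∈ Nf K Λ q
            exact zero_mem _
          smul_mem' := fun c m hm => by
            have h1 : ((c • m : M) : L) = (c : L) * m := by
              rw [Algebra.smul_def]
              rfl
            show ((c • m : M) : L) ∈ Nf K Λ q
            rw [h1]
            exact mul_mem (hle q c.2) (show (m : L) ∈ Nf K Λ q from hm) }
      monotone' := fun q r hqr m hm => hmono hqr hm }
  obtain ⟨Q, hQ⟩ := monotone_stabilizes_iff_noetherian.mpr (inferInstance : IsNoetherian N₀ M) f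
  refine ⟨Q, fun q hq => le_antisymm ?_ (hmono hq)⟩
  intro x hx
  have h1 : (⟨x, hNM q x hx⟩ : M) ∈ f q := hx
  rw [← hQ q hq] at h1
  exact h1

omit hp in
theorem finite_separable [CharP L p] (S : Seq p A Λ) [Algebra.EssFiniteType K L] (Q : ℕ)
    (hQ : Nf K Λ (Q + 1) = Nf K Λ Q) :
    FiniteDimensional K (Nf K Λ Q) ∧ Algebra.IsSeparable K (Nf K Λ Q) := by
  obtain ⟨N, hN⟩ : ∃ N, N = Nf K Λ Q := ⟨_, rfl⟩
  rw [← hN]
  have hFG : N.FG := by
    obtain ⟨s, hs⟩ := S.fg Q
    rw [hN]
    refine ⟨s, ?_⟩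
    unfold Nf
    apply le_antisymm
    · exact adjoin.mono K _ _ (by rw [← hs]; exact Submodule.subset_span)
    · rw [adjoin_le_iff]
      intro x hx
      rw [← hs] at hx
      refine Submodule.span_induction (p := fun x _ => x ∈ adjoin K (s : Set L)) ?_ ?_ ?_ ?_ hx
      · intro y hy
        exact subset_adjoin K _ hy
      · exact zero_mem _
      · intro a b _ _ ha hb
        exact add_mem ha hb
      · intro a b _ hb
        rw [← algebraMap_smul K a b, Algebra.smul_def]
        exact mul_mem (_root_.algebraMap_mem _ _) hb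
  have hEss : Algebra.EssFiniteType K N := essFiniteType_iff.mpr hFG
  have hcharN : CharP N p := (RingHom.charP_iff (algebraMap N L) (algebraMap N L).injective p).mpr inferInstance
  have hD : ∀ x : N, KaehlerDifferential.D K N x = 0 := by
    have hspan : ∀ x ∈ Λ Q, ∃ hx : x ∈ N, KaehlerDifferential.D K N ⟨x, hx⟩ = 0 := by
      intro x hx
      refine Submodule.span_induction (p := fun x _ => ∃ hx : x ∈ N,
        KaehlerDifferential.D K N ⟨x, hx⟩ = 0) ?_ ?_ ?_ ?_ (S.le Q hx)
      · rintro _ ⟨c, hc, rfl⟩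
        have hcN : c ∈ N := by
          rw [hN, ← hQ]
          exact subset_adjoin K _ hc
        refine ⟨pow_mem hcN p, ?_⟩
        have e : (⟨c ^ p, pow_mem hcN p⟩ : N) = (⟨c, hcN⟩ : N) ^ p := rfl
        rw [e, Derivation.leibniz_pow]
        have : (p • (⟨c, hcN⟩ : N) ^ (p - 1) • KaehlerDifferential.D K N ⟨c, hcN⟩) = 0 := by
          rw [← Nat.cast_smul_eq_nsmul N, CharP.cast_eq_zero, zero_smul]
        exact this
      · exact ⟨zero_mem _, map_zero _⟩
      · rintro a b _ _ ⟨ha, ha'⟩ ⟨hb, hb'⟩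
        refine ⟨add_mem ha hb, ?_⟩
        have e : (⟨a + b, add_mem ha hb⟩ : N) = ⟨a, ha⟩ + ⟨b, hb⟩ := rfl
        rw [e, map_add, ha', hb', add_zero]
      · rintro a b _ ⟨hb, hb'⟩
        have e1 : a • b = algebraMap A K a • b := (algebraMap_smul K a b).symm
        have h1 : a • b ∈ N := by
          rw [e1, Algebra.smul_def]
          exact mul_mem (_root_.algebraMap_mem _ _) hb
        refine ⟨h1, ?_⟩
        have e : (⟨a • b, h1⟩ : N) = algebraMap A K a • ⟨b, hb⟩ := by
          apply Subtype.ext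
          exact e1
        rw [e, Derivation.map_smul, hb', smul_zero]
    rintro ⟨x, hx⟩
    have hx' : x ∈ adjoin K (Λ Q : Set L) := by rw [hN] at hx; exact hx
    have key : ∃ hx : x ∈ N, KaehlerDifferential.D K N ⟨x, hx⟩ = 0 := by
      refine adjoin_induction K (p := fun x _ => ∃ hx : x ∈ N,
        KaehlerDifferential.D K N ⟨x, hx⟩ = 0) ?_ ?_ ?_ ?_ ?_ hx'
      · intro y hy
        exact hspan y hy
      · intro a
        refine ⟨_root_.algebraMap_mem _ _, ?_⟩
        exact Derivation.map_algebraMap (KaehlerDifferential.D K N) a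
      · rintro a b _ _ ⟨ha, ha'⟩ ⟨hb, hb'⟩
        refine ⟨add_mem ha hb, ?_⟩
        have e : (⟨a + b, add_mem ha hb⟩ : N) = ⟨a, ha⟩ + ⟨b, hb⟩ := rfl
        rw [e, map_add, ha', hb', add_zero]
      · rintro a _ ⟨ha, ha'⟩
        refine ⟨inv_mem ha, ?_⟩
        have e : (⟨a⁻¹, inv_mem ha⟩ : N) = (⟨a, ha⟩ : N)⁻¹ := rfl
        rw [e, Derivation.leibniz_inv, ha', smul_zero]
      · rintro a b _ _ ⟨ha, ha'⟩ ⟨hb, hb'⟩
        refine ⟨mul_mem ha hb, ?_⟩
        have e : (⟨a * b, mul_mem ha hb⟩ : N) = ⟨a, ha⟩ * ⟨b, hb⟩ := rfl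
        rw [e, Derivation.leibniz, ha', hb', smul_zero, smul_zero, add_zero]
    obtain ⟨_, h⟩ := key
    exact h
  have hΩ : Subsingleton (Ω[N⁄K]) := by
    rw [← Submodule.subsingleton_iff N, ← subsingleton_iff_bot_eq_top, ← KaehlerDifferential.span_range_derivation,
      eq_comm, Submodule.span_eq_bot]
    rintro _ ⟨x, rfl⟩
    exact hD x
  have hunr : Algebra.FormallyUnramified K N := ⟨hΩ⟩
  exact ⟨Algebra.FormallyUnramified.finite_of_free K N, Algebra.FormallyUnramified.isSeparable K N⟩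

end Field

end FU
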