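import Pool.Agent.Lib.FD.Basic

/-!
# Regular singularity and tame ramification at discrete valuations
-/

set_option autoImplicit false

namespace FU

open FD TensorProduct

universe u

/-- `v` is a normalised discrete valuation of the field `K`, written additively; the value `v 0` is
irrelevant. -/
structure IsVal {K : Type*} [Field K] (v : K → ℤ) : Prop where
  mul : ∀ a b, a ≠ 0 → b ≠ 0 → v (a * b) = v a + v b
  add : ∀ a b, a ≠ 0 → b ≠ 0 → a + b ≠ 0 → min (v a) (v b) ≤ v (a + b)
  unif : ∃ t, t ≠ 0 ∧ v t = 1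

/-- `a = 0` or `v a ≥ n`. -/
def Ge {K : Type*} [Field K] (v : K → ℤ) (n : ℤ) (a : K) : Prop := a = 0 ∨ n ≤ v a

/-- For each `q` there is a decomposition `K = ⊕ g_α K^(p^q)`, `0 ≤ v (g_α) < p^q`, which is compatible
with `v`: if `f = ∑ π_α f`, `π_α f ∈ g_α K^(p^q)`, then `v (π_α f) ≥ v f`. (If `v` is the valuation of a
prime divisor of a variety over a perfect field this holds for `g_α = t^i x^j`, where `t` is a uniformiser
and the `x_j` are units which give a `p`-basis of the residue field.) -/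
def HasDecomp (p : ℕ) {K : Type*} [Field K] (v : K → ℤ) : Prop :=
  ∀ q : ℕ, ∃ (d : ℕ) (π : Fin d → (K →+ K)) (g : Fin d → K),
    (∀ α, g α ≠ 0 ∧ 0 ≤ v (g α) ∧ v (g α) < (p : ℤ) ^ q) ∧
    (∀ α c f, π α (c ^ p ^ q * f) = c ^ p ^ q * π α f) ∧ (∀ α f, ∃ c, π α f = c ^ p ^ q * g α) ∧
    (∀ f, ∑ α, π α f = f) ∧ ∀ α f, f ≠ 0 → Ge v (v f) (π α f)

/-- `Q` is a differential operator of level `q` on `K` (linear over the `p^q`-th powers) which is
logarithmic with respect to `v`: it maps the fractional ideals `{f | v f ≥ n}` into themselves. -/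
def IsLogAt (p : ℕ) {K : Type*} [Field K] (v : K → ℤ) (q : ℕ) (Q : K →+ K) : Prop :=
  (∀ c f, Q (c ^ p ^ q * f) = c ^ p ^ q * Q f) ∧ ∀ f n, Ge v n f → Ge v n (Q f)

/-- `Q` is a differential operator of level `q` on `K` which maps the valuation ring of `v` into itself. -/
def IsOpAt (p : ℕ) {K : Type*} [Field K] (v : K → ℤ) (q : ℕ) (Q : K →+ K) : Prop :=
  (∀ c f, Q (c ^ p ^ q * f) = c ^ p ^ q * Q f) ∧ ∀ f, Ge v 0 f → Ge v 0 (Q f)

/-- The F-divided bundle `T` on the field `K` extends to the valuation ring of `v`: there is a finitely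
generated module `L` over this ring which spans `V` and is stable under all differential operators of
this ring. -/
def ExtendsAt {p : ℕ} {K V : Type*} [Field K] [AddCommGroup V] [Module K V] (v : K → ℤ)
    (T : FDiv p K V) : Prop :=
  ∃ (m : ℕ) (y : Fin m → V), Submodule.span K (Set.range y) = ⊤ ∧
    ∀ (q : ℕ) (Q : K →+ K) (Q' : V →+ V), IsOpAt p v q Q → IsInduced T q Q Q' →
      ∀ x : V, (∃ a : Fin m → K, (∀ i, Ge v 0 (a i)) ∧ ∑ i, a i • y i = x) →
        ∃ a : Fin m → K, (∀ i, Ge v 0 (a i)) ∧ ∑ i, a i • y i = Q' x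

/-- The F-divided bundle `T` on the field `K` is regular singular at `v`: there is a finitely generated
module `L` over the valuation ring of `v` which spans `V` and is stable under all logarithmic
differential operators. -/
def RegularAt {p : ℕ} {K V : Type*} [Field K] [AddCommGroup V] [Module K V] (v : K → ℤ)
    (T : FDiv p K V) : Prop :=
  ∃ (m : ℕ) (y : Fin m → V), Submodule.span K (Set.range y) = ⊤ ∧
    ∀ (q : ℕ) (Q : K →+ K) (Q' : V →+ V), IsLogAt p v q Q → IsInduced T q Q Q' →
      ∀ x : V, (∃ a : Fin m → K, (∀ i, Ge v 0 (a i)) ∧ ∑ i, a i • y i = x) →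
        ∃ a : Fin m → K, (∀ i, Ge v 0 (a i)) ∧ ∑ i, a i • y i = Q' x

/-- The F-divided bundle `S` on `X = Spec A` is regular singular at the valuations `v ∈ P` of
`K = Frac A`. -/
def RegularOn {p : ℕ} {A K E : Type*} [CommRing A] [Field K] [Algebra A K] [AddCommGroup E]
    [Module A E] (P : Set (K → ℤ)) (S : FDiv p A E) : Prop :=
  ∀ v ∈ P, ∃ T : FDiv p K (K ⊗[A] E), IsPull S T (TensorProduct.mk A K E 1) ∧ RegularAt v T

/-- The F-divided bundle `S` on `X = Spec A` extends to the valuation rings of all `v ∈ D`. -/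
def ExtendsOn {p : ℕ} {A K E : Type*} [CommRing A] [Field K] [Algebra A K] [AddCommGroup E]
    [Module A E] (D : Set (K → ℤ)) (S : FDiv p A E) : Prop :=
  ∀ v ∈ D, ∃ T : FDiv p K (K ⊗[A] E), IsPull S T (TensorProduct.mk A K E 1) ∧ ExtendsAt v T

/-- The `A`-algebra `C` is unramified at the discrete valuation `v` of `K = Frac A`: if `N ⊃ C` is a
finite Galois extension of `K` and `w` an extension of `v` to `N`, then all `σ` in the inertia group
`{σ | w (σ c - c) > 0 for all c with w c ≥ 0}` of `w` are the identity on `C`. -/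
def UnramAt (A C : Type u) {K : Type u} [CommRing A] [Field K] [Algebra A K] [CommRing C]
    [Algebra A C] (v : K → ℤ) : Prop :=
  ∀ (N : Type u) [Field N] [Algebra K N] [Algebra A N] [IsScalarTower A K N]
    [FiniteDimensional K N] [IsGalois K N] (j : C →ₐ[A] N) (w : N → ℤ) (r : ℕ),
    IsVal w → 0 < r → (∀ a : K, a ≠ 0 → w (algebraMap K N a) = r * v a) →
      ∀ σ : N ≃ₐ[K] N, (∀ c, Ge w 0 c → σ c ≠ c → 0 < w (σ c - c)) → ∀ c : C, σ (j c) = j c

/-- The `A`-algebra `C` is tamely ramified at the discrete valuation `v` of `K = Frac A`: if `N ⊃ C` is a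
finite Galois extension of `K` and `w` an extension of `v` to `N`, then all `σ` in the wild inertia group
`{σ | w (σ c / c - 1) > 0 for all c ≠ 0}` of `w` are the identity on `C`. -/
def TameAt (A C : Type u) {K : Type u} [CommRing A] [Field K] [Algebra A K] [CommRing C] [Algebra A C]
    (v : K → ℤ) : Prop :=
  ∀ (N : Type u) [Field N] [Algebra K N] [Algebra A N] [IsScalarTower A K N]
    [FiniteDimensional K N] [IsGalois K N] (j : C →ₐ[A] N) (w : N → ℤ) (r : ℕ),
    IsVal w → 0 < r → (∀ a : K, a ≠ 0 → w (algebraMap K N a) = r * v a) →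
      ∀ σ : N ≃ₐ[K] N, (∀ c, c ≠ 0 → σ c ≠ c → w c < w (σ c - c)) → ∀ c : C, σ (j c) = j c

end FU
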