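import Pool.Agent.Lib.FU.SpecT

/-!
# EXT: the tensor power of an F-divided space which extends to the valuation ring extends
-/

set_option autoImplicit false

namespace FU

open Finset FD

universe u v₁

namespace EXTM

section Lat

variable {K V : Type*} [Field K] [AddCommGroup V] [Module K V] {v : K → ℤ} {m : ℕ} {y : Fin m → V}

theorem inL_zero : InL v y (0 : V) :=
  ⟨fun _ => 0, fun _ => ge_zero 0, by simp⟩

theorem inL_add (hv : IsVal v) {x x' : V} (h : InL v y x) (h' : InL v y x') : InL v y (x + x') := by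
  obtain ⟨a, ha, rfl⟩ := h
  obtain ⟨b, hb, rfl⟩ := h'
  refine ⟨fun i => a i + b i, fun i => ge_add hv (ha i) (hb i), ?_⟩
  rw [← sum_add_distrib]
  exact sum_congr rfl fun i _ => add_smul _ _ _

theorem inL_smul (hv : IsVal v) {c : K} (hc : Ge v 0 c) {x : V} (h : InL v y x) :
    InL v y (c • x) := by
  obtain ⟨a, ha, rfl⟩ := h
  refine ⟨fun i => c * a i, fun i => ?_, ?_⟩
  · have := ge_mul hv hc (ha i)
    rwa [add_zero] at this
  · rw [smul_sum]
    exact sum_congr rfl fun i _ => mul_smul _ _ _

theorem inL_sum (hv : IsVal v) {ι : Type*} (s : Finset ι) (f : ι → V)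
    (h : ∀ i ∈ s, InL v y (f i)) : InL v y (∑ i ∈ s, f i) := by
  classical
  induction s using Finset.induction_on with
  | empty => rw [sum_empty]; exact inL_zero
  | insert a s ha ih =>
    rw [sum_insert ha]
    exact inL_add hv (h a (mem_insert_self _ _)) (ih fun i hi => h i (mem_insert_of_mem hi))

theorem ge_prod (hv : IsVal v) {r : ℕ} (g : Fin r → K) (h : ∀ i, Ge v 0 (g i)) :
    Ge v 0 (∏ i, g i) := by
  classical
  have key : ∀ s : Finset (Fin r), Ge v 0 (∏ i ∈ s, g i) := by
    intro s
    induction s using Finset.induction_on with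
    | empty => rw [prod_empty]; exact Or.inr (le_of_eq hv.one.symm)
    | insert a s ha ih =>
      rw [prod_insert ha]
      have := ge_mul hv (h a) ih
      rwa [add_zero] at this
  exact key univ

theorem pure_sum {r : ℕ} {ι : Fin r → Type*} [∀ i, Fintype (ι i)] (g : ∀ i, ι i → K)
    (e : ∀ i, ι i → V) :
    (pure K (fun i => ∑ α, g i α • e i α) : Ten K V K r) =
      ∑ α : (∀ i, ι i), (∏ i, g i (α i)) • pure K (fun i => e i (α i)) := by
  classical
  ext l
  rw [pure_apply, MultilinearMap.sum_apply]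
  have h1 : ∀ i, l i (∑ α, g i α • e i α) = ∑ α, g i α * l i (e i α) := by
    intro i
    rw [map_sum]
    exact sum_congr rfl fun α _ => by rw [map_smul, smul_eq_mul]
  rw [prod_congr rfl fun i _ => h1 i, Finset.prod_univ_sum, Fintype.piFinset_univ]
  show (∑ α : (∀ i, ι i), ∏ i, g i (α i) * l i (e i (α i))) = _
  refine sum_congr rfl fun α _ => ?_
  rw [prod_mul_distrib]
  rfl

/-- the generators of the tensor power of the lattice -/
noncomputable def yy (r : ℕ) (y : Fin m → V) (k : Fin (m ^ r)) : Ten K V K r :=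
  pure K (fun i => y (finFunctionFinEquiv.symm k i))

theorem inL_pure (hv : IsVal v) {r : ℕ} {x : Fin r → V} (hx : ∀ i, InL v y (x i)) :
    InL v (yy (K := K) r y) (pure K x) := by
  choose a ha hax using hx
  have h1 : x = fun i => ∑ k, a i k • y k := funext fun i => (hax i).symm
  rw [h1, pure_sum]
  refine inL_sum hv _ _ fun j _ => inL_smul hv (ge_prod hv _ fun i => ha i (j i)) ?_
  have h2 : (pure K (fun i => y (j i)) : Ten K V K r) = yy r y (finFunctionFinEquiv j) := by
    unfold yy
    rw [Equiv.symm_apply_apply]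
  rw [h2]
  exact inL_y hv _

theorem span_yy (hy : Submodule.span K (Set.range y) = ⊤) (r : ℕ) :
    Submodule.span K (Set.range (yy (K := K) r y)) = ⊤ := by
  obtain ⟨θ, hθ⟩ := exists_theta hy
  rw [eq_top_iff]
  intro t _
  have h1 : t = ∑ j : Fin r → Fin m, t (fun i => θ (j i)) • pure K (fun i => y (j i)) := by
    ext l
    rw [ten_expand K r hθ t l, MultilinearMap.sum_apply]
    refine sum_congr rfl fun j _ => ?_
    rw [MultilinearMap.smul_apply, pure_apply, smul_eq_mul, mul_comm]
  rw [h1]
  refine sum_mem fun j _ => Submodule.smul_mem _ _ (Submodule.subset_span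
    ⟨finFunctionFinEquiv j, ?_⟩)
  unfold yy
  rw [Equiv.symm_apply_apply]

end Lat

end EXTM

open EXTM in
theorem specEXT : SpecEXT.{u, v₁} := by
  intro p _ K _ _ V _ _ v hv hD T r hT
  obtain ⟨m, y, hy, hst⟩ := hT
  refine ⟨m ^ r, yy r y, span_yy hy r, ?_⟩
  intro q Q Q'' hQ hQ'' t ht
  change InL v (yy (K := K) r y) (Q'' t)
  have key : ∀ (a : K) (x : Fin r → V), Ge v 0 a → (∀ i, InL v y (x i)) →
      InL v (yy (K := K) r y) (Q'' (a • pure K x)) := by
    intro a x ha hx
    choose d g e hg he hL hs using fun i => decompE hv hD T hst q (hx i)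
    have h1 : x = fun i => ∑ α, g i α • e i α := funext fun i => (hs i).symm
    rw [h1, pure_sum, smul_sum, map_sum]
    refine inL_sum hv _ _ fun α _ => ?_
    rw [smul_smul, hQ'' _ _ (pure_mem K r T fun i => he i (α i))]
    refine inL_smul hv (hQ.2 _ ?_) (inL_pure hv fun i => hL i (α i))
    have := ge_mul hv ha (ge_prod hv (fun i => g i (α i)) fun i => hg i (α i))
    rwa [add_zero] at this
  obtain ⟨a, ha, rfl⟩ := ht
  rw [map_sum]
  exact inL_sum hv _ _ fun k _ => key _ _ (ha k) fun i => inL_y hv _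

end FU
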