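import Pool.Agent.Lib.FU.Core

/-!
# Sequences of fields
-/

set_option autoImplicit false

namespace FU

open IntermediateField

universe u

/-- `F q` is generated over `K` by `p`-th powers of elements of `F (q + 1)`. -/
structure FSeq (p : ℕ) {K L : Type*} [Field K] [Field L] [Algebra K L]
    (F : ℕ → IntermediateField K L) : Prop where
  fg : ∀ q, (F q).FG
  le : ∀ q, F q ≤ adjoin K {x | ∃ c ∈ F (q + 1), x = c ^ p}
  pow : ∀ q, ∀ c ∈ F (q + 1), c ^ p ∈ F q

variable {p : ℕ} [hp : Fact p.Prime] {K L : Type u} [Field K] [Field L] [Algebra K L]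
  {F : ℕ → IntermediateField K L}

omit hp in
theorem FSeq.mono (S : FSeq p F) : Monotone F := by
  apply monotone_nat_of_le_succ
  intro q
  refine (S.le q).trans ?_
  rw [adjoin_le_iff]
  rintro _ ⟨c, hc, rfl⟩
  exact pow_mem hc p

omit hp in
theorem FSeq.pow_mem (S : FSeq p F) (q : ℕ) : ∀ c ∈ F q, c ^ p ^ q ∈ F 0 := by
  induction q with
  | zero => intro c hc; simpa using hc
  | succ q ih =>
    intro c hc
    have h1 := ih (c ^ p) (S.pow q c hc)
    rwa [← pow_mul, ← pow_succ'] at h1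

theorem FSeq.exists_stable (S : FSeq p F) [Algebra.EssFiniteType K L] :
    ∃ Q, ∀ q, Q ≤ q → F q = F Q := by
  have hmono := S.mono
  obtain ⟨N₀, hN₀⟩ : ∃ N₀ : IntermediateField K L, N₀ = F 0 := ⟨_, rfl⟩
  have hle : ∀ q, N₀ ≤ F q := fun q => by rw [hN₀]; exact hmono (Nat.zero_le q)
  obtain ⟨M, hM⟩ : ∃ M : IntermediateField N₀ L, M = adjoin N₀ (⋃ q, (F q : Set L)) := ⟨_, rfl⟩
  have hEss : Algebra.EssFiniteType N₀ L := Algebra.EssFiniteType.of_comp K N₀ L
  have halg : Algebra.IsAlgebraic N₀ M := by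
    rw [hM]
    apply isAlgebraic_adjoin
    intro x hx
    obtain ⟨q, hq⟩ := Set.mem_iUnion.mp hx
    have h2 : x ^ p ^ q ∈ N₀ := by rw [hN₀]; exact S.pow_mem q x hq
    exact IsIntegral.of_pow (pow_pos hp.out.pos q) (isIntegral_algebraMap (x := (⟨_, h2⟩ : N₀)))
  have hfin : FiniteDimensional N₀ M := finite_of_isAlgebraic M
  have hNM : ∀ q, ∀ x ∈ F q, x ∈ M := by
    intro q x hx
    rw [hM]
    exact subset_adjoin _ _ (Set.mem_iUnion.mpr ⟨q, hx⟩)
  let f : ℕ →o Submodule N₀ M :=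
    { toFun := fun q =>
        { carrier := {m | (m : L) ∈ F q}
          add_mem' := fun {a b} ha hb => by
            show ((a + b : M) : L) ∈ F q
            exact add_mem (show (a : L) ∈ F q from ha) (show (b : L) ∈ F q from hb)
          zero_mem' := by
            show ((0 : M) : L) ∈ F q
            exact zero_mem _
          smul_mem' := fun c m hm => by
            have h1 : ((c • m : M) : L) = (c : L) * m := by
              rw [Algebra.smul_def]
              rfl
            show ((c • m : M) : L) ∈ F q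
            rw [h1]
            exact mul_mem (hle q c.2) (show (m : L) ∈ F q from hm) }
      monotone' := fun q r hqr m hm => hmono hqr hm }
  obtain ⟨Q, hQ⟩ := monotone_stabilizes_iff_noetherian.mpr (inferInstance : IsNoetherian N₀ M) f
  refine ⟨Q, fun q hq => le_antisymm ?_ (hmono hq)⟩
  intro x hx
  have h1 : (⟨x, hNM q x hx⟩ : M) ∈ f q := hx
  rw [← hQ q hq] at h1
  exact h1

omit hp in
theorem FSeq.finite_separable [CharP L p] (S : FSeq p F) [Algebra.EssFiniteType K L] (Q : ℕ)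
    (hQ : F (Q + 1) = F Q) :
    FiniteDimensional K (F Q) ∧ Algebra.IsSeparable K (F Q) := by
  obtain ⟨N, hN⟩ : ∃ N, N = F Q := ⟨_, rfl⟩
  rw [← hN]
  have hEss : Algebra.EssFiniteType K N := essFiniteType_iff.mpr (by rw [hN]; exact S.fg Q)
  have hcharN : CharP N p := (RingHom.charP_iff (algebraMap N L) (algebraMap N L).injective p).mpr inferInstance
  have hD : ∀ x : N, KaehlerDifferential.D K N x = 0 := by
    rintro ⟨x, hx⟩
    have hx' : x ∈ adjoin K {x | ∃ c ∈ F (Q + 1), x = c ^ p} := S.le Q (by rw [← hN]; exact hx)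
    have key : ∃ hx : x ∈ N, KaehlerDifferential.D K N ⟨x, hx⟩ = 0 := by
      refine adjoin_induction K (p := fun x _ => ∃ hx : x ∈ N,
        KaehlerDifferential.D K N ⟨x, hx⟩ = 0) ?_ ?_ ?_ ?_ ?_ hx'
      · rintro _ ⟨c, hc, rfl⟩
        have hcN : c ∈ N := by rw [hN, ← hQ]; exact hc
        refine ⟨_root_.pow_mem hcN p, ?_⟩
        have e : (⟨c ^ p, _root_.pow_mem hcN p⟩ : N) = (⟨c, hcN⟩ : N) ^ p := rfl
        rw [e, Derivation.leibniz_pow]
        have : (p • (⟨c, hcN⟩ : N) ^ (p - 1) • KaehlerDifferential.D K N ⟨c, hcN⟩) = 0 := by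
          rw [← Nat.cast_smul_eq_nsmul N, CharP.cast_eq_zero, zero_smul]
        exact this
      · intro a
        refine ⟨_root_.algebraMap_mem _ _, ?_⟩
        exact Derivation.map_algebraMap (KaehlerDifferential.D K N) a
      · rintro a b _ _ ⟨ha, ha'⟩ ⟨hb, hb'⟩
        refine ⟨add_mem ha hb, ?_⟩
        have e : (⟨a + b, add_mem ha hb⟩ : N) = ⟨a, ha⟩ + ⟨b, hb⟩ := rfl
        rw [e, map_add, ha', hb', add_zero]
      · rintro a _ ⟨ha, ha'⟩
        refine ⟨inv_mem ha, ?_⟩
        have e : (⟨a⁻¹, inv_mem ha⟩ : N) = (⟨a, ha⟩ : N)⁻¹ := rfl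
        rw [e, Derivation.leibniz_inv, ha', smul_zero]
      · rintro a b _ _ ⟨ha, ha'⟩ ⟨hb, hb'⟩
        refine ⟨mul_mem ha hb, ?_⟩
        have e : (⟨a * b, mul_mem ha hb⟩ : N) = ⟨a, ha⟩ * ⟨b, hb⟩ := rfl
        rw [e, Derivation.leibniz, ha', hb', smul_zero, smul_zero, add_zero]
    obtain ⟨_, h⟩ := key
    exact h
  have hΩ : Subsingleton (Ω[N⁄K]) := by
    rw [← Submodule.subsingleton_iff N, ← subsingleton_iff_bot_eq_top, ← KaehlerDifferential.span_range_derivation,
      eq_comm, Submodule.span_eq_bot]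
    rintro _ ⟨x, rfl⟩
    exact hD x
  have hunr : Algebra.FormallyUnramified K N := ⟨hΩ⟩
  exact ⟨Algebra.FormallyUnramified.finite_of_free K N, Algebra.FormallyUnramified.isSeparable K N⟩

end FU
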