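import Pool.Agent.Lib.FU.Defs

/-!
# Unramified and tame extensions of fields at discrete valuations
-/

set_option autoImplicit false

namespace FU

open FD

universe u

/-- The `K`-algebra `C` is unramified at the discrete valuation `v` of `K`: if `N ⊃ C` is a finite Galois
extension of `K` and `w` an extension of `v` to `N` (`r` its ramification index), then all `σ` in the
inertia group `{σ | w (σ c - c) > 0 for all c with w c ≥ 0}` of `w` are the identity on `C`. -/
def UnramK {K : Type u} (C : Type u) [Field K] [CommRing C] [Algebra K C] (v : K → ℤ) : Prop :=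
  ∀ (N : Type u) [Field N] [Algebra K N] [FiniteDimensional K N] [IsGalois K N] (j : C →ₐ[K] N)
    (w : N → ℤ) (r : ℕ), IsVal w → 0 < r → (∀ a : K, a ≠ 0 → w (algebraMap K N a) = r * v a) →
      ∀ σ : N ≃ₐ[K] N, (∀ c, Ge w 0 c → σ c ≠ c → 0 < w (σ c - c)) → ∀ c : C, σ (j c) = j c

/-- The `K`-algebra `C` is tamely ramified at the discrete valuation `v` of `K`: if `N ⊃ C` is a finite
Galois extension of `K` and `w` an extension of `v` to `N` (`r` its ramification index), then all `σ` in
the wild inertia group `{σ | w (σ c / c - 1) > 0 for all c ≠ 0}` of `w` are the identity on `C`. -/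
def TameK {K : Type u} (C : Type u) [Field K] [CommRing C] [Algebra K C] (v : K → ℤ) : Prop :=
  ∀ (N : Type u) [Field N] [Algebra K N] [FiniteDimensional K N] [IsGalois K N] (j : C →ₐ[K] N)
    (w : N → ℤ) (r : ℕ), IsVal w → 0 < r → (∀ a : K, a ≠ 0 → w (algebraMap K N a) = r * v a) →
      ∀ σ : N ≃ₐ[K] N, (∀ c, c ≠ 0 → σ c ≠ c → w c < w (σ c - c)) → ∀ c : C, σ (j c) = j c

/-- `C` is a finite separable extension of `K`, unramified at all `v ∈ D` and tamely ramified at all
`v ∈ P`. -/
structure Good {K L : Type u} [Field K] [Field L] [Algebra K L] (D P : Set (K → ℤ))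
    (C : IntermediateField K L) : Prop where
  fin : FiniteDimensional K C
  sep : Algebra.IsSeparable K C
  unram : ∀ v ∈ D, UnramK C v
  tame : ∀ v ∈ P, TameK C v

/-- Let `M = L ⊗ E` be the pull-back of the F-divided space `E` over `K`. For `K ⊂ C ⊂ L` this is the
subgroup of level `q` of the pull-back `C ⊗ E ⊂ M` of `E` to `C`: it is generated by the `c ^ (p ^ q) • ι e`,
`c ∈ C`, `e ∈ S₀.F q`. -/
def levC {p : ℕ} {K L : Type u} [Field K] [Field L] [Algebra K L] {E M : Type*} [AddCommGroup E]
    [Module K E] [AddCommGroup M] [Module L M] [Module K M] (S₀ : FDiv p K E) (ι : E →ₗ[K] M)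
    (C : IntermediateField K L) (q : ℕ) : AddSubgroup M :=
  AddSubgroup.closure {y | ∃ c ∈ C, ∃ e ∈ S₀.F q, y = c ^ p ^ q • ι e}

theorem UnramAt.field {K C : Type u} [Field K] [CommRing C] [Algebra K C] {v : K → ℤ}
    (h : UnramAt K C v) : UnramK C v := by
  intro N _ _ _ _ j w r h1 h2 h3 σ h4 c
  exact h N j w r h1 h2 h3 σ h4 c

theorem TameAt.field {K C : Type u} [Field K] [CommRing C] [Algebra K C] {v : K → ℤ}
    (h : TameAt K C v) : TameK C v := by
  intro N _ _ _ _ j w r h1 h2 h3 σ h4 c
  exact h N j w r h1 h2 h3 σ h4 c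

/-- a good subalgebra is a good intermediate field -/
theorem exists_good {K L : Type u} [Field K] [Field L] [Algebra K L] {D P : Set (K → ℤ)}
    {C : Subalgebra K L} (h1 : Module.Finite K C) (h2 : Algebra.FormallyUnramified K C)
    (h3 : ∀ v ∈ D, UnramAt K C v) (h4 : ∀ v ∈ P, TameAt K C v) :
    ∃ C' : IntermediateField K L, C'.toSubalgebra = C ∧ Good D P C' := by
  have h5 : ∀ x ∈ C, x⁻¹ ∈ C := by
    intro x hx
    have h6 : IsIntegral K x := by
      have h7 : IsIntegral K (⟨x, hx⟩ : C) := Algebra.IsIntegral.isIntegral _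
      exact h7.map C.val
    exact Subalgebra.inv_mem_of_algebraic C (x := ⟨x, hx⟩) h6.isAlgebraic
  let C' : IntermediateField K L := { C with inv_mem' := h5 }
  have h8 : Algebra.IsSeparable K C' := by
    have : Algebra.FormallyUnramified K C' := h2
    have : FiniteDimensional K C' := h1
    exact (Algebra.FormallyUnramified.iff_isSeparable K C').mp inferInstance
  exact ⟨C', rfl, h1, h8, fun v hv => (h3 v hv).field, fun v hv => (h4 v hv).field⟩

end FU
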