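import Mathlib

/-!
# Finitely generated field extensions: the algebraic part is finite
-/

set_option autoImplicit false

namespace FU

open IntermediateField IntermediateField.algebraAdjoinAdjoin Polynomial

universe u

theorem linInd_of_transcendental {F L : Type u} [Field F] [Field L] [Algebra F L] {x : L}
    (hx : Transcendental F x) (M : IntermediateField F L) [Algebra.IsAlgebraic F M] {ι : Type*}
    (b : ι → M) (hb : LinearIndependent F b) :
    LinearIndependent F⟮x⟯ (fun i => (b i : L)) := by
  classical
  rw [← LinearIndependent.iff_fractionRing (R := Algebra.adjoin F {x}) (K := F⟮x⟯),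
    linearIndependent_iff']
  intro s g hg
  have hg' : ∀ i, ∃ f : F[X], aeval x f = (g i : L) := by
    intro i
    have key : ∀ z ∈ Algebra.adjoin F {x}, ∃ f : F[X], aeval x f = z := by
      intro z hz
      rw [Algebra.adjoin_singleton_eq_range_aeval] at hz
      exact hz
    exact key _ (g i).2
  choose f hf using hg'
  have hxM : Transcendental M x := by
    intro h
    exact hx (IsAlgebraic.restrictScalars F h)
  have hP : (∑ i ∈ s, C (b i) * (f i).map (algebraMap F M)) = 0 := by
    by_contra hne
    apply hxM
    refine ⟨_, hne, ?_⟩
    rw [map_sum, ← hg]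
    refine Finset.sum_congr rfl fun i _ => ?_
    rw [map_mul, aeval_C, aeval_map_algebraMap, hf i, mul_comm]
    rfl
  have hcoef : ∀ (j : ℕ), ∀ i ∈ s, (f i).coeff j = 0 := by
    intro j
    have h1 := congrArg (fun P : M[X] => P.coeff j) hP
    simp only [finsetSum_coeff, coeff_C_mul, coeff_map, coeff_zero] at h1
    have h2 : ∑ i ∈ s, (f i).coeff j • b i = 0 := by
      rw [← h1]
      refine Finset.sum_congr rfl fun i _ => ?_
      rw [Algebra.smul_def, mul_comm]
    exact linearIndependent_iff'.mp hb s _ h2
  intro i hi
  have : f i = 0 := by
    ext j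
    rw [hcoef j i hi, coeff_zero]
  apply Subtype.ext
  rw [← hf i, this, map_zero]
  rfl

theorem finite_alg {L : Type u} [Field L] (s : Finset L) : ∀ (F : Type u) [Field F] [Algebra F L],
    adjoin F (s : Set L) = ⊤ → ∀ M : IntermediateField F L, Algebra.IsAlgebraic F M →
      FiniteDimensional F M := by
  classical
  induction s using Finset.induction_on with
  | empty =>
    intro F _ _ h M hM
    rw [Finset.coe_empty, adjoin_empty] at h
    have hM' : M = ⊥ := by rw [eq_bot_iff, h]; exact le_top
    rw [hM']
    infer_instance
  | insert x s hxs ih =>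
    intro F _ _ h M hM
    have htop : adjoin F⟮x⟯ (s : Set L) = ⊤ := by
      rw [eq_top_iff]
      intro z _
      have hz : z ∈ adjoin F ((insert x s : Finset L) : Set L) := by rw [h]; trivial
      have hle : adjoin F ((insert x s : Finset L) : Set L) ≤
          (adjoin F⟮x⟯ (s : Set L)).restrictScalars F := by
        rw [adjoin_le_iff]
        intro y hy
        rw [Finset.coe_insert] at hy
        rcases hy with rfl | hy
        · exact (adjoin F⟮y⟯ (s : Set L)).algebraMap_mem ⟨y, mem_adjoin_simple_self F y⟩
        · exact subset_adjoin _ _ hy
      exact hle hz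
    obtain ⟨M', hM'⟩ : ∃ M' : IntermediateField F⟮x⟯ L, M' = adjoin F⟮x⟯ (M : Set L) := ⟨_, rfl⟩
    have halg : Algebra.IsAlgebraic F⟮x⟯ M' := by
      rw [hM']
      apply isAlgebraic_adjoin
      intro y hy
      have h1 : IsAlgebraic F y := by
        have := hM.isAlgebraic ⟨y, hy⟩
        exact (isAlgebraic_algebraMap_iff (algebraMap M L).injective).mpr this
      exact (h1.extendScalars (algebraMap F F⟮x⟯).injective).isIntegral
    have hfin := ih F⟮x⟯ htop M' halg
    have hMM' : ∀ y : M, (y : L) ∈ M' := fun y => by
      rw [hM']
      exact subset_adjoin _ _ y.2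
    by_cases hx : IsAlgebraic F x
    · have h1 : FiniteDimensional F F⟮x⟯ := adjoin.finiteDimensional hx.isIntegral
      have h2 : FiniteDimensional F M' := FiniteDimensional.trans F F⟮x⟯ M'
      let φ : M →ₗ[F] M' :=
        { toFun := fun y => ⟨y, hMM' y⟩
          map_add' := fun _ _ => rfl
          map_smul' := fun c y => by
            apply Subtype.ext
            show ((c • y : M) : L) = _
            rfl }
      exact FiniteDimensional.of_injective φ fun a b hab => by
        apply Subtype.ext
        exact congrArg (fun z : M' => (z : L)) hab
    · let b := Module.Free.chooseBasis F M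
      have h1 := linInd_of_transcendental hx M b b.linearIndependent
      have h2 : LinearIndependent F⟮x⟯ (fun i => (⟨b i, hMM' (b i)⟩ : M')) := by
        apply LinearIndependent.of_comp M'.val.toLinearMap
        exact h1
      have h3 : Finite (Module.Free.ChooseBasisIndex F M) := h2.finite
      exact Module.Finite.of_basis b

/-- In a finitely generated extension all subextensions that are algebraic over `F` are finite. -/
theorem finite_of_isAlgebraic {F L : Type u} [Field F] [Field L] [Algebra F L]
    [Algebra.EssFiniteType F L] (M : IntermediateField F L) [Algebra.IsAlgebraic F M] :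
    FiniteDimensional F M := by
  obtain ⟨s, hs⟩ := fg_top F L
  exact finite_alg s F hs M inferInstance

end FU
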