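import Pool.Agent.Lib.FU.Alg

/-!
# The algebra is generated by the coefficients of level `0`
-/

set_option autoImplicit false

namespace FU

universe u

section Gen

variable {p : ℕ} [hp : Fact p.Prime] {A B : Type u} [CommRing A] [CommRing B] [Algebra A B]
  {Λ : ℕ → Submodule A B}

omit hp in
theorem Seq.pow_mem' (S : Seq p A Λ) (q m : ℕ) : ∀ c ∈ Λ (q + m), c ^ p ^ m ∈ Λ q := by
  induction m with
  | zero => intro c hc; simpa using hc
  | succ m ih =>
    intro c hc
    have h1 := ih (c ^ p) (S.pow (q + m) c hc)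
    rwa [← pow_mul, ← pow_succ'] at h1

omit hp in
theorem adjoin_mono_succ (S : Seq p A Λ) (q : ℕ) :
    Algebra.adjoin A (Λ q : Set B) ≤ Algebra.adjoin A (Λ (q + 1) : Set B) := by
  apply Algebra.adjoin_le
  intro x hx
  refine Submodule.span_induction (p := fun x _ => x ∈ Algebra.adjoin A (Λ (q + 1) : Set B))
    ?_ ?_ ?_ ?_ (S.le q hx)
  · rintro _ ⟨c, hc, rfl⟩
    exact pow_mem (Algebra.subset_adjoin hc) p
  · exact zero_mem _
  · intro a b _ _ ha hb
    exact add_mem ha hb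
  · intro a b _ hb
    exact Subalgebra.smul_mem _ hb a

theorem pow_mem_adjoin [CharP B p] {s t : Set B} (m : ℕ)
    (h : ∀ x ∈ s, x ^ p ^ m ∈ Algebra.adjoin A t) {x : B} (hx : x ∈ Algebra.adjoin A s) :
    x ^ p ^ m ∈ Algebra.adjoin A t := by
  refine Algebra.adjoin_induction (p := fun x _ => x ^ p ^ m ∈ Algebra.adjoin A t) ?_ ?_ ?_ ?_ hx
  · exact h
  · intro a
    rw [← map_pow]
    exact Subalgebra.algebraMap_mem _ _
  · intro a b _ _ ha hb
    rw [add_pow_char_pow]
    exact add_mem ha hb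
  · intro a b _ _ ha hb
    rw [mul_pow]
    exact mul_mem ha hb

theorem adjoin_eq [CharP B p] (S : Seq p A Λ)
    (hfin : Module.Finite A (Algebra.adjoin A (⋃ q, (Λ q : Set B)))) :
    Algebra.adjoin A (⋃ q, (Λ q : Set B)) = Algebra.adjoin A (Λ 0 : Set B) := by
  obtain ⟨C, hC⟩ : ∃ C, C = Algebra.adjoin A (⋃ q, (Λ q : Set B)) := ⟨_, rfl⟩
  rw [← hC] at hfin ⊢
  have hmono : Monotone (fun q => Algebra.adjoin A (Λ q : Set B)) :=
    monotone_nat_of_le_succ (adjoin_mono_succ S)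
  have hΛC : ∀ q, ∀ x ∈ Λ q, x ∈ C := fun q x hx => by
    rw [hC]
    exact Algebra.subset_adjoin (Set.mem_iUnion.mpr ⟨q, hx⟩)
  have hex : ∀ x ∈ C, ∃ q, x ∈ Algebra.adjoin A (Λ q : Set B) := by
    intro x hx
    rw [hC] at hx
    refine Algebra.adjoin_induction (p := fun x _ => ∃ q, x ∈ Algebra.adjoin A (Λ q : Set B))
      ?_ ?_ ?_ ?_ hx
    · intro y hy
      obtain ⟨q, hq⟩ := Set.mem_iUnion.mp hy
      exact ⟨q, Algebra.subset_adjoin hq⟩
    · intro a
      exact ⟨0, Subalgebra.algebraMap_mem _ _⟩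
    · rintro a b _ _ ⟨q, hq⟩ ⟨r, hr⟩
      exact ⟨max q r, add_mem (hmono (le_max_left q r) hq) (hmono (le_max_right q r) hr)⟩
    · rintro a b _ _ ⟨q, hq⟩ ⟨r, hr⟩
      exact ⟨max q r, mul_mem (hmono (le_max_left q r) hq) (hmono (le_max_right q r) hr)⟩
  obtain ⟨Q, hQ⟩ : ∃ Q, C ≤ Algebra.adjoin A (Λ Q : Set B) := by
    obtain ⟨s, hs⟩ := hfin.fg_top
    choose f hf using fun x : C => hex x x.2
    classical
    refine ⟨s.sup f, fun x hx => ?_⟩
    have h1 : (⟨x, hx⟩ : C) ∈ Submodule.span A (s : Set C) := by rw [hs]; trivial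
    refine Submodule.span_induction (p := fun (x : C) _ => (x : B) ∈
      Algebra.adjoin A (Λ (s.sup f) : Set B)) ?_ ?_ ?_ ?_ h1
    · intro y hy
      exact hmono (Finset.le_sup hy) (hf y)
    · exact zero_mem _
    · intro a b _ _ ha hb
      exact add_mem ha hb
    · intro a b _ hb
      exact Subalgebra.smul_mem _ hb a
  have hT : ∀ m, C ≤ Algebra.adjoin A {x | ∃ c ∈ C, x = c ^ p ^ m} := by
    intro m
    induction m with
    | zero =>
      intro x hx
      exact Algebra.subset_adjoin ⟨x, hx, by rw [pow_zero, pow_one]⟩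
    | succ m ih =>
      conv_lhs => rw [hC]
      apply Algebra.adjoin_le
      intro x hx
      obtain ⟨q, hq⟩ := Set.mem_iUnion.mp hx
      refine Submodule.span_induction (p := fun x _ => x ∈ Algebra.adjoin A
        {x | ∃ c ∈ C, x = c ^ p ^ (m + 1)}) ?_ ?_ ?_ ?_ (S.le q hq)
      · rintro _ ⟨c, hc, rfl⟩
        have h1 := ih (hΛC (q + 1) c hc)
        have h2 := pow_mem_adjoin (p := p) (A := A) (t := {x | ∃ c ∈ C, x = c ^ p ^ (m + 1)}) 1
          (s := {x | ∃ c ∈ C, x = c ^ p ^ m}) ?_ h1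
        · rwa [pow_one] at h2
        · rintro _ ⟨d, hd, rfl⟩
          exact Algebra.subset_adjoin ⟨d, hd, by rw [← pow_mul, pow_one, ← pow_succ]⟩
      · exact zero_mem _
      · intro a b _ _ ha hb
        exact add_mem ha hb
      · intro a b _ hb
        exact Subalgebra.smul_mem _ hb a
  apply le_antisymm
  · refine (hT Q).trans (Algebra.adjoin_le ?_)
    rintro _ ⟨c, hc, rfl⟩
    refine pow_mem_adjoin (p := p) (A := A) (s := (Λ Q : Set B)) Q ?_ (hQ hc)
    intro x hx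
    exact Algebra.subset_adjoin (S.pow_mem' 0 Q x (by rwa [zero_add]))
  · apply Algebra.adjoin_le
    intro x hx
    exact hΛC 0 x hx

end Gen

end FU
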