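import Pool.Agent.Lib.FU.Tame

/-!
# Homomorphisms descend (field case)
-/

set_option autoImplicit false

namespace FU

open Finset FD

universe u v₁ v₂

section HomDesc

theorem isPull_id {p : ℕ} {K : Type u} [Field K] {E : Type v₁} [AddCommGroup E] [Module K E]
    (S₀ : FDiv p K E) : IsPull S₀ S₀ (LinearMap.id : E →ₗ[K] E) := by
  refine ⟨IsBaseChange.ofEquiv (LinearEquiv.refl K E), fun q => le_antisymm ?_ ?_⟩
  · intro m hm
    exact AddSubgroup.subset_closure ⟨1, m, hm, by rw [one_pow, one_smul]; rfl⟩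
  · rw [AddSubgroup.closure_le]
    rintro _ ⟨c, m, hm, rfl⟩
    exact S₀.pow_smul q c m hm

variable {p : ℕ} [hp : Fact p.Prime] {K L : Type u} [Field K] [CharP K p] [Field L] [CharP L p]
  [Algebra K L] {E E' : Type v₁} [AddCommGroup E] [Module K E] [AddCommGroup E'] [Module K E']
  {M M' : Type v₂} [AddCommGroup M] [Module L M] [Module K M] [IsScalarTower K L M]
  [AddCommGroup M'] [Module L M'] [Module K M'] [IsScalarTower K L M']
  {S₀ : FDiv p K E} {S₀' : FDiv p K E'} {S : FDiv p L M} {S' : FDiv p L M'}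
  {ι : E →ₗ[K] M} {ι' : E' →ₗ[K] M'} (h : IsPull S₀ S ι) (h' : IsPull S₀' S' ι')

include h in
theorem CC_good [Algebra.EssFiniteType K L] {D P : Set (K → ℤ)}
    (hD : ∀ v ∈ D, IsVal v ∧ HasDecomp p v) (hP : ∀ v ∈ P, IsVal v ∧ HasDecomp p v)
    (he : ∀ v ∈ D, ExtendsAt v S₀ ∧ ExtendsAt v S₀')
    (hr : ∀ v ∈ P, RegularAt v S₀ ∧ RegularAt v S₀') (w : M →ₗ[L] M') (hw : IsHor S S' w) :
    Module.Finite K (CC S₀ h' ι w) ∧ Algebra.FormallyUnramified K (CC S₀ h' ι w) ∧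
      (∀ v ∈ D, UnramAt K (CC S₀ h' ι w) v) ∧ ∀ v ∈ P, TameAt K (CC S₀ h' ι w) v := by
  have hinj : Function.Injective (algebraMap K L) := (algebraMap K L).injective
  have hs := seq_Lam h h' w hw
  refine ⟨finite_adjoin hinj hs, unramified_adjoin hs, fun v hv => ?_, fun v hv => ?_⟩
  · intro N iF i1 i2 iT iD iG j wN r hwN hr0 hwr σ hσ c
    have heq : i2 = i1 := by
      apply Algebra.algebra_ext
      intro a
      exact @IsScalarTower.algebraMap_apply K K N _ _ _ _ i1 i2 iT a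
    subst heq
    exact fixed h h' w (isPull_id S₀) (isPull_id S₀') j hw σ (fun gam hg l x =>
      inert (hD v hv).1 (hD v hv).2 (he v hv).1 (he v hv).2 gam hg hwN r hwr σ hσ l x) c
  · intro N iF i1 i2 iT iD iG j wN r hwN hr0 hwr σ hσ c
    have heq : i2 = i1 := by
      apply Algebra.algebra_ext
      intro a
      exact @IsScalarTower.algebraMap_apply K K N _ _ _ _ i1 i2 iT a
    subst heq
    exact fixed h h' w (isPull_id S₀) (isPull_id S₀') j hw σ (fun gam hg l x =>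
      wild (hP v hv).1 (hP v hv).2 (hr v hv).1 (hr v hv).2 gam hg hwN r hwr σ hσ l x) c

include h h' in
theorem hom_descent [Algebra.EssFiniteType K L] {D P : Set (K → ℤ)}
    (hD : ∀ v ∈ D, IsVal v ∧ HasDecomp p v) (hP : ∀ v ∈ P, IsVal v ∧ HasDecomp p v)
    (hN : ∀ C : Subalgebra K L, Module.Finite K C → Algebra.FormallyUnramified K C →
      (∀ v ∈ D, UnramAt K C v) → (∀ v ∈ P, TameAt K C v) → C = ⊥)
    (he : ∀ v ∈ D, ExtendsAt v S₀ ∧ ExtendsAt v S₀')
    (hr : ∀ v ∈ P, RegularAt v S₀ ∧ RegularAt v S₀') (w : M →ₗ[L] M') (hw : IsHor S S' w) :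
    ∃! u : E →ₗ[K] E', IsHor S₀ S₀' u ∧ ∀ x, ι' (u x) = w (ι x) := by
  have hinj : Function.Injective (algebraMap K L) := (algebraMap K L).injective
  obtain ⟨h1, h2, h3, h5⟩ := CC_good h h' hD hP he hr w hw
  have hbot : CC S₀ h' ι w = ⊥ := hN _ h1 h2 h3 h5
  refine exists_hom h h' hinj w hw fun q b hb => ?_
  have h4 : b ∈ CC S₀ h' ι w := mem_CC h' w hb
  rw [hbot] at h4
  exact Algebra.mem_bot.mp h4

end HomDesc

end FU
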