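import Pool.Agent.Lib.FU.Wild

/-!
# The inertia group acts trivially on horizontal sections of bundles which extend
-/

set_option autoImplicit false

namespace FU

open FD Finset

section Latt

variable {p : ℕ} [hp : Fact p.Prime] {K V : Type*} [Field K] [CharP K p] [AddCommGroup V] [Module K V]
  {v : K → ℤ} {m : ℕ} {y : Fin m → V}

omit hp [CharP K p] in
theorem exists_rho (hv : IsVal v) {q : ℕ} {π : K →+ K} {g : K}
    (hg : g ≠ 0 ∧ 0 ≤ v g ∧ v g < (p : ℤ) ^ q)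
    (h1 : ∀ c f, π (c ^ p ^ q * f) = c ^ p ^ q * π f) (h2 : ∀ f, ∃ c, π f = c ^ p ^ q * g)
    (h4 : ∀ f, f ≠ 0 → Ge v (v f) (π f)) :
    ∃ ρ : K →+ K, IsOpAt p v q ρ ∧ (∀ f, ∃ c, ρ f = c ^ p ^ q) ∧ ∀ f, π f = ρ f * g := by
  have e : ∀ f, π f = π f * g⁻¹ * g := fun f => by
    rw [mul_assoc, inv_mul_cancel₀ hg.1, mul_one]
  have hc : ∀ f, ∃ c, π f * g⁻¹ = c ^ p ^ q := by
    intro f
    obtain ⟨c, hc⟩ := h2 f
    refine ⟨c, ?_⟩
    rw [hc, mul_assoc, mul_inv_cancel₀ hg.1, mul_one]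
  refine ⟨(AddMonoidHom.mulRight g⁻¹).comp π, ⟨fun c f => ?_, fun f hf => ?_⟩, hc, e⟩
  · show π (c ^ p ^ q * f) * g⁻¹ = c ^ p ^ q * (π f * g⁻¹)
    rw [h1, mul_assoc]
  · show Ge v 0 (π f * g⁻¹)
    obtain ⟨c, hc⟩ := hc f
    by_cases hf0 : f = 0
    · rw [hf0, map_zero, zero_mul]
      exact ge_zero 0
    have h5 : Ge v 0 (π f) := (h4 f hf0).mono (hf.resolve_left hf0)
    rw [e f, hc] at h5
    rw [hc]
    by_cases hc0 : c ^ p ^ q = 0
    · exact Or.inl hc0
    refine Or.inr ?_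
    have h6 := h5.resolve_left (mul_ne_zero hc0 hg.1)
    rw [hv.mul _ _ hc0 hg.1] at h6
    by_cases hcc : c = 0
    · have : c ^ p ^ q = 0 ∨ p ^ q = 0 := by
        by_cases hpq : p ^ q = 0
        · exact Or.inr hpq
        · exact Or.inl (by rw [hcc, zero_pow hpq])
      rcases this with h | h
      · exact absurd h hc0
      · rw [h, pow_zero, hv.one]
    rw [hv.pow hcc] at h6 ⊢
    push_cast at h6 ⊢
    have h7 : 0 < (p : ℤ) ^ q := lt_of_le_of_lt hg.2.1 hg.2.2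
    have h8 : -1 < v c := by
      by_contra hcon
      have h9 : v c ≤ -1 := not_lt.mp hcon
      have h10 : (p : ℤ) ^ q * v c ≤ (p : ℤ) ^ q * (-1) := mul_le_mul_of_nonneg_left h9 h7.le
      have h11 := hg.2.2
      linarith
    have h9 : 0 ≤ v c := by omega
    exact mul_nonneg h7.le h9

theorem decompE (hv : IsVal v) (hD : HasDecomp p v) (T : FDiv p K V)
    (hst : ∀ (q : ℕ) (Q : K →+ K) (Q' : V →+ V), IsOpAt p v q Q → IsInduced T q Q Q' →
      ∀ x : V, InL v y x → InL v y (Q' x)) (q : ℕ) {x : V} (hx : InL v y x) :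
    ∃ (d : ℕ) (g : Fin d → K) (e : Fin d → V), (∀ α, Ge v 0 (g α)) ∧ (∀ α, e α ∈ T.F q) ∧
      (∀ α, InL v y (e α)) ∧ ∑ α, g α • e α = x := by
  obtain ⟨d, π, g, hg, h1, h2, h3, h4⟩ := hD q
  obtain ⟨n, f, ζ, hf, hζ, hsum⟩ := T.dual q
  choose ρ hρ1 hρ2 hρ3 using fun α => exists_rho hv (hg α) (h1 α) (h2 α) (h4 α)
  choose Q' hQ' using fun α => exists_induced T q (ρ α) (hρ1 α).1
  choose c hc using hρ2
  have hval : ∀ α, Q' α x = ∑ j, ρ α (ζ j x) • f j := by
    intro α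
    conv_lhs => rw [← hsum x, map_sum]
    exact sum_congr rfl fun j _ => hQ' α _ _ (hf j)
  refine ⟨d, g, fun α => Q' α x, fun α => Or.inr (hg α).2.1, fun α => ?_, fun α => ?_, ?_⟩
  · show Q' α x ∈ T.F q
    rw [hval α]
    refine sum_mem fun j _ => ?_
    rw [hc]
    exact T.pow_smul q _ _ (hf j)
  · exact hst q (ρ α) (Q' α) (hρ1 α) (hQ' α) x hx
  · rw [sum_congr rfl fun α _ => congrArg (fun z => g α • z) (hval α)]
    conv_rhs => rw [← hsum x]
    have h6 : ∀ α, g α • ∑ j, ρ α (ζ j x) • f j = ∑ j, π α (ζ j x) • f j := by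
      intro α
      rw [smul_sum]
      refine sum_congr rfl fun j _ => ?_
      rw [smul_smul, hρ3, mul_comm]
    rw [sum_congr rfl fun α _ => h6 α, sum_comm]
    refine sum_congr rfl fun j _ => ?_
    rw [← sum_smul, h3]

theorem decompE_dual (hv : IsVal v) (hD : HasDecomp p v) (T : FDiv p K V)
    (hst : ∀ (q : ℕ) (Q : K →+ K) (Q' : V →+ V), IsOpAt p v q Q → IsInduced T q Q Q' →
      ∀ x : V, InL v y x → InL v y (Q' x)) (q : ℕ) {l : V →ₗ[K] K} (hl : Dl v y l) :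
    ∃ (d : ℕ) (g : Fin d → K) (η : Fin d → (V →ₗ[K] K)), (∀ α, Ge v 0 (g α)) ∧
      (∀ α, ∀ x ∈ T.F q, IsPow p q (η α x)) ∧ (∀ α, Dl v y (η α)) ∧ ∑ α, g α • η α = l := by
  obtain ⟨d, π, g, hg, h1, h2, h3, h4⟩ := hD q
  obtain ⟨n, f, ζ, hf, hζ, hsum⟩ := T.dual q
  choose ρ hρ1 hρ2 hρ3 using fun α => exists_rho hv (hg α) (h1 α) (h2 α) (h4 α)
  choose c hc using hρ2
  have hval : ∀ α, ∀ x ∈ T.F q, (∑ j, ρ α (l (f j)) • ζ j) x = ρ α (l x) := by
    intro α x hx
    choose a ha using fun j => hζ j x hx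
    have e1 : l x = ∑ j, (a j) ^ p ^ q * l (f j) := by
      conv_lhs => rw [← hsum x, map_sum]
      refine sum_congr rfl fun j _ => ?_
      rw [map_smul, smul_eq_mul, ha]
    rw [e1, map_sum, LinearMap.sum_apply]
    refine sum_congr rfl fun j _ => ?_
    rw [(hρ1 α).1, LinearMap.smul_apply, smul_eq_mul, ← ha]
    ring
  refine ⟨d, g, fun α => ∑ j, ρ α (l (f j)) • ζ j, fun α => Or.inr (hg α).2.1, fun α x hx => ?_,
    fun α i => ?_, ?_⟩
  · rw [hval α x hx]
    exact ⟨c α (l x), (hc α (l x)).symm⟩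
  · obtain ⟨d', g', e', hg', he', hL', hs'⟩ := decompE hv hD T hst q (inL_y hv i)
    rw [← hs', map_sum]
    refine ge_sum hv _ _ fun β _ => ?_
    rw [map_smul, hval α _ (he' β), smul_eq_mul]
    have h5 := ge_mul hv (hg' β) ((hρ1 α).2 _ (dl_apply hv hl (hL' β)))
    rwa [add_zero] at h5
  · ext x
    rw [LinearMap.sum_apply]
    conv_lhs => rw [← hsum x]
    conv_rhs => rw [← hsum x]
    rw [map_sum]
    have : ∀ α, (g α • ∑ j, ρ α (l (f j)) • ζ j) (∑ i, ζ i x • f i) =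
        ∑ i, ζ i x * π α (l (f i)) := by
      intro α
      rw [map_sum]
      refine sum_congr rfl fun i _ => ?_
      rw [map_smul, LinearMap.smul_apply, hval α _ (hf i), smul_eq_mul, smul_eq_mul, hρ3, mul_comm (g α)]
    rw [sum_congr rfl fun α _ => this α, sum_comm]
    refine sum_congr rfl fun i _ => ?_
    rw [← mul_sum, h3, map_smul, smul_eq_mul]

end Latt

section Inert

variable {p : ℕ} [hp : Fact p.Prime] {K V V' N : Type*} [Field K] [CharP K p] [AddCommGroup V]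
  [Module K V] [AddCommGroup V'] [Module K V'] [Field N] [Algebra K N] {v : K → ℤ} {w : N → ℤ}

theorem inert (hv : IsVal v) (hD : HasDecomp p v) {T : FDiv p K V} {T' : FDiv p K V'}
    (hT : ExtendsAt v T) (hT' : ExtendsAt v T') (gam : (V' →ₗ[K] K) →ₗ[K] (V →ₗ[K] N))
    (hgam : ∀ q, ∀ x ∈ T.F q, ∀ l : V' →ₗ[K] K, (∀ z ∈ T'.F q, IsPow p q (l z)) →
      ∃ c, c ^ p ^ q = gam l x)
    (hw : IsVal w) (r : ℕ) (hwr : ∀ a : K, a ≠ 0 → w (algebraMap K N a) = r * v a)
    (σ : N ≃ₐ[K] N) (hσ : ∀ c, Ge w 0 c → σ c ≠ c → 0 < w (σ c - c)) (l : V' →ₗ[K] K) (x : V) :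
    σ (gam l x) = gam l x := by
  have hchar : CharP N p := charP_of_injective_algebraMap (algebraMap K N).injective p
  obtain ⟨m, y, hy, hst⟩ := hT
  obtain ⟨m', y', hy', hst'⟩ := hT'
  obtain ⟨θ, hθ⟩ := exists_theta hy
  obtain ⟨θ', hθ'⟩ := exists_theta hy'
  have hge : ∀ (a : K), Ge v 0 a → Ge w 0 (algebraMap K N a) := by
    intro a ha
    by_cases h : a = 0
    · rw [h, map_zero]
      exact ge_zero 0
    · refine Or.inr ?_
      rw [hwr a h]
      exact mul_nonneg (Int.natCast_nonneg r) (ha.resolve_left h)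
  obtain ⟨μ, hμ⟩ := exists_bound (w := w) (fun z : Fin m' × Fin m => gam (θ' z.1) (y z.2))
  have hbound : ∀ (x : V) (l : V' →ₗ[K] K), InL v y x → Dl v y' l → Ge w μ (gam l x) := by
    intro x l hx hl
    obtain ⟨a, ha, rfl⟩ := hx
    have e1 : l = ∑ k, l (y' k) • θ' k := by
      ext z
      conv_lhs => rw [← hθ' z, map_sum]
      rw [LinearMap.sum_apply]
      refine sum_congr rfl fun k _ => ?_
      rw [map_smul, LinearMap.smul_apply, smul_eq_mul, smul_eq_mul, mul_comm]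
    rw [e1, gam_sum]
    refine ge_sum hw _ _ fun k _ => ?_
    rw [map_sum]
    refine ge_sum hw _ _ fun i _ => ?_
    rw [gam_smul, Algebra.smul_def, Algebra.smul_def]
    have h1 := ge_mul hw (hge _ (ha i)) (hμ (k, i))
    have h2 := ge_mul hw (hge _ (hl k)) h1
    rwa [zero_add, zero_add] at h2
  have hdiff : ∀ (x : V) (l : V' →ₗ[K] K), InL v y x → Dl v y' l → ∀ q : ℕ, -μ < (p : ℤ) ^ q →
      Ge w ((p : ℤ) ^ q) (σ (gam l x) - gam l x) := by
    intro x l hx hl q hq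
    obtain ⟨d, g, e, hg, he, hL, hs⟩ := decompE hv hD T hst q hx
    obtain ⟨d', g', η, hg', hη, hL', hs'⟩ := decompE_dual hv hD T' hst' q hl
    have e1 : gam l x = ∑ β, ∑ α, gam (g' β • η β) (g α • e α) := by
      conv_lhs => rw [← hs, ← hs', gam_sum]
      exact sum_congr rfl fun β _ => map_sum _ _ _
    rw [e1, map_sum, ← sum_sub_distrib]
    refine ge_sum hw _ _ fun β _ => ?_
    rw [map_sum, ← sum_sub_distrib]
    refine ge_sum hw _ _ fun α _ => ?_
    obtain ⟨c, hc⟩ := hgam q (e α) (he α) (η β) (hη β)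
    have e2 : gam (g' β • η β) (g α • e α) = algebraMap K N (g' β * g α) * c ^ p ^ q := by
      rw [gam_smul, ← hc, Algebra.smul_def, Algebra.smul_def, map_mul, mul_assoc]
    have h1 := hbound _ _ (hL α) (hL' β)
    rw [← hc] at h1
    rw [e2]
    have e3 : σ (algebraMap K N (g' β * g α) * c ^ p ^ q) - algebraMap K N (g' β * g α) * c ^ p ^ q =
        algebraMap K N (g' β * g α) * (σ c - c) ^ p ^ q := by
      rw [map_mul, AlgEquiv.commutes, map_pow, sub_pow_char_pow]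
      ring
    rw [e3]
    have h5 : (0 : ℤ) < (p : ℤ) ^ q := by
      have := hp.out.pos
      positivity
    have h6 : Ge w 0 (algebraMap K N (g' β * g α)) := by
      have := ge_mul hw (hge _ (hg' β)) (hge _ (hg α))
      rw [map_mul]
      rwa [add_zero] at this
    have h7 : Ge w ((p : ℤ) ^ q) ((σ c - c) ^ p ^ q) := by
      by_cases hσc : σ c = c
      · rw [hσc, sub_self, zero_pow (pow_ne_zero _ hp.out.ne_zero)]
        exact ge_zero _
      have hc0 : c ≠ 0 := by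
        rintro rfl
        exact hσc (map_zero σ)
      have h8 := h1.resolve_left (pow_ne_zero _ hc0)
      rw [hw.pow hc0] at h8
      push_cast at h8
      have h9 : -1 < w c := by
        by_contra hcon
        have h10 : (p : ℤ) ^ q * w c ≤ (p : ℤ) ^ q * (-1) :=
          mul_le_mul_of_nonneg_left (not_lt.mp hcon) h5.le
        linarith
      have h11 := hσ c (Or.inr (by omega)) hσc
      have h12 : σ c - c ≠ 0 := sub_ne_zero.mpr hσc
      refine Or.inr ?_
      rw [hw.pow h12]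
      push_cast
      have h13 : (p : ℤ) ^ q * 1 ≤ (p : ℤ) ^ q * w (σ c - c) :=
        mul_le_mul_of_nonneg_left (by omega) h5.le
      linarith
    have h8 := ge_mul hw h6 h7
    rwa [zero_add] at h8
  have hzero : ∀ (x : V) (l : V' →ₗ[K] K), InL v y x → Dl v y' l → σ (gam l x) = gam l x := by
    intro x l hx hl
    by_contra hne
    have h1 : σ (gam l x) - gam l x ≠ 0 := sub_ne_zero.mpr hne
    obtain ⟨q, hq1, hq2⟩ : ∃ q : ℕ, -μ < (p : ℤ) ^ q ∧ w (σ (gam l x) - gam l x) < (p : ℤ) ^ q := by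
      obtain ⟨n, hn1, hn2⟩ : ∃ n : ℕ, -μ ≤ n ∧ w (σ (gam l x) - gam l x) ≤ n := by
        refine ⟨max (-μ).toNat (w (σ (gam l x) - gam l x)).toNat, ?_, ?_⟩
        · exact (Int.self_le_toNat _).trans (by exact_mod_cast le_max_left _ _)
        · exact (Int.self_le_toNat _).trans (by exact_mod_cast le_max_right _ _)
      have : (n : ℤ) < (p : ℤ) ^ n := by exact_mod_cast Nat.lt_pow_self hp.out.one_lt
      exact ⟨n, lt_of_le_of_lt hn1 this, lt_of_le_of_lt hn2 this⟩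
    have h2 := (hdiff x l hx hl q hq1).resolve_left h1
    omega
  obtain ⟨b, hb, hbx⟩ := exists_scale hv hθ x
  obtain ⟨b', hb', hbl⟩ := exists_scale_dual (y := y') hv l
  have h1 := hzero _ _ hbx hbl
  rw [gam_smul, map_smul, map_smul] at h1
  have h2 := smul_right_injective N hb' h1
  exact smul_right_injective N hb h2

end Inert

end FU
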