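import Pool.Agent.Lib.FU.Core

/-!
# The coefficients are integral over `A`
-/

set_option autoImplicit false

namespace FU

open IntermediateField

universe u

section Field

variable {p : ℕ} [hp : Fact p.Prime] {A K L : Type u} [CommRing A] [IsDomain A] [IsNoetherianRing A]
  [IsIntegrallyClosed A] [Field K] [Field L] [Algebra A K] [IsFractionRing A K]
  [Algebra A L] [Algebra K L] [IsScalarTower A K L]
  {Λ : ℕ → Submodule A L}

theorem exists_algebra [CharP L p] (S : Seq p A Λ) [Algebra.EssFiniteType K L] :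
    ∃ P : Subalgebra A L, IsNoetherian A P ∧ ∀ q, ∀ x ∈ Λ q, x ∈ P := by
  obtain ⟨Q, hQ⟩ := exists_stable (K := K) S
  obtain ⟨hfd, hsep⟩ := finite_separable (K := K) S Q (hQ (Q + 1) (Nat.le_succ Q))
  obtain ⟨N, hN⟩ : ∃ N, N = Nf K Λ Q := ⟨_, rfl⟩
  rw [← hN] at hfd hsep
  have hmem : ∀ q, ∀ x ∈ Λ q, x ∈ N := by
    intro q x hx
    rw [hN]
    rcases le_total Q q with h | h
    · rw [← hQ q h]
      exact subset_adjoin K _ hx
    · exact Nf_mono S h (subset_adjoin K _ hx)
  have hANL : IsScalarTower A N L := IsScalarTower.of_algebraMap_eq fun _ => rfl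
  obtain ⟨R, hR⟩ : ∃ R : Subalgebra A N, R = integralClosure A N := ⟨_, rfl⟩
  have hRint : ∀ x : N, x ∈ R ↔ IsIntegral A x := fun x => by rw [hR]; rfl
  have hIC : IsIntegralClosure R A N := by
    rw [hR]
    infer_instance
  have hRN : IsNoetherian A R := IsIntegralClosure.isNoetherian A K N R
  have hRR : IsNoetherianRing R := IsIntegralClosure.isNoetherianRing A K N R
  have hintL : ∀ x : N, IsIntegral A x ↔ IsIntegral A (x : L) := fun x =>
    (isIntegral_algebraMap_iff (A := N) (B := L) (algebraMap N L).injective).symm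
  -- the ideals
  let c : ℕ → Ideal R := fun q =>
    { carrier := {y | ∀ x ∈ Λ q, IsIntegral A (((y : N) : L) * x)}
      add_mem' := by
        intro a b ha hb x hx
        have : (((a + b : R) : N) : L) * x = ((a : N) : L) * x + ((b : N) : L) * x := by
          rw [← add_mul]; rfl
        rw [this]
        exact (ha x hx).add (hb x hx)
      zero_mem' := by
        intro x hx
        have : (((0 : R) : N) : L) * x = 0 := by
          have : (((0 : R) : N) : L) = 0 := rfl
          rw [this, zero_mul]
        rw [this]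
        exact isIntegral_zero
      smul_mem' := by
        intro r y hy x hx
        have : (((r • y : R) : N) : L) * x = ((r : N) : L) * (((y : N) : L) * x) := by
          rw [← mul_assoc]; rfl
        rw [this]
        exact ((hintL _).mp ((hRint _).mp r.2)).mul (hy x hx) }
  have hc : ∀ q (y : R), y ∈ c q ↔ ∀ x ∈ Λ q, IsIntegral A (((y : N) : L) * x) := fun q y => Iff.rfl
  have hup : ∀ q (y : R), y ^ p ∈ c q → y ∈ c (q + 1) := by
    intro q y hy
    rw [hc] at hy ⊢
    intro x hx
    have h1 := hy (x ^ p) (S.pow q x hx)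
    have h2 : (((y ^ p : R) : N) : L) * x ^ p = (((y : N) : L) * x) ^ p := by
      rw [mul_pow]; rfl
    rw [h2] at h1
    exact h1.of_pow hp.out.pos
  have hmono : Monotone c := monotone_nat_of_le_succ fun q y hy =>
    hup q y (Ideal.pow_mem_of_mem _ hy p hp.out.pos)
  obtain ⟨q₀, hq₀⟩ := monotone_stabilizes_iff_noetherian.mpr hRR ⟨c, hmono⟩
  have hst : ∀ q, q₀ ≤ q → c q = c q₀ := fun q hq => (hq₀ q hq).symm
  have hrad : ∀ y : R, y ^ p ∈ c q₀ → y ∈ c q₀ := by
    intro y hy
    rw [← hst (q₀ + 1) (Nat.le_succ _)]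
    exact hup q₀ y hy
  -- a common denominator
  have hne : c q₀ ≠ ⊥ := by
    obtain ⟨s, hs⟩ := S.fg 0
    classical
    have hsN : ∀ x ∈ s, x ∈ N := fun x hx => hmem 0 x (by rw [← hs]; exact Submodule.subset_span hx)
    obtain ⟨y, hy, hys⟩ := exists_integral_multiples A K (L := N)
      (s.attach.image fun x : {x // x ∈ s} => (⟨x.1, hsN x.1 x.2⟩ : N))
    have h1 : algebraMap A R y ∈ c 0 := by
      rw [hc]
      intro x hx
      have e : ((algebraMap A R y : N) : L) = algebraMap A L y := by
        rw [IsScalarTower.algebraMap_apply A N L y]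
        rfl
      rw [e, ← Algebra.smul_def]
      rw [← hs] at hx
      refine Submodule.span_induction (p := fun x _ => IsIntegral A (y • x)) ?_ ?_ ?_ ?_ hx
      · intro z hz
        have := hys ⟨z, hsN z hz⟩ (Finset.mem_image.mpr ⟨⟨z, hz⟩, Finset.mem_attach _ _, rfl⟩)
        exact (hintL _).mp this
      · rw [smul_zero]
        exact isIntegral_zero
      · intro a b _ _ ha hb
        rw [smul_add]
        exact ha.add hb
      · intro a b _ hb
        rw [smul_comm]
        exact hb.smul a
    have h2 : algebraMap A R y ≠ 0 := by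
      intro h
      apply hy
      have h3 : algebraMap A L y = 0 := by
        have e : ((algebraMap A R y : N) : L) = algebraMap A L y := by
          rw [IsScalarTower.algebraMap_apply A N L y]
          rfl
        rw [← e, h]
        rfl
      rw [IsScalarTower.algebraMap_apply A K L y] at h3
      have h4 := (map_eq_zero_iff _ (algebraMap K L).injective).mp h3
      exact (map_eq_zero_iff _ (IsFractionRing.injective A K)).mp h4
    intro h
    have h3 : algebraMap A R y ∈ c q₀ := hmono (Nat.zero_le q₀) h1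
    rw [h] at h3
    exact h2 ((Submodule.mem_bot R).mp h3)
  -- large `q`
  have hlarge : ∀ q, q₀ + 1 ≤ q → ∀ x ∈ Λ q, IsIntegral A x := by
    intro q hq x hx
    have hxN : x ∈ N := hmem q x hx
    have hstab : ∀ y ∈ c q₀, ∃ z ∈ c q₀, (z : N) = (y : N) * ⟨x, hxN⟩ := by
      intro y hy
      have h1 : y ∈ c q := by rw [hst q (by omega)]; exact hy
      have h2 : IsIntegral A ((y : N) * ⟨x, hxN⟩) := (hintL _).mpr (h1 x hx)
      refine ⟨⟨(y : N) * ⟨x, hxN⟩, (hRint _).mpr h2⟩, ?_, rfl⟩
      apply hrad
      obtain ⟨r, rfl⟩ : ∃ r, q = r + 1 := ⟨q - 1, by omega⟩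
      have h3 : y ∈ c r := by rw [hst r (by omega)]; exact hy
      have h4 : IsIntegral A ((y : N) * ⟨x ^ p, pow_mem hxN p⟩) :=
        (hintL _).mpr (h3 (x ^ p) (S.pow r x hx))
      have h5 : (⟨(y : N) * ⟨x, hxN⟩, (hRint _).mpr h2⟩ : R) ^ p =
          ⟨(y : N) * ⟨x ^ p, pow_mem hxN p⟩, (hRint _).mpr h4⟩ * y ^ (p - 1) := by
        apply Subtype.ext
        show ((y : N) * ⟨x, hxN⟩) ^ p = ((y : N) * ⟨x ^ p, pow_mem hxN p⟩) * (y : N) ^ (p - 1)
        have e : (⟨x ^ p, pow_mem hxN p⟩ : N) = ⟨x, hxN⟩ ^ p := rfl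
        rw [e, mul_pow]
        have : (y : N) ^ p = (y : N) * (y : N) ^ (p - 1) := by
          rw [← pow_succ']
          congr 1
          have := hp.out.pos
          omega
        rw [this]
        ring
      rw [h5]
      exact Ideal.mul_mem_left _ _ (Ideal.pow_mem_of_mem _ hy (p - 1) (by have := hp.out.two_le; omega))
    have h6 : IsIntegral R (⟨x, hxN⟩ : N) := by
      refine isIntegral_of_smul_mem_submodule (R := R) (A := N) (M := N)
        (Submodule.map (Algebra.linearMap R N) (c q₀)) ?_ ?_ _ ?_
      · intro h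
        apply hne
        rw [eq_bot_iff]
        intro y hy
        have h7 : Algebra.linearMap R N y ∈ Submodule.map (Algebra.linearMap R N) (c q₀) :=
          Submodule.mem_map_of_mem hy
        rw [h] at h7
        have h8 : (y : N) = 0 := (Submodule.mem_bot R).mp h7
        rw [Submodule.mem_bot]
        exact Subtype.ext h8
      · exact Submodule.FG.map _ (IsNoetherian.noetherian _)
      · rintro _ ⟨y, hy, rfl⟩
        obtain ⟨z, hz, hz'⟩ := hstab y hy
        refine ⟨z, hz, ?_⟩
        show (z : N) = (⟨x, hxN⟩ : N) • (y : N)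
        rw [hz', smul_eq_mul, mul_comm]
    have h7 : IsIntegral A (⟨x, hxN⟩ : N) := by
      have : Algebra.IsIntegral A R := IsIntegralClosure.isIntegral_algebra A N
      exact isIntegral_trans _ h6
    exact (hintL _).mp h7
  have hall : ∀ m q, q₀ + 1 ≤ q + m → ∀ x ∈ Λ q, IsIntegral A x := by
    intro m
    induction m with
    | zero => intro q hq; exact hlarge q hq
    | succ m ih =>
      intro q hq x hx
      have h1 := ih (q + 1) (by omega)
      refine Submodule.span_induction (p := fun x _ => IsIntegral A x) ?_ ?_ ?_ ?_ (S.le q hx)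
      · rintro _ ⟨z, hz, rfl⟩
        exact (h1 z hz).pow p
      · exact isIntegral_zero
      · intro a b _ _ ha hb
        exact ha.add hb
      · intro a b _ hb
        exact hb.smul a
  let φ : R →ₐ[A] L := (N.val.restrictScalars A).comp R.val
  refine ⟨φ.range, ?_, ?_⟩
  · exact isNoetherian_of_surjective (f := φ.rangeRestrict.toLinearMap)
      (LinearMap.range_eq_top.mpr φ.rangeRestrict_surjective)
  · intro q x hx
    have h1 := hall (q₀ + 1) q (by omega) x hx
    have hxN := hmem q x hx
    exact ⟨⟨⟨x, hxN⟩, (hRint _).mpr ((hintL _).mpr h1)⟩, rfl⟩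

end Field

end FU
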