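import Pool.Agent.Lib.FU.Field
import Pool.Agent.Lib.FU.FinAlg

/-!
# The largest good extension
-/

set_option autoImplicit false

namespace FU

open FD IntermediateField

universe u

variable {K L : Type u} [Field K] [Field L] [Algebra K L] {D P : Set (K → ℤ)}

theorem levC_mono {p : ℕ} {E M : Type*} [AddCommGroup E] [Module K E] [AddCommGroup M] [Module L M]
    [Module K M] (S₀ : FDiv p K E) (ι : E →ₗ[K] M) {C C' : IntermediateField K L} (h : C ≤ C')
    (q : ℕ) : levC S₀ ι C q ≤ levC S₀ ι C' q := by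
  refine AddSubgroup.closure_mono ?_
  rintro _ ⟨c, hc, e, he, rfl⟩
  exact ⟨c, h hc, e, he, rfl⟩

/-- an automorphism which is trivial on the images of the members of a family of subfields is trivial
on the image of the field they generate -/
theorem fixed_adjoin {S : Set L} {N : Type u} [Field N] [Algebra K N] (j : adjoin K S →ₐ[K] N)
    (σ : N ≃ₐ[K] N) (h : ∀ x (hx : x ∈ S), σ (j ⟨x, subset_adjoin K S hx⟩) =
      j ⟨x, subset_adjoin K S hx⟩) (c : adjoin K S) : σ (j c) = j c := by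
  obtain ⟨c, hc⟩ := c
  have key : ∃ hc' : c ∈ adjoin K S, σ (j ⟨c, hc'⟩) = j ⟨c, hc'⟩ := by
    refine adjoin_induction K (p := fun b _ => ∃ hb : b ∈ adjoin K S,
      σ (j ⟨b, hb⟩) = j ⟨b, hb⟩) ?_ ?_ ?_ ?_ ?_ hc
    · intro x hx
      exact ⟨_, h x hx⟩
    · intro a
      refine ⟨_root_.algebraMap_mem _ a, ?_⟩
      have : (⟨algebraMap K L a, _root_.algebraMap_mem _ a⟩ : adjoin K S) =
          algebraMap K _ a := rfl
      rw [this, AlgHom.commutes, AlgEquiv.commutes]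
    · rintro a b _ _ ⟨ha, ha'⟩ ⟨hb, hb'⟩
      refine ⟨add_mem ha hb, ?_⟩
      have : (⟨a + b, add_mem ha hb⟩ : adjoin K S) = ⟨a, ha⟩ + ⟨b, hb⟩ := rfl
      rw [this, map_add, map_add, ha', hb']
    · rintro a _ ⟨ha, ha'⟩
      refine ⟨inv_mem ha, ?_⟩
      have : (⟨a⁻¹, inv_mem ha⟩ : adjoin K S) = (⟨a, ha⟩ : adjoin K S)⁻¹ := rfl
      rw [this, map_inv₀, map_inv₀, ha']
    · rintro a b _ _ ⟨ha, ha'⟩ ⟨hb, hb'⟩
      refine ⟨mul_mem ha hb, ?_⟩
      have : (⟨a * b, mul_mem ha hb⟩ : adjoin K S) = ⟨a, ha⟩ * ⟨b, hb⟩ := rfl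
      rw [this, map_mul, map_mul, ha', hb']
  obtain ⟨_, h'⟩ := key
  exact h'

theorem exists_largest (D P : Set (K → ℤ)) [Algebra.EssFiniteType K L] :
    ∃ C₀ : IntermediateField K L, Good D P C₀ ∧ ∀ C, Good D P C → C ≤ C₀ := by
  obtain ⟨S, hS⟩ : ∃ S : Set L, S = {x | ∃ C : IntermediateField K L, Good D P C ∧ x ∈ C} := ⟨_, rfl⟩
  have hsep : ∀ x ∈ S, IsSeparable K x := by
    intro x hx
    rw [hS] at hx
    obtain ⟨C, hC, hxC⟩ := hx
    have := hC.sep
    have h1 : (minpoly K (⟨x, hxC⟩ : C)).Separable := Algebra.IsSeparable.isSeparable K _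
    rw [IntermediateField.minpoly_eq] at h1
    exact h1
  have h2 : Algebra.IsSeparable K (adjoin K S) := (isSeparable_adjoin_iff_isSeparable K L).mpr hsep
  have h3 : Algebra.IsAlgebraic K (adjoin K S) := inferInstance
  have hle : ∀ C, Good D P C → C ≤ adjoin K S := by
    intro C hC x hx
    exact subset_adjoin K S (by rw [hS]; exact ⟨C, hC, hx⟩)
  refine ⟨adjoin K S, ⟨finite_of_isAlgebraic _, h2, fun v hv => ?_, fun v hv => ?_⟩, hle⟩
  · intro N _ _ _ _ j w r hw hr hwr σ hσ c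
    refine fixed_adjoin j σ (fun x hx => ?_) c
    obtain ⟨C, hC, hxC⟩ : ∃ C : IntermediateField K L, Good D P C ∧ x ∈ C := by
      rw [hS] at hx
      exact hx
    exact hC.unram v hv N (j.comp (IntermediateField.inclusion (hle C hC))) w r hw hr hwr σ hσ
      ⟨x, hxC⟩
  · intro N _ _ _ _ j w r hw hr hwr σ hσ c
    refine fixed_adjoin j σ (fun x hx => ?_) c
    obtain ⟨C, hC, hxC⟩ : ∃ C : IntermediateField K L, Good D P C ∧ x ∈ C := by
      rw [hS] at hx
      exact hx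
    exact hC.tame v hv N (j.comp (IntermediateField.inclusion (hle C hC))) w r hw hr hwr σ hσ
      ⟨x, hxC⟩

end FU
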