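import Pool.Agent.Lib.FU.Inert

/-!
# Inertia acts trivially on horizontal lines
-/

set_option autoImplicit false

namespace FU

open FD Finset

section Line

variable {p : ℕ} [hp : Fact p.Prime] {K V N : Type*} [Field K] [CharP K p] [AddCommGroup V]
  [Module K V] [Field N] [Algebra K N] {v : K → ℤ} {w : N → ℤ}

omit hp [CharP K p] [Algebra K N] in
theorem val_eq_of_lt (hw : IsVal w) {a b : N} (ha : a ≠ 0) (hab : b ≠ a → w a < w (b - a)) :
    b ≠ 0 ∧ w b = w a := by
  by_cases h : b = a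
  · rw [h]
    exact ⟨ha, rfl⟩
  have h1 := hab h
  have h2 : b - a ≠ 0 := sub_ne_zero.mpr h
  have hb : b ≠ 0 := by
    rintro rfl
    have h3 : w (0 - a) = w a := by
      have h4 : w (-1 : N) = 0 := by
        have h5 := hw.mul (-1) (-1) (by simp) (by simp)
        rw [neg_mul_neg, one_mul, hw.one] at h5
        omega
      have h6 : (0 : N) - a = (-1) * a := by ring
      rw [h6, hw.mul _ _ (by simp) ha, h4, zero_add]
    omega
  refine ⟨hb, le_antisymm ?_ ?_⟩
  · by_contra hcon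
    have hlt : w a < w b := not_le.mp hcon
    have h4 : w (-1 : N) = 0 := by
      have h5 := hw.mul (-1) (-1) (by simp) (by simp)
      rw [neg_mul_neg, one_mul, hw.one] at h5
      omega
    have h5 : w (-(b - a)) = w (b - a) := by
      have h6 : -(b - a) = (-1) * (b - a) := by ring
      rw [h6, hw.mul _ _ (by simp) h2, h4, zero_add]
    have h6 := hw.add b (-(b - a)) hb (neg_ne_zero.mpr h2) (by
      have : b + -(b - a) = a := by ring
      rw [this]
      exact ha)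
    have h7 : b + -(b - a) = a := by ring
    rw [h7, h5] at h6
    have := lt_min hlt h1
    omega
  · have h6 := hw.add a (b - a) ha h2 (by
      have : a + (b - a) = b := by ring
      rw [this]
      exact hb)
    have h7 : a + (b - a) = b := by ring
    rw [h7] at h6
    have : min (w a) (w (b - a)) = w a := min_eq_left h1.le
    omega

omit hp in
theorem X_bound (hw : IsVal w) {m : ℕ} {y : Fin m → V} {θ : Fin m → (V →ₗ[K] K)}
    (hθ : ∀ x, ∑ i, θ i x • y i = x) (X : (V →ₗ[K] K) →ₗ[K] N)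
    (hge : ∀ (a : K), Ge v 0 a → Ge w 0 (algebraMap K N a)) {μ : ℤ} (hμ : ∀ k, Ge w μ (X (θ k)))
    {l : V →ₗ[K] K} (hl : Dl v y l) : Ge w μ (X l) := by
  have e1 : l = ∑ k, l (y k) • θ k := by
    ext z
    conv_lhs => rw [← hθ z, map_sum]
    rw [LinearMap.sum_apply]
    refine sum_congr rfl fun k _ => ?_
    rw [map_smul, LinearMap.smul_apply, smul_eq_mul, smul_eq_mul, mul_comm]
  rw [e1, map_sum]
  refine ge_sum hw _ _ fun k _ => ?_
  rw [map_smul, Algebra.smul_def]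
  have h2 := ge_mul hw (hge _ (hl k)) (hμ k)
  rwa [zero_add] at h2

theorem ge_all (hp' : 1 < p) {a : N} {μ : ℤ} (h : ∀ q : ℕ, Ge w (μ + (p : ℤ) ^ q) a) : a = 0 := by
  by_contra hne
  obtain ⟨n, hn⟩ : ∃ n : ℕ, w a - μ ≤ n := ⟨(w a - μ).toNat, Int.self_le_toNat _⟩
  have h1 : (n : ℤ) < (p : ℤ) ^ n := by exact_mod_cast Nat.lt_pow_self hp'
  have h2 := (h n).resolve_left hne
  omega

theorem scaled (hv : IsVal v) {m : ℕ} {y : Fin m → V} (X : (V →ₗ[K] K) →ₗ[K] N) (σ : N ≃ₐ[K] N)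
    (h : ∀ l l' : V →ₗ[K] K, Dl v y l → Dl v y l' → X l * σ (X l') - X l' * σ (X l) = 0)
    (l l' : V →ₗ[K] K) : X l * σ (X l') = X l' * σ (X l) := by
  obtain ⟨b, hb, hbl⟩ := exists_scale_dual (y := y) hv l
  obtain ⟨b', hb', hbl'⟩ := exists_scale_dual (y := y) hv l'
  have h1 := h _ _ hbl hbl'
  rw [map_smul, map_smul, map_smul, map_smul, Algebra.smul_def, Algebra.smul_def, Algebra.smul_def,
    Algebra.smul_def] at h1
  have h2 : algebraMap K N b * algebraMap K N b' * (X l * σ (X l') - X l' * σ (X l)) = 0 := by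
    rw [← h1]
    ring
  have h3 : algebraMap K N b * algebraMap K N b' ≠ 0 :=
    mul_ne_zero ((map_ne_zero_iff _ (algebraMap K N).injective).mpr hb)
      ((map_ne_zero_iff _ (algebraMap K N).injective).mpr hb')
  exact sub_eq_zero.mp ((mul_eq_zero.mp h2).resolve_left h3)

theorem wildLine (hv : IsVal v) (hD : HasDecomp p v) {T : FDiv p K V} (hT : RegularAt v T)
    (X : (V →ₗ[K] K) →ₗ[K] N)
    (hX : ∀ q, ∃ u : N, u ≠ 0 ∧ ∀ l : V →ₗ[K] K, (∀ z ∈ T.F q, IsPow p q (l z)) →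
      ∃ c, c ^ p ^ q = u * X l)
    (hw : IsVal w) (r : ℕ) (hwr : ∀ a : K, a ≠ 0 → w (algebraMap K N a) = r * v a)
    (σ : N ≃ₐ[K] N) (hσ : ∀ c, c ≠ 0 → σ c ≠ c → w c < w (σ c - c)) (l l' : V →ₗ[K] K) :
    X l * σ (X l') = X l' * σ (X l) := by
  have hchar : CharP N p := charP_of_injective_algebraMap (algebraMap K N).injective p
  obtain ⟨m, y, hy, hst⟩ := hT
  obtain ⟨θ, hθ⟩ := exists_theta hy
  have hge : ∀ (a : K), Ge v 0 a → Ge w 0 (algebraMap K N a) := by
    intro a ha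
    by_cases h : a = 0
    · rw [h, map_zero]
      exact ge_zero 0
    · refine Or.inr ?_
      rw [hwr a h]
      exact mul_nonneg (Int.natCast_nonneg r) (ha.resolve_left h)
  obtain ⟨μ, hμ⟩ := exists_bound (w := w) (fun k : Fin m => X (θ k))
  refine scaled hv (y := y) X σ (fun l l' hl hl' => ?_) l l'
  refine ge_all (p := p) (w := w) (μ := 2 * μ) hp.out.one_lt fun q => ?_
  obtain ⟨u, hu, hX⟩ := hX q
  have h5 : (0 : ℤ) < (p : ℤ) ^ q := by
    have := hp.out.pos
    positivity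
  have hZ : ∀ l, Dl v y l → Ge w (w u + μ) (u * X l) := fun l hl =>
    ge_mul hw (Or.inr le_rfl) (X_bound hw hθ X hge hμ hl)
  have hdiff : ∀ l, Dl v y l → Ge w (w u + μ + (p : ℤ) ^ q) (σ (u * X l) - u * X l) := by
    intro l hl
    obtain ⟨d, g, η, hη, hg, hs⟩ := decomp_dual hv hD T hst q hl
    choose c hc using fun α => hX (η α) (hη α)
    have e1 : u * X l = ∑ α, algebraMap K N (g α) * c α ^ p ^ q := by
      conv_lhs => rw [← hs, map_sum, mul_sum]
      refine sum_congr rfl fun α _ => ?_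
      rw [map_smul, hc, Algebra.smul_def]
      ring
    rw [e1, map_sum, ← sum_sub_distrib]
    refine ge_sum hw _ _ fun α _ => ?_
    have e3 : σ (algebraMap K N (g α) * c α ^ p ^ q) - algebraMap K N (g α) * c α ^ p ^ q =
        algebraMap K N (g α) * (σ (c α) - c α) ^ p ^ q := by
      rw [map_mul, AlgEquiv.commutes, map_pow, sub_pow_char_pow]
      ring
    rw [e3]
    by_cases hc0 : c α = 0
    · rw [hc0, map_zero, sub_zero, zero_pow (pow_ne_zero _ hp.out.ne_zero), mul_zero]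
      exact ge_zero _
    by_cases hσc : σ (c α) = c α
    · rw [hσc, sub_self, zero_pow (pow_ne_zero _ hp.out.ne_zero), mul_zero]
      exact ge_zero _
    by_cases hs0 : algebraMap K N (g α) = 0
    · rw [hs0, zero_mul]
      exact ge_zero _
    have h2 := hσ (c α) hc0 hσc
    have h3 : σ (c α) - c α ≠ 0 := sub_ne_zero.mpr hσc
    refine Or.inr ?_
    have h4 := hZ _ (hg α)
    have e4 : u * X (g α • η α) = algebraMap K N (g α) * c α ^ p ^ q := by
      rw [map_smul, hc, Algebra.smul_def]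
      ring
    rw [e4] at h4
    have h6 := h4.resolve_left (mul_ne_zero hs0 (pow_ne_zero _ hc0))
    rw [hw.mul _ _ hs0 (pow_ne_zero _ hc0), hw.pow hc0] at h6
    rw [hw.mul _ _ hs0 (pow_ne_zero _ h3), hw.pow h3]
    push_cast at h6 ⊢
    nlinarith
  obtain ⟨hσu, hσu'⟩ := val_eq_of_lt hw hu (fun h => hσ u hu h)
  have h6 : Ge w (w u + μ + (w u + μ + (p : ℤ) ^ q))
      (u * σ u * (X l * σ (X l') - X l' * σ (X l))) := by
    have e : u * σ u * (X l * σ (X l') - X l' * σ (X l)) =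
        (u * X l) * (σ (u * X l') - u * X l') + (-1) * ((u * X l') * (σ (u * X l) - u * X l)) := by
      rw [map_mul, map_mul]
      ring
    rw [e]
    refine ge_add hw (ge_mul hw (hZ l hl) (hdiff l' hl')) ?_
    have h7 := ge_mul hw (hZ l' hl') (hdiff l hl)
    have h8 : Ge w 0 (-1 : N) := by
      refine Or.inr ?_
      have h5 := hw.mul (-1) (-1) (by simp) (by simp)
      rw [neg_mul_neg, one_mul, hw.one] at h5
      omega
    have h9 := ge_mul hw h8 h7
    rwa [zero_add] at h9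
  by_cases hΔ : X l * σ (X l') - X l' * σ (X l) = 0
  · exact Or.inl hΔ
  refine Or.inr ?_
  have h7 := h6.resolve_left (mul_ne_zero (mul_ne_zero hu hσu) hΔ)
  rw [hw.mul _ _ (mul_ne_zero hu hσu) hΔ, hw.mul _ _ hu hσu, hσu'] at h7
  linarith

omit hp [CharP K p] in
theorem inert_val (hv : IsVal v) (hw : IsVal w) {r : ℕ} (hr : 0 < r)
    (hwr : ∀ a : K, a ≠ 0 → w (algebraMap K N a) = r * v a)
    (σ : N ≃ₐ[K] N) (hσ : ∀ c, Ge w 0 c → σ c ≠ c → 0 < w (σ c - c)) {c : N} (hc : c ≠ 0) :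
    w (σ c) = w c := by
  obtain ⟨t, ht0, ht1⟩ := hw.unif
  obtain ⟨a, ha0, ha1⟩ := hv.unif
  have hσ0 : ∀ z : N, z ≠ 0 → σ z ≠ 0 := fun z hz => (map_ne_zero_iff _ σ.injective).mpr hz
  have hge : ∀ z : N, Ge w 0 z → Ge w 0 (σ z) := by
    intro z hz
    by_cases h : σ z = z
    · rw [h]
      exact hz
    have h1 : σ z = z + (σ z - z) := by ring
    rw [h1]
    exact ge_add hw hz (Or.inr (hσ z hz h).le)
  have hunit : ∀ z : N, z ≠ 0 → w z = 0 → w (σ z) = 0 := by
    intro z hz hz0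
    have h1 := (hge z (Or.inr hz0.ge)).resolve_left (hσ0 z hz)
    have h2 := (hge z⁻¹ (Or.inr (by rw [hw.inv hz, hz0]; simp))).resolve_left
      (hσ0 _ (inv_ne_zero hz))
    rw [map_inv₀, hw.inv (hσ0 z hz)] at h2
    omega
  have hzpow : ∀ (z : N), z ≠ 0 → ∀ n : ℤ, w (z ^ n) = n * w z := by
    intro z hz n
    obtain ⟨k, rfl | rfl⟩ := n.eq_nat_or_neg
    · rw [zpow_natCast, hw.pow hz]
    · rw [zpow_neg, zpow_natCast, hw.inv (pow_ne_zero _ hz), hw.pow hz]
      ring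
  have hall : ∀ z : N, z ≠ 0 → w (σ z) = w z * w (σ t) := by
    intro z hz
    obtain ⟨e, he⟩ : ∃ e, e = z * t ^ (-(w z)) := ⟨_, rfl⟩
    have he0 : e ≠ 0 := by rw [he]; exact mul_ne_zero hz (zpow_ne_zero _ ht0)
    have hwe : w e = 0 := by
      rw [he, hw.mul _ _ hz (zpow_ne_zero _ ht0), hzpow t ht0, ht1]
      ring
    have h1 : z = e * t ^ (w z) := by
      rw [he, mul_assoc, ← zpow_add₀ ht0, neg_add_cancel, zpow_zero, mul_one]
    have h2 : w (σ z) = w (σ e) + w (σ t ^ (w z)) := by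
      conv_lhs => rw [h1, map_mul, map_zpow₀]
      exact hw.mul _ _ (hσ0 e he0) (zpow_ne_zero _ (hσ0 t ht0))
    rw [h2, hunit e he0 hwe, hzpow _ (hσ0 t ht0), zero_add]
  have h1 := hall (algebraMap K N a) ((map_ne_zero_iff _ (algebraMap K N).injective).mpr ha0)
  rw [AlgEquiv.commutes, hwr a ha0, ha1, mul_one] at h1
  have h2 : w (σ t) = 1 := by
    have hr' : (r : ℤ) ≠ 0 := by exact_mod_cast hr.ne'
    have h3 : (r : ℤ) * 1 = r * w (σ t) := by rw [mul_one]; exact h1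
    exact (mul_left_cancel₀ hr' h3).symm
  rw [hall c hc, h2, mul_one]

theorem inertLine (hv : IsVal v) (hD : HasDecomp p v) {T : FDiv p K V} (hT : ExtendsAt v T)
    (X : (V →ₗ[K] K) →ₗ[K] N)
    (hX : ∀ q, ∃ u : N, u ≠ 0 ∧ ∀ l : V →ₗ[K] K, (∀ z ∈ T.F q, IsPow p q (l z)) →
      ∃ c, c ^ p ^ q = u * X l)
    (hw : IsVal w) (r : ℕ) (hr : 0 < r) (hwr : ∀ a : K, a ≠ 0 → w (algebraMap K N a) = r * v a)
    (σ : N ≃ₐ[K] N) (hσ : ∀ c, Ge w 0 c → σ c ≠ c → 0 < w (σ c - c)) (l l' : V →ₗ[K] K) :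
    X l * σ (X l') = X l' * σ (X l) := by
  have hchar : CharP N p := charP_of_injective_algebraMap (algebraMap K N).injective p
  obtain ⟨m, y, hy, hst⟩ := hT
  obtain ⟨θ, hθ⟩ := exists_theta hy
  have hge : ∀ (a : K), Ge v 0 a → Ge w 0 (algebraMap K N a) := by
    intro a ha
    by_cases h : a = 0
    · rw [h, map_zero]
      exact ge_zero 0
    · refine Or.inr ?_
      rw [hwr a h]
      exact mul_nonneg (Int.natCast_nonneg r) (ha.resolve_left h)
  obtain ⟨μ, hμ⟩ := exists_bound (w := w) (fun k : Fin m => X (θ k))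
  refine scaled hv (y := y) X σ (fun l l' hl hl' => ?_) l l'
  refine ge_all (p := p) (w := w) (μ := 2 * μ) hp.out.one_lt fun q => ?_
  have h5 : (0 : ℤ) < (p : ℤ) ^ q := by
    have := hp.out.pos
    positivity
  obtain ⟨u, hu, hu1, hu2, hX⟩ : ∃ u : N, u ≠ 0 ∧ w u + μ ≤ 0 ∧ -(w u + μ) < (p : ℤ) ^ q ∧
      ∀ l : V →ₗ[K] K, (∀ z ∈ T.F q, IsPow p q (l z)) → ∃ c, c ^ p ^ q = u * X l := by
    obtain ⟨u, hu, hX⟩ := hX q
    obtain ⟨t, ht0, ht1⟩ := hw.unif
    obtain ⟨k, hk⟩ : ∃ k : ℤ, k = (-(w u + μ)) / (p : ℤ) ^ q := ⟨_, rfl⟩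
    have hzp : w (t ^ k) = k := by
      obtain ⟨n, rfl | rfl⟩ := k.eq_nat_or_neg
      · rw [zpow_natCast, hw.pow ht0, ht1, mul_one]
      · rw [zpow_neg, zpow_natCast, hw.inv (pow_ne_zero _ ht0), hw.pow ht0, ht1, mul_one]
    have htk : t ^ k ≠ 0 := zpow_ne_zero k ht0
    have hwu : w (u * (t ^ k) ^ p ^ q) = w u + (p : ℤ) ^ q * k := by
      rw [hw.mul _ _ hu (pow_ne_zero _ htk), hw.pow htk, hzp]
      push_cast
      ring
    have hmod := Int.emod_add_mul_ediv (-(w u + μ)) ((p : ℤ) ^ q)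
    have hm1 := Int.emod_nonneg (-(w u + μ)) h5.ne'
    have hm2 := Int.emod_lt_of_pos (-(w u + μ)) h5
    rw [← hk] at hmod
    refine ⟨u * (t ^ k) ^ p ^ q, mul_ne_zero hu (pow_ne_zero _ htk), ?_, ?_, fun l hl => ?_⟩
    · rw [hwu]
      linarith
    · rw [hwu]
      linarith
    · obtain ⟨c, hc⟩ := hX l hl
      refine ⟨c * t ^ k, ?_⟩
      rw [mul_pow, hc]
      ring
  have hZ : ∀ l, Dl v y l → Ge w (w u + μ) (u * X l) := fun l hl =>
    ge_mul hw (Or.inr le_rfl) (X_bound hw hθ X hge hμ hl)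
  have hdiff : ∀ l, Dl v y l → Ge w ((p : ℤ) ^ q) (σ (u * X l) - u * X l) := by
    intro l hl
    obtain ⟨d, g, η, hg, hη, hL, hs⟩ := decompE_dual hv hD T hst q hl
    choose c hc using fun α => hX (η α) (hη α)
    have e1 : u * X l = ∑ α, algebraMap K N (g α) * c α ^ p ^ q := by
      conv_lhs => rw [← hs, map_sum, mul_sum]
      refine sum_congr rfl fun α _ => ?_
      rw [map_smul, hc, Algebra.smul_def]
      ring
    rw [e1, map_sum, ← sum_sub_distrib]
    refine ge_sum hw _ _ fun α _ => ?_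
    have e3 : σ (algebraMap K N (g α) * c α ^ p ^ q) - algebraMap K N (g α) * c α ^ p ^ q =
        algebraMap K N (g α) * (σ (c α) - c α) ^ p ^ q := by
      rw [map_mul, AlgEquiv.commutes, map_pow, sub_pow_char_pow]
      ring
    rw [e3]
    have h7 : Ge w ((p : ℤ) ^ q) ((σ (c α) - c α) ^ p ^ q) := by
      by_cases hσc : σ (c α) = c α
      · rw [hσc, sub_self, zero_pow (pow_ne_zero _ hp.out.ne_zero)]
        exact ge_zero _
      have hc0 : c α ≠ 0 := by
        intro h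
        apply hσc
        rw [h, map_zero]
      have h8 := hZ _ (hL α)
      rw [← hc] at h8
      have h8 := h8.resolve_left (pow_ne_zero _ hc0)
      rw [hw.pow hc0] at h8
      push_cast at h8
      have h9 : -1 < w (c α) := by
        by_contra hcon
        have h10 : (p : ℤ) ^ q * w (c α) ≤ (p : ℤ) ^ q * (-1) :=
          mul_le_mul_of_nonneg_left (not_lt.mp hcon) h5.le
        linarith
      have h11 := hσ (c α) (Or.inr (by omega)) hσc
      have h12 : σ (c α) - c α ≠ 0 := sub_ne_zero.mpr hσc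
      refine Or.inr ?_
      rw [hw.pow h12]
      push_cast
      have h13 : (p : ℤ) ^ q * 1 ≤ (p : ℤ) ^ q * w (σ (c α) - c α) :=
        mul_le_mul_of_nonneg_left (by omega) h5.le
      linarith
    have h8 := ge_mul hw (hge _ (hg α)) h7
    rwa [zero_add] at h8
  have hσu : σ u ≠ 0 := (map_ne_zero_iff _ σ.injective).mpr hu
  have hσu' : w (σ u) = w u := inert_val hv hw hr hwr σ hσ hu
  have h6 : Ge w (w u + μ + (p : ℤ) ^ q)
      (u * σ u * (X l * σ (X l') - X l' * σ (X l))) := by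
    have e : u * σ u * (X l * σ (X l') - X l' * σ (X l)) =
        (u * X l) * (σ (u * X l') - u * X l') + (-1) * ((u * X l') * (σ (u * X l) - u * X l)) := by
      rw [map_mul, map_mul]
      ring
    rw [e]
    refine ge_add hw (ge_mul hw (hZ l hl) (hdiff l' hl')) ?_
    have h7 := ge_mul hw (hZ l' hl') (hdiff l hl)
    have h8 : Ge w 0 (-1 : N) := by
      refine Or.inr ?_
      have h5 := hw.mul (-1) (-1) (by simp) (by simp)
      rw [neg_mul_neg, one_mul, hw.one] at h5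
      omega
    have h9 := ge_mul hw h8 h7
    rwa [zero_add] at h9
  by_cases hΔ : X l * σ (X l') - X l' * σ (X l) = 0
  · exact Or.inl hΔ
  refine Or.inr ?_
  have h7 := h6.resolve_left (mul_ne_zero (mul_ne_zero hu hσu) hΔ)
  rw [hw.mul _ _ (mul_ne_zero hu hσu) hΔ, hw.mul _ _ hu hσu, hσu'] at h7
  linarith

end Line

end FU
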