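import Pool.Agent.Lib.FU.Coef

/-!
# Homomorphisms with all coefficients in `A` come from `A`
-/

set_option autoImplicit false

namespace FU

open Finset FD

universe u v₁ v₂

section Main

variable {p : ℕ} [hp : Fact p.Prime] {A B : Type u} [CommRing A] [CharP A p] [CommRing B]
  [IsDomain B] [CharP B p] [Algebra A B]
  {E E' : Type v₁} [AddCommGroup E] [Module A E] [AddCommGroup E'] [Module A E']
  {M M' : Type v₂} [AddCommGroup M] [Module B M] [Module A M] [IsScalarTower A B M]
  [AddCommGroup M'] [Module B M'] [Module A M'] [IsScalarTower A B M']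
  {S₀ : FDiv p A E} {S₀' : FDiv p A E'} {S : FDiv p B M} {S' : FDiv p B M'}
  {ι : E →ₗ[A] M} {ι' : E' →ₗ[A] M'}

omit hp [CharP A p] [IsDomain B] [CharP B p] in
theorem ι_injective (h' : IsPull S₀' S' ι') (hinj : Function.Injective (algebraMap A B)) :
    Function.Injective ι' := by
  obtain ⟨d', f, ξ, _, _, hf3⟩ := S₀'.dual 0
  rw [injective_iff_map_eq_zero]
  intro x hx
  rw [← hf3 x]
  refine sum_eq_zero fun i _ => ?_
  have h1 : algebraMap A B (ξ i x) = 0 := by
    rw [← extB_ι h', hx, map_zero]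
  rw [(map_eq_zero_iff _ hinj).mp h1, zero_smul]

theorem exists_hom (h : IsPull S₀ S ι) (h' : IsPull S₀' S' ι')
    (hinj : Function.Injective (algebraMap A B)) (w : M →ₗ[B] M') (hw : IsHor S S' w)
    (hL : ∀ q, ∀ b ∈ Lam S₀ h' ι w q, ∃ a, algebraMap A B a = b) :
    ∃! u : E →ₗ[A] E', IsHor S₀ S₀' u ∧ ∀ x, ι' (u x) = w (ι x) := by
  have hι := ι_injective h' hinj
  have key : ∀ q, ∀ e ∈ S₀.F q, ∃ x ∈ S₀'.F q, ι' x = w (ι e) := by
    intro q e he
    obtain ⟨d', f, ξ, hf1, hf2, hf3⟩ := S₀'.dual q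
    choose b hb using fun i => coef_isPow h h' w hw (hf2 i) he
    have hb' : ∀ i, ∃ a, algebraMap A B a = b i := fun i =>
      hL q (b i) (Submodule.subset_span ⟨e, he, ξ i, hf2 i, hb i⟩)
    choose a ha using hb'
    refine ⟨∑ i, a i ^ p ^ q • f i, sum_mem fun i _ => S₀'.pow_smul q _ _ (hf1 i), ?_⟩
    conv_rhs => rw [← expand_val h' hf3 (w (ι e))]
    rw [map_sum]
    refine sum_congr rfl fun i _ => ?_
    rw [map_smul, ← algebraMap_smul B (a i ^ p ^ q) (ι' (f i)), map_pow, ha, hb]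
    rfl
  have hex : ∀ e, ∃ x, ι' x = w (ι e) := fun e => by
    obtain ⟨x, _, hx⟩ := key 0 e (by rw [S₀.zero]; trivial)
    exact ⟨x, hx⟩
  choose u hu using hex
  let U : E →ₗ[A] E' :=
    { toFun := u
      map_add' := fun x y => hι (by rw [map_add, hu, hu, hu, map_add, map_add])
      map_smul' := fun a x => hι (by
        rw [RingHom.id_apply, map_smul, hu, hu, map_smul, ← algebraMap_smul B a (ι x), map_smul,
          algebraMap_smul]) }
  refine ⟨U, ⟨fun q e he => ?_, fun x => hu x⟩, fun V hV => ?_⟩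
  · obtain ⟨x, hx, hx'⟩ := key q e he
    have : U e = x := hι ((hu e).trans hx'.symm)
    rw [this]
    exact hx
  · ext x
    exact hι ((hV.2 x).trans (hu x).symm)

end Main

end FU
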