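import Pool.Agent.Lib.FU.Inert
import Pool.Agent.Lib.FU.Main

/-!
# The algebra generated by the coefficients is tamely ramified
-/

set_option autoImplicit false

namespace FU

open Finset FD

universe u v₁ v₂ v₃

section Tame

variable {p : ℕ} [hp : Fact p.Prime] {A B K N : Type u} [CommRing A] [CharP A p] [CommRing B]
  [IsDomain B] [CharP B p] [Algebra A B] [Field K] [CharP K p] [Algebra A K] [Field N] [Algebra K N]
  [Algebra A N] [IsScalarTower A K N]
  {E E' : Type v₁} [AddCommGroup E] [Module A E] [AddCommGroup E'] [Module A E']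
  {M M' : Type v₂} [AddCommGroup M] [Module B M] [Module A M] [IsScalarTower A B M]
  [AddCommGroup M'] [Module B M'] [Module A M'] [IsScalarTower A B M']
  {V V' : Type v₃} [AddCommGroup V] [Module K V] [Module A V] [IsScalarTower A K V]
  [AddCommGroup V'] [Module K V'] [Module A V'] [IsScalarTower A K V']
  {S₀ : FDiv p A E} {S₀' : FDiv p A E'} {S : FDiv p B M} {S' : FDiv p B M'}
  {ι : E →ₗ[A] M} {ι' : E' →ₗ[A] M'} {T : FDiv p K V} {T' : FDiv p K V'}
  {κ : E →ₗ[A] V} {κ' : E' →ₗ[A] V'} (h : IsPull S₀ S ι) (h' : IsPull S₀' S' ι') (w : M →ₗ[B] M')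
  (hK : IsPull S₀ T κ) (hK' : IsPull S₀' T' κ')

/-- the algebra generated by the (roots of the) coefficients -/
noncomputable def CC (S₀ : FDiv p A E) (h' : IsPull S₀' S' ι') (ι : E →ₗ[A] M) (w : M →ₗ[B] M') :
    Subalgebra A B := Algebra.adjoin A (⋃ q, (Lam S₀ h' ι w q : Set B))

omit hp [CharP A p] [IsDomain B] [CharP B p] in
theorem mem_CC {q : ℕ} {b : B} (hb : b ∈ Lam S₀ h' ι w q) : b ∈ CC S₀ h' ι w :=
  Algebra.subset_adjoin (Set.mem_iUnion.mpr ⟨q, hb⟩)

omit hp [CharP A p] [IsDomain B] [CharP B p] in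
theorem coef_mem_Lam (η : E' →ₗ[A] A) (e : E) : coef h' ι w η e ∈ Lam S₀ h' ι w 0 :=
  Submodule.subset_span ⟨e, by rw [S₀.zero]; trivial, η,
    fun x _ => ⟨η x, by rw [pow_zero, pow_one]⟩, by rw [pow_zero, pow_one]⟩

omit hp [CharP A p] [IsDomain B] [CharP B p] in
theorem coef_mem (η : E' →ₗ[A] A) (e : E) : coef h' ι w η e ∈ CC S₀ h' ι w :=
  mem_CC h' w (coef_mem_Lam h' w η e)

variable (j : CC S₀ h' ι w →ₐ[A] N)

/-- the coefficients in `N` -/
noncomputable def cj (η : E' →ₗ[A] A) : E →ₗ[A] N where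
  toFun e := j ⟨coef h' ι w η e, coef_mem h' w η e⟩
  map_add' x y := by
    rw [← map_add]
    congr 1
    apply Subtype.ext
    show coef h' ι w η (x + y) = coef h' ι w η x + coef h' ι w η y
    unfold coef
    rw [map_add, map_add, map_add]
  map_smul' a x := by
    rw [RingHom.id_apply, ← map_smul]
    congr 1
    apply Subtype.ext
    show coef h' ι w η (a • x) = a • coef h' ι w η x
    unfold coef
    rw [map_smul, ← algebraMap_smul B a (ι x), map_smul, map_smul, algebraMap_smul]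

omit hp [CharP A p] [IsDomain B] [CharP B p] in
theorem cj_form {d : ℕ} {f : Fin d → E'} {ξ : Fin d → (E' →ₗ[A] A)}
    (hf : ∀ m, ∑ i, ξ i m • f i = m) (η : E' →ₗ[A] A) (e : E) :
    cj h' w j η e = ∑ i, algebraMap A N (η (f i)) * cj h' w j (ξ i) e := by
  have h1 := coef_form h' w (ι := ι) hf η e
  have h2 : (⟨coef h' ι w η e, coef_mem h' w η e⟩ : CC S₀ h' ι w) =
      ∑ i, (η (f i)) • (⟨coef h' ι w (ξ i) e, coef_mem h' w (ξ i) e⟩ : CC S₀ h' ι w) := by
    apply Subtype.ext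
    rw [AddSubmonoidClass.coe_finsetSum]
    show coef h' ι w η e = _
    rw [h1]
    exact sum_congr rfl fun i _ => (Algebra.smul_def _ _).symm
  show j _ = _
  rw [h2, map_sum]
  refine sum_congr rfl fun i _ => ?_
  rw [map_smul, Algebra.smul_def]
  rfl

/-- the form `e ↦ ∑ l(f_i) cj(ξ_i, e)` -/
noncomputable def gl {d : ℕ} (f : Fin d → E') (ξ : Fin d → (E' →ₗ[A] A)) (l : E' → K) :
    E →ₗ[A] N where
  toFun e := ∑ i, algebraMap K N (l (f i)) * cj h' w j (ξ i) e
  map_add' x y := by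
    rw [← sum_add_distrib]
    exact sum_congr rfl fun i _ => by rw [map_add, mul_add]
  map_smul' a x := by
    rw [RingHom.id_apply, smul_sum]
    exact sum_congr rfl fun i _ => by rw [map_smul, mul_smul_comm]

include h hK hK' in
theorem exists_gam (hw : IsHor S S' w) : ∃ gam : (V' →ₗ[K] K) →ₗ[K] (V →ₗ[K] N),
    (∀ q, ∀ x ∈ T.F q, ∀ l : V' →ₗ[K] K, (∀ z ∈ T'.F q, IsPow p q (l z)) →
      ∃ c, c ^ p ^ q = gam l x) ∧
    ∀ (ζ : E' →ₗ[A] A) (e : E), gam (hK'.1.lift ((Algebra.linearMap A K).comp ζ)) (κ e) =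
      cj h' w j ζ e := by
  have hcharN : CharP N p := charP_of_injective_algebraMap (algebraMap K N).injective p
  obtain ⟨d, f, ξ, hf1, hf2, hf3⟩ := S₀'.dual 0
  let G : (V' →ₗ[K] K) → (V →ₗ[K] N) := fun l => hK.1.lift (gl h' w j f ξ (fun x => l (κ' x)))
  have hG : ∀ l e, G l (κ e) = ∑ i, algebraMap K N (l (κ' (f i))) * cj h' w j (ξ i) e := fun l e =>
    hK.1.lift_eq _ e
  have hext : ∀ (f g : V →ₗ[K] N), (∀ e, f (κ e) = g (κ e)) → f = g := by
    intro f g hfg
    ext y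
    induction y using hK.1.inductionOn with
    | zero => rw [map_zero, map_zero]
    | tmul x => exact hfg x
    | smul s x hx => rw [map_smul, map_smul, hx]
    | add x y hx hy => rw [map_add, map_add, hx, hy]
  let gam : (V' →ₗ[K] K) →ₗ[K] (V →ₗ[K] N) :=
    { toFun := G
      map_add' := fun l l' => hext _ _ fun e => by
        rw [LinearMap.add_apply, hG, hG, hG, ← sum_add_distrib]
        exact sum_congr rfl fun i _ => by rw [LinearMap.add_apply, map_add, add_mul]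
      map_smul' := fun a l => hext _ _ fun e => by
        rw [RingHom.id_apply, LinearMap.smul_apply, hG, hG, smul_sum]
        exact sum_congr rfl fun i _ => by
          rw [LinearMap.smul_apply, smul_eq_mul, map_mul, Algebra.smul_def, mul_assoc] }
  -- independence of the frame
  have hframe : ∀ (l : V' →ₗ[K] K) (e : E) {d' : ℕ} {f' : Fin d' → E'} {ξ' : Fin d' → (E' →ₗ[A] A)},
      (∀ m, ∑ i, ξ' i m • f' i = m) →
      gam l (κ e) = ∑ i, algebraMap K N (l (κ' (f' i))) * cj h' w j (ξ' i) e := by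
    intro l e d' f' ξ' hf'
    show G l (κ e) = _
    rw [hG]
    have e1 : ∀ i, algebraMap K N (l (κ' (f i))) * cj h' w j (ξ i) e =
        ∑ k, algebraMap K N (l (κ' (f i))) * (algebraMap A N (ξ i (f' k)) * cj h' w j (ξ' k) e) := by
      intro i
      rw [cj_form h' w j hf' (ξ i) e, mul_sum]
    rw [sum_congr rfl fun i _ => e1 i, sum_comm]
    refine sum_congr rfl fun k _ => ?_
    conv_rhs => rw [← hf3 (f' k), map_sum, map_sum, map_sum, sum_mul]
    refine sum_congr rfl fun i _ => ?_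
    rw [map_smul, ← algebraMap_smul K (ξ i (f' k)) (κ' (f i)), map_smul, smul_eq_mul, map_mul,
      ← IsScalarTower.algebraMap_apply A K N]
    ring
  refine ⟨gam, ?_, ?_⟩
  · intro q x hx l hl
    rw [hK.2 q] at hx
    have hpow : IsPow p q (gam l x) := by
      refine AddSubgroup.closure_induction (p := fun x _ => IsPow p q (gam l x)) ?_ ?_ ?_ ?_ hx
      · rintro _ ⟨c, e, he, rfl⟩
        rw [map_smul, Algebra.smul_def, map_pow]
        refine isPow_mul' ⟨_, rfl⟩ ?_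
        obtain ⟨d', f', ξ', hf'1, hf'2, hf'3⟩ := S₀'.dual q
        rw [hframe l e hf'3]
        refine isPow_sum' _ _ fun i _ => isPow_mul' ?_ ?_
        · have h1 : κ' (f' i) ∈ T'.F q := by
            rw [hK'.2 q]
            exact AddSubgroup.subset_closure ⟨1, f' i, hf'1 i, by rw [one_pow, one_smul]⟩
          obtain ⟨a, ha⟩ := hl _ h1
          exact ⟨algebraMap K N a, by rw [← map_pow, ha]⟩
        · obtain ⟨b, hb⟩ := coef_isPow h h' w hw (hf'2 i) he
          have hbC : b ∈ CC S₀ h' ι w :=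
            mem_CC h' w (q := q) (Submodule.subset_span ⟨e, he, ξ' i, hf'2 i, hb⟩)
          refine ⟨j ⟨b, hbC⟩, ?_⟩
          rw [← map_pow]
          show j _ = j _
          congr 1
          exact Subtype.ext hb
      · rw [map_zero]
        exact isPow_zero' q
      · intro a b _ _ ha hb
        rw [map_add]
        exact isPow_add' ha hb
      · intro a _ ha
        rw [map_neg]
        exact isPow_neg' ha
    exact hpow
  · intro ζ e
    rw [hframe _ e hf3, cj_form h' w j hf3 ζ e]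
    refine sum_congr rfl fun i _ => ?_
    rw [hK'.1.lift_eq, IsScalarTower.algebraMap_apply A K N]
    rfl

include h hK hK' in
theorem fixed (hw : IsHor S S' w) (σ : N ≃ₐ[K] N)
    (hσ : ∀ gam : (V' →ₗ[K] K) →ₗ[K] (V →ₗ[K] N),
      (∀ q, ∀ x ∈ T.F q, ∀ l : V' →ₗ[K] K, (∀ z ∈ T'.F q, IsPow p q (l z)) →
        ∃ c, c ^ p ^ q = gam l x) → ∀ l x, σ (gam l x) = gam l x) (c : CC S₀ h' ι w) :
    σ (j c) = j c := by
  have hcharN : CharP N p := charP_of_injective_algebraMap (algebraMap K N).injective p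
  obtain ⟨gam, hg1, hg2⟩ := exists_gam h h' w hK hK' j hw
  have h0 : ∀ (ζ : E' →ₗ[A] A) (e : E), σ (cj h' w j ζ e) = cj h' w j ζ e := by
    intro ζ e
    rw [← hg2]
    exact hσ gam hg1 _ _
  have hL : ∀ q, ∀ b ∈ Lam S₀ h' ι w q, ∃ hb : b ∈ CC S₀ h' ι w, σ (j ⟨b, hb⟩) = j ⟨b, hb⟩ := by
    intro q b hb
    refine Submodule.span_induction (p := fun b _ => ∃ hb : b ∈ CC S₀ h' ι w,
      σ (j ⟨b, hb⟩) = j ⟨b, hb⟩) ?_ ?_ ?_ ?_ hb
    · rintro b ⟨e, he, η, hη, hb⟩
      have hbC : b ∈ CC S₀ h' ι w :=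
        mem_CC h' w (q := q) (Submodule.subset_span ⟨e, he, η, hη, hb⟩)
      refine ⟨hbC, ?_⟩
      apply pow_inj (p := p) q
      rw [← map_pow, ← map_pow]
      have h1 : (⟨b, hbC⟩ : CC S₀ h' ι w) ^ p ^ q = ⟨coef h' ι w η e, coef_mem h' w η e⟩ :=
        Subtype.ext hb
      rw [h1]
      exact h0 η e
    · refine ⟨zero_mem _, ?_⟩
      have : (⟨0, zero_mem _⟩ : CC S₀ h' ι w) = 0 := rfl
      rw [this, map_zero, map_zero]
    · rintro a b _ _ ⟨ha, ha'⟩ ⟨hb, hb'⟩
      refine ⟨add_mem ha hb, ?_⟩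
      have : (⟨a + b, add_mem ha hb⟩ : CC S₀ h' ι w) = ⟨a, ha⟩ + ⟨b, hb⟩ := rfl
      rw [this, map_add, map_add, ha', hb']
    · rintro a b _ ⟨hb, hb'⟩
      refine ⟨Subalgebra.smul_mem _ hb a, ?_⟩
      have : (⟨a • b, Subalgebra.smul_mem _ hb a⟩ : CC S₀ h' ι w) = a • ⟨b, hb⟩ := rfl
      rw [this, map_smul, ← algebraMap_smul K a (j ⟨b, hb⟩), map_smul, hb']
  obtain ⟨c, hc⟩ := c
  have hc' : c ∈ Algebra.adjoin A (⋃ q, (Lam S₀ h' ι w q : Set B)) := hc
  have key : ∃ hb : c ∈ CC S₀ h' ι w, σ (j ⟨c, hb⟩) = j ⟨c, hb⟩ := by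
    refine Algebra.adjoin_induction (p := fun b _ => ∃ hb : b ∈ CC S₀ h' ι w,
      σ (j ⟨b, hb⟩) = j ⟨b, hb⟩) ?_ ?_ ?_ ?_ hc'
    · intro b hb
      obtain ⟨q, hq⟩ := Set.mem_iUnion.mp hb
      exact hL q b hq
    · intro a
      refine ⟨Subalgebra.algebraMap_mem _ a, ?_⟩
      have : (⟨algebraMap A B a, Subalgebra.algebraMap_mem _ a⟩ : CC S₀ h' ι w) =
          algebraMap A _ a := rfl
      rw [this, AlgHom.commutes, IsScalarTower.algebraMap_apply A K N, AlgEquiv.commutes]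
    · rintro a b _ _ ⟨ha, ha'⟩ ⟨hb, hb'⟩
      refine ⟨add_mem ha hb, ?_⟩
      have : (⟨a + b, add_mem ha hb⟩ : CC S₀ h' ι w) = ⟨a, ha⟩ + ⟨b, hb⟩ := rfl
      rw [this, map_add, map_add, ha', hb']
    · rintro a b _ _ ⟨ha, ha'⟩ ⟨hb, hb'⟩
      refine ⟨mul_mem ha hb, ?_⟩
      have : (⟨a * b, mul_mem ha hb⟩ : CC S₀ h' ι w) = ⟨a, ha⟩ * ⟨b, hb⟩ := rfl
      rw [this, map_mul, map_mul, ha', hb']
  obtain ⟨_, h⟩ := key
  exact h

end Tame

end FU
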