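import Pool.Agent.Lib.FU.Sub
import Pool.Agent.Lib.FU.Tame

/-!
# Horizontal lines descend
-/

set_option autoImplicit false

namespace FU

open Finset FD IntermediateField

universe u v₁ v₂

section LineDesc

variable {p : ℕ} [hp : Fact p.Prime] {K L : Type u} [Field K] [CharP K p] [Field L] [CharP L p]
  [Algebra K L] {V : Type v₁} [AddCommGroup V] [Module K V] {M : Type v₂} [AddCommGroup M]
  [Module L M] [Module K M] [IsScalarTower K L M] {S₀ : FDiv p K V} {S : FDiv p L M}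
  {ι : V →ₗ[K] M} (h : IsPull S₀ S ι) {x : M}

omit hp [CharP K p] [CharP L p] in
theorem extB_add (η η' : V →ₗ[K] K) (y : M) : extB h (η + η') y = extB h η y + extB h η' y := by
  have h1 : extB h (η + η') = extB h η + extB h η' := by
    apply hom_ext_B h
    intro x
    rw [extB_ι, LinearMap.add_apply, LinearMap.add_apply, extB_ι, extB_ι, map_add]
  rw [h1, LinearMap.add_apply]

omit hp [CharP K p] [CharP L p] in
theorem extB_smul (a : K) (η : V →ₗ[K] K) (y : M) : extB h (a • η) y = algebraMap K L a * extB h η y := by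
  have h1 : extB h (a • η) = algebraMap K L a • extB h η := by
    apply hom_ext_B h
    intro x
    rw [extB_ι, LinearMap.smul_apply, LinearMap.smul_apply, extB_ι, smul_eq_mul, smul_eq_mul, map_mul]
  rw [h1, LinearMap.smul_apply, smul_eq_mul]

omit hp [CharP K p] in
theorem isLev_zero (η : V →ₗ[K] K) : IsLev S₀ 0 η := fun x _ => ⟨η x, by rw [pow_zero, pow_one]⟩

variable {η₀ : V →ₗ[K] K}

omit hp [CharP L p] [CharP K p] in
theorem coord_mem (h1 : extB h η₀ x = 1) (η : V →ₗ[K] K) : extB h η x ∈ Fs S₀ h x 0 := by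
  refine subset_adjoin K _ ⟨η, η₀, isLev_zero η, isLev_zero η₀, ?_, ?_⟩
  · rw [h1]
    exact one_ne_zero
  · rw [h1, pow_zero, pow_one, mul_one]

theorem fs_le (hx : x ≠ 0) (hline : ∀ q, ∃ c : L, c ≠ 0 ∧ c • x ∈ S.F q) {Q : ℕ}
    (hQ : ∀ q, Q ≤ q → Fs S₀ h x q = Fs S₀ h x Q) (q : ℕ) : Fs S₀ h x q ≤ Fs S₀ h x Q := by
  rcases le_total q Q with h1 | h1
  · exact (fseq h hx hline).mono h1
  · exact (hQ q h1).le

variable {N : Type u} [Field N] [Algebra K N]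

theorem fixedLine (h1 : extB h η₀ x = 1) (hx : x ≠ 0)
    (hline : ∀ q, ∃ c : L, c ≠ 0 ∧ c • x ∈ S.F q) {Q : ℕ}
    (hQ : ∀ q, Q ≤ q → Fs S₀ h x q = Fs S₀ h x Q) (j : (Fs S₀ h x Q).toSubalgebra →ₐ[K] N)
    (σ : N ≃ₐ[K] N)
    (hσ : ∀ X : (V →ₗ[K] K) →ₗ[K] N,
      (∀ q, ∃ u : N, u ≠ 0 ∧ ∀ l : V →ₗ[K] K, (∀ z ∈ S₀.F q, IsPow p q (l z)) →
        ∃ c, c ^ p ^ q = u * X l) → ∀ l l' : V →ₗ[K] K, X l * σ (X l') = X l' * σ (X l))
    (c : (Fs S₀ h x Q).toSubalgebra) : σ (j c) = j c := by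
  have hcharN : CharP N p := charP_of_injective_algebraMap (algebraMap K N).injective p
  have hle := fs_le h hx hline hQ
  have hm : ∀ η, extB h η x ∈ (Fs S₀ h x Q).toSubalgebra := fun η => hle 0 (coord_mem h h1 η)
  let X : (V →ₗ[K] K) →ₗ[K] N :=
    { toFun := fun η => j ⟨extB h η x, hm η⟩
      map_add' := fun a b => by
        rw [← map_add]
        congr 1
        apply Subtype.ext
        exact extB_add h a b x
      map_smul' := fun a b => by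
        rw [RingHom.id_apply, ← map_smul]
        congr 1
        apply Subtype.ext
        show extB h (a • b) x = a • extB h b x
        rw [extB_smul, Algebra.smul_def] }
  have hX : ∀ η, X η = j ⟨extB h η x, hm η⟩ := fun η => rfl
  have hj0 : ∀ z : (Fs S₀ h x Q).toSubalgebra, (z : L) ≠ 0 → j z ≠ 0 := by
    intro z hz hz'
    have h2 : (z : L)⁻¹ ∈ (Fs S₀ h x Q).toSubalgebra := by
      have h3 : (z : L) ∈ Fs S₀ h x Q := z.2
      exact (inv_mem h3 : (z : L)⁻¹ ∈ Fs S₀ h x Q)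
    have h4 : z * ⟨_, h2⟩ = 1 := Subtype.ext (mul_inv_cancel₀ hz)
    have h5 := congrArg j h4
    rw [map_mul, map_one, hz', zero_mul] at h5
    exact zero_ne_one h5
  have hXp : ∀ q, ∃ u : N, u ≠ 0 ∧ ∀ l : V →ₗ[K] K, (∀ z ∈ S₀.F q, IsPow p q (l z)) →
      ∃ c, c ^ p ^ q = u * X l := by
    intro q
    obtain ⟨d, f, ξ, hf1, hf2, hf3⟩ := S₀.dual q
    obtain ⟨i₀, h0⟩ := exists_ne h hf3 hx
    have hX0 : X (ξ i₀) ≠ 0 := hj0 _ h0
    refine ⟨(X (ξ i₀))⁻¹, inv_ne_zero hX0, fun l hl => ?_⟩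
    obtain ⟨b, hb⟩ := exists_ratio h hline hl (hf2 i₀) h0
    have hbm : b ∈ (Fs S₀ h x Q).toSubalgebra :=
      hle q (subset_adjoin K _ ⟨l, ξ i₀, hl, hf2 i₀, h0, hb⟩)
    refine ⟨j ⟨b, hbm⟩, ?_⟩
    rw [eq_inv_mul_iff_mul_eq₀ hX0, hX, hX, ← map_pow, ← map_mul]
    congr 1
    apply Subtype.ext
    show extB h (ξ i₀) x * b ^ p ^ q = extB h l x
    rw [mul_comm, hb]
  have hfix : ∀ η, σ (X η) = X η := by
    intro η
    have h2 := hσ X hXp η₀ η
    have h3 : X η₀ = 1 := by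
      rw [hX]
      have h4 : (⟨extB h η₀ x, hm η₀⟩ : (Fs S₀ h x Q).toSubalgebra) = 1 := Subtype.ext h1
      rw [h4, map_one]
    rw [h3, one_mul, map_one, mul_one] at h2
    exact h2
  have hF0 : ∀ b (_ : b ∈ Fs S₀ h x 0), ∃ hb : b ∈ (Fs S₀ h x Q).toSubalgebra,
      σ (j ⟨b, hb⟩) = j ⟨b, hb⟩ := by
    intro b hb
    unfold Fs at hb
    refine adjoin_induction K (p := fun b _ => ∃ hb : b ∈ (Fs S₀ h x Q).toSubalgebra,
      σ (j ⟨b, hb⟩) = j ⟨b, hb⟩) ?_ ?_ ?_ ?_ ?_ hb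
    · rintro b ⟨η, η', hη, hη', hne, hbe⟩
      have hbm : b ∈ (Fs S₀ h x Q).toSubalgebra :=
        hle 0 (subset_adjoin K _ ⟨η, η', hη, hη', hne, hbe⟩)
      refine ⟨hbm, ?_⟩
      have h5 : j ⟨b, hbm⟩ * X η' = X η := by
        rw [hX, hX, ← map_mul]
        congr 1
        apply Subtype.ext
        show b * extB h η' x = extB h η x
        rw [← hbe, pow_zero, pow_one]
      have h6 : X η' ≠ 0 := hj0 _ hne
      have h7 := congrArg σ h5
      rw [map_mul, hfix, hfix, ← h5] at h7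
      exact mul_right_cancel₀ h6 h7
    · intro a
      refine ⟨_root_.algebraMap_mem _ a, ?_⟩
      have : (⟨algebraMap K L a, _root_.algebraMap_mem _ a⟩ : (Fs S₀ h x Q).toSubalgebra) =
          algebraMap K _ a := rfl
      rw [this, AlgHom.commutes, AlgEquiv.commutes]
    · rintro a b _ _ ⟨ha, ha'⟩ ⟨hb, hb'⟩
      refine ⟨add_mem ha hb, ?_⟩
      have : (⟨a + b, add_mem ha hb⟩ : (Fs S₀ h x Q).toSubalgebra) = ⟨a, ha⟩ + ⟨b, hb⟩ := rfl
      rw [this, map_add, map_add, ha', hb']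
    · rintro a _ ⟨ha, ha'⟩
      have hi : a⁻¹ ∈ (Fs S₀ h x Q).toSubalgebra := by
        have h3 : a ∈ Fs S₀ h x Q := ha
        exact (inv_mem h3 : a⁻¹ ∈ Fs S₀ h x Q)
      refine ⟨hi, ?_⟩
      by_cases h0 : a = 0
      · subst h0
        have : (⟨0⁻¹, hi⟩ : (Fs S₀ h x Q).toSubalgebra) = 0 := Subtype.ext inv_zero
        rw [this, map_zero, map_zero]
      · have h4 : (⟨a, ha⟩ : (Fs S₀ h x Q).toSubalgebra) * ⟨_, hi⟩ = 1 :=
          Subtype.ext (mul_inv_cancel₀ h0)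
        have h5 := congrArg j h4
        rw [map_mul, map_one] at h5
        have h6 := congrArg σ h5
        rw [map_mul, map_one, ha', ← h5] at h6
        exact mul_left_cancel₀ (hj0 ⟨a, ha⟩ h0) h6
    · rintro a b _ _ ⟨ha, ha'⟩ ⟨hb, hb'⟩
      refine ⟨mul_mem ha hb, ?_⟩
      have : (⟨a * b, mul_mem ha hb⟩ : (Fs S₀ h x Q).toSubalgebra) = ⟨a, ha⟩ * ⟨b, hb⟩ := rfl
      rw [this, map_mul, map_mul, ha', hb']
  obtain ⟨hb, hb'⟩ := hF0 ((c : L) ^ p ^ Q) ((fseq h hx hline).pow_mem Q _ c.2)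
  apply pow_inj (p := p) Q
  rw [← map_pow, ← map_pow]
  exact hb'

theorem line_descent_aux [Algebra.EssFiniteType K L] {D P : Set (K → ℤ)}
    (hD : ∀ v ∈ D, IsVal v ∧ HasDecomp p v) (hP : ∀ v ∈ P, IsVal v ∧ HasDecomp p v)
    (hN : ∀ C : Subalgebra K L, Module.Finite K C → Algebra.FormallyUnramified K C →
      (∀ v ∈ D, UnramAt K C v) → (∀ v ∈ P, TameAt K C v) → C = ⊥)
    (he : ∀ v ∈ D, ExtendsAt v S₀) (hr : ∀ v ∈ P, RegularAt v S₀) (hx : x ≠ 0)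
    (h1 : extB h η₀ x = 1) (hline : ∀ q, ∃ c : L, c ≠ 0 ∧ c • x ∈ S.F q) :
    ∃ e : V, ι e = x ∧ e ≠ 0 ∧ ∀ q, ∃ c : K, c ≠ 0 ∧ c • e ∈ S₀.F q := by
  obtain ⟨Q, hQ⟩ := (fseq h hx hline).exists_stable
  obtain ⟨hfin, hsep⟩ := (fseq h hx hline).finite_separable Q (hQ (Q + 1) (Nat.le_succ Q))
  have hle := fs_le h hx hline hQ
  have hfu : Algebra.FormallyUnramified K (Fs S₀ h x Q) := Algebra.FormallyUnramified.of_isSeparable _ _
  have hbot : (Fs S₀ h x Q).toSubalgebra = ⊥ := by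
    refine hN _ hfin hfu (fun v hv => ?_) (fun v hv => ?_)
    · intro N iF i1 i2 iT iD iG j wN r hwN hr0 hwr σ hσ c
      have heq : i2 = i1 := by
        apply Algebra.algebra_ext
        intro a
        exact @IsScalarTower.algebraMap_apply K K N _ _ _ _ i1 i2 iT a
      subst heq
      exact fixedLine h h1 hx hline hQ j σ (fun X hX l l' =>
        inertLine (hD v hv).1 (hD v hv).2 (he v hv) X hX hwN r hr0 hwr σ hσ l l') c
    · intro N iF i1 i2 iT iD iG j wN r hwN hr0 hwr σ hσ c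
      have heq : i2 = i1 := by
        apply Algebra.algebra_ext
        intro a
        exact @IsScalarTower.algebraMap_apply K K N _ _ _ _ i1 i2 iT a
      subst heq
      exact fixedLine h h1 hx hline hQ j σ (fun X hX l l' =>
        wildLine (hP v hv).1 (hP v hv).2 (hr v hv) X hX hwN r hwr σ hσ l l') c
  have hK : ∀ q, ∀ b ∈ Fs S₀ h x q, ∃ a : K, algebraMap K L a = b := by
    intro q b hb
    have h2 : b ∈ (Fs S₀ h x Q).toSubalgebra := hle q hb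
    rw [hbot] at h2
    exact Algebra.mem_bot.mp h2
  choose a ha using fun η => hK 0 _ (coord_mem h h1 η)
  obtain ⟨d, f, ξ, hf1, hf2, hf3⟩ := S₀.dual 0
  have hιe : ι (∑ i, a (ξ i) • f i) = x := by
    conv_rhs => rw [← expand_val h hf3 x]
    rw [map_sum]
    refine sum_congr rfl fun i _ => ?_
    rw [map_smul, ← ha, algebraMap_smul]
  obtain ⟨e, hee⟩ : ∃ e, e = ∑ i, a (ξ i) • f i := ⟨_, rfl⟩
  rw [← hee] at hιe
  refine ⟨e, hιe, ?_, fun q => ?_⟩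
  · rintro rfl
    rw [map_zero] at hιe
    exact hx hιe.symm
  · obtain ⟨n, g, ζ, hg1, hg2, hg3⟩ := S₀.dual q
    obtain ⟨i₁, h2⟩ := exists_ne h hg3 hx
    have h3 : ∀ i, extB h (ζ i) x = algebraMap K L (ζ i e) := fun i => by rw [← hιe, extB_ι]
    have h4 : ζ i₁ e ≠ 0 := by
      intro h5
      apply h2
      rw [h3, h5, map_zero]
    choose b hb using fun i => exists_ratio h hline (hg2 i) (hg2 i₁) h2
    choose β hβ using fun i => hK q (b i) (subset_adjoin K _ ⟨ζ i, ζ i₁, hg2 i, hg2 i₁, h2, hb i⟩)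
    have h5 : ∀ i, β i ^ p ^ q * ζ i₁ e = ζ i e := by
      intro i
      apply (algebraMap K L).injective
      rw [map_mul, map_pow, hβ, ← h3, ← h3, hb]
    refine ⟨(ζ i₁ e)⁻¹, inv_ne_zero h4, ?_⟩
    have h6 : ζ i₁ e • ∑ i, β i ^ p ^ q • g i = e := by
      conv_rhs => rw [← hg3 e]
      rw [smul_sum]
      exact sum_congr rfl fun i _ => by rw [smul_smul, mul_comm, h5]
    have h7 : (ζ i₁ e)⁻¹ • e = ∑ i, β i ^ p ^ q • g i := by
      rw [inv_smul_eq_iff₀ h4]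
      exact h6.symm
    rw [h7]
    exact sum_mem fun i _ => S₀.pow_smul q _ _ (hg1 i)

include h in
/-- Horizontal lines in the pull-back descend. -/
theorem line_descent [Algebra.EssFiniteType K L] {D P : Set (K → ℤ)}
    (hD : ∀ v ∈ D, IsVal v ∧ HasDecomp p v) (hP : ∀ v ∈ P, IsVal v ∧ HasDecomp p v)
    (hN : ∀ C : Subalgebra K L, Module.Finite K C → Algebra.FormallyUnramified K C →
      (∀ v ∈ D, UnramAt K C v) → (∀ v ∈ P, TameAt K C v) → C = ⊥)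
    (he : ∀ v ∈ D, ExtendsAt v S₀) (hr : ∀ v ∈ P, RegularAt v S₀) (hx : x ≠ 0)
    (hline : ∀ q, ∃ c : L, c ≠ 0 ∧ c • x ∈ S.F q) :
    ∃ (e : V) (c : L), c ≠ 0 ∧ ι e = c • x ∧ e ≠ 0 ∧ ∀ q, ∃ c : K, c ≠ 0 ∧ c • e ∈ S₀.F q := by
  obtain ⟨d, f, ξ, hf1, hf2, hf3⟩ := S₀.dual 0
  obtain ⟨i₀, h0⟩ := exists_ne h hf3 hx
  have hc : (extB h (ξ i₀) x)⁻¹ ≠ 0 := inv_ne_zero h0
  obtain ⟨e, h2, h3, h4⟩ := line_descent_aux h (η₀ := ξ i₀) (x := (extB h (ξ i₀) x)⁻¹ • x) hD hP hN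
    he hr (smul_ne_zero hc hx) (by rw [map_smul, smul_eq_mul, inv_mul_cancel₀ h0]) (fun q => by
      obtain ⟨c, hc1, hc2⟩ := hline q
      refine ⟨c * extB h (ξ i₀) x, mul_ne_zero hc1 h0, ?_⟩
      rw [smul_smul, mul_assoc, mul_inv_cancel₀ h0, mul_one]
      exact hc2)
  exact ⟨e, _, hc, h2, h3, h4⟩

end LineDesc

end FU
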