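import Pool.Agent.Lib.FU.SpecT

/-!
# PLU: the Pluecker tensor of a horizontal subspace
-/

set_option autoImplicit false

namespace FU

open Finset FD

universe u v₁ v₂

namespace PLUM

section

variable {p : ℕ} {K L : Type u} [Field K] [Field L]
  [Algebra K L] {V : Type v₁} [AddCommGroup V] [Module K V] {M : Type v₂} [AddCommGroup M]
  [Module L M] [Module K M] [IsScalarTower K L M] {S₀ : FDiv p K V} {S : FDiv p L M}
  {ι : V →ₗ[K] M} (h : IsPull S₀ S ι)

theorem extB_add (l l' : V →ₗ[K] K) (y : M) :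
    extB h (l + l') y = extB h l y + extB h l' y := by
  have h1 : extB h (l + l') = extB h l + extB h l' := by
    apply hom_ext_B h
    intro x
    rw [LinearMap.add_apply, extB_ι, extB_ι, extB_ι, LinearMap.add_apply, map_add]
  rw [h1, LinearMap.add_apply]

theorem extB_smul (a : K) (l : V →ₗ[K] K) (y : M) :
    extB h (a • l) y = a • extB h l y := by
  have h1 : extB h (a • l) = algebraMap K L a • extB h l := by
    apply hom_ext_B h
    intro x
    rw [LinearMap.smul_apply, extB_ι, extB_ι, LinearMap.smul_apply, smul_eq_mul, smul_eq_mul,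
      map_mul]
  rw [h1, LinearMap.smul_apply, smul_eq_mul, Algebra.smul_def]

/-- a row of the matrix -/
noncomputable def rowMap {r : ℕ} (w : Fin r → M) : (V →ₗ[K] K) →ₗ[K] (Fin r → L) where
  toFun l := fun j => extB h l (w j)
  map_add' l l' := by
    funext j
    exact extB_add h l l' (w j)
  map_smul' a l := by
    funext j
    exact extB_smul h a l (w j)

/-- the Pluecker tensor -/
noncomputable def om {r : ℕ} (w : Fin r → M) : Ten K V L r :=
  ((Matrix.detRowAlternating (R := L) (n := Fin r)).toMultilinearMap.restrictScalars K).compLinearMap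
    (fun _ => rowMap h w)

theorem om_apply {r : ℕ} (w : Fin r → M) (l : Fin r → (V →ₗ[K] K)) : om h w l = plu h w l := rfl

/-- choice of a basis in a spanning set -/
theorem choose_basis {N : Type*} [AddCommGroup N] [Module L N] {r : ℕ} {w : Fin r → N}
    (hw : LinearIndependent L w) {s : Set N} (hs : Submodule.span L s = Submodule.span L (Set.range w)) :
    ∃ f : Fin r → N, (∀ i, f i ∈ s) ∧ LinearIndependent L f := by
  have hfin : Module.Finite L (Submodule.span L s) := by
    rw [hs]
    exact Module.Finite.span_of_finite L (Set.finite_range w)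
  obtain ⟨f, hf, _, hf3⟩ := Submodule.exists_fun_fin_finrank_span_eq L s
  have hr : Module.finrank L (Submodule.span L s) = r := by
    rw [hs, finrank_span_eq_card hw, Fintype.card_fin]
  refine ⟨fun i => f (Fin.cast hr.symm i), fun i => hf _, ?_⟩
  exact hf3.comp (Fin.cast hr.symm) (Fin.cast_injective _)

/-- the coordinates of `M` -/
noncomputable def phi {d : ℕ} (ξ : Fin d → (V →ₗ[K] K)) : M →ₗ[L] (Fin d → L) :=
  LinearMap.pi fun k => extB h (ξ k)

theorem om_ne {r d : ℕ} {w : Fin r → M} (hw : LinearIndependent L w) {f : Fin d → V}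
    {ξ : Fin d → (V →ₗ[K] K)} (hf : ∀ m, ∑ i, ξ i m • f i = m) :
    ∃ k : Fin r → Fin d, plu h w (fun i => ξ (k i)) ≠ 0 := by
  have hspan : Submodule.span L (Set.range fun k : Fin d => (fun j => extB h (ξ k) (w j) : Fin r → L))
      = ⊤ := by
    by_contra hne
    obtain ⟨φ, hφ, hle⟩ := Submodule.exists_le_ker_of_lt_top _ (lt_top_iff_ne_top.mpr hne)
    apply hφ
    have h1 : ∀ k, extB h (ξ k) (∑ j, φ (Pi.single j 1) • w j) = 0 := by
      intro k
      have h2 : φ (fun j => extB h (ξ k) (w j)) = 0 :=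
        hle (Submodule.subset_span ⟨k, rfl⟩)
      rw [LinearMap.pi_apply_eq_sum_univ φ] at h2
      rw [map_sum, ← h2]
      refine sum_congr rfl fun j _ => ?_
      rw [map_smul, smul_eq_mul, smul_eq_mul, mul_comm]
      congr 2
      funext i
      rw [Pi.single_apply]
      by_cases hij : j = i
      · rw [if_pos hij, if_pos hij.symm]
      · rw [if_neg hij, if_neg fun h' => hij h'.symm]
    have h3 : ∑ j, φ (Pi.single j 1) • w j = 0 := by
      rw [← expand_val h hf (∑ j, φ (Pi.single j 1) • w j)]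
      exact sum_eq_zero fun i _ => by rw [h1 i, zero_smul]
    have h4 := Fintype.linearIndependent_iff.mp hw _ h3
    apply LinearMap.pi_ext'
    intro j
    apply LinearMap.ext_ring
    exact h4 j
  have hb : LinearIndependent L (Pi.basisFun L (Fin r)) := (Pi.basisFun L (Fin r)).linearIndependent
  have hb2 : Submodule.span L (Set.range (Pi.basisFun L (Fin r))) = ⊤ := (Pi.basisFun L (Fin r)).span_eq
  obtain ⟨g, hg1, hg2⟩ := choose_basis hb (hspan.trans hb2.symm)
  choose k hk using hg1
  refine ⟨k, ?_⟩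
  have h6 : (Matrix.of fun i j => extB h (ξ (k i)) (w j)).row = g := by
    funext i
    exact hk i
  have h7 : IsUnit (Matrix.of fun i j => extB h (ξ (k i)) (w j)) := by
    rw [← Matrix.linearIndependent_rows_iff_isUnit, h6]
    exact hg2
  exact ((Matrix.isUnit_iff_isUnit_det _).mp h7).ne_zero

theorem plu_mul {r : ℕ} {w w' : Fin r → M} {g : Matrix (Fin r) (Fin r) L}
    (hg : ∀ j, w' j = ∑ i, g i j • w i) (l : Fin r → (V →ₗ[K] K)) :
    plu h w' l = g.det * plu h w l := by
  unfold plu
  rw [mul_comm, ← Matrix.det_mul]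
  congr 1
  ext i j
  rw [Matrix.mul_apply, Matrix.of_apply, hg j, map_sum]
  refine sum_congr rfl fun k _ => ?_
  rw [map_smul, smul_eq_mul, Matrix.of_apply, mul_comm]

theorem det_ne {r : ℕ} {w w' : Fin r → M} (hw' : LinearIndependent L w')
    {g : Matrix (Fin r) (Fin r) L} (hg : ∀ j, w' j = ∑ i, g i j • w i) : g.det ≠ 0 := by
  intro h0
  obtain ⟨a, ha, ha2⟩ := Matrix.exists_mulVec_eq_zero_iff.mpr h0
  apply ha
  have h1 : ∑ j, a j • w' j = 0 := by
    have h2 : ∀ j, a j • w' j = ∑ i, (g i j * a j) • w i := by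
      intro j
      rw [hg j, smul_sum]
      refine sum_congr rfl fun i _ => ?_
      rw [smul_smul, mul_comm]
    simp_rw [h2]
    rw [sum_comm]
    refine sum_eq_zero fun i _ => ?_
    rw [← sum_smul]
    have h3 := congrFun ha2 i
    rw [Matrix.mulVec, dotProduct, Pi.zero_apply] at h3
    rw [h3, zero_smul]
  funext j
  exact Fintype.linearIndependent_iff.mp hw' _ h1 j

end

theorem det_isPow {p : ℕ} [hp : Fact p.Prime] {L : Type*} [Field L] [CharP L p] {r q : ℕ}
    (A : Matrix (Fin r) (Fin r) L) (hA : ∀ i j, IsPow p q (A i j)) : IsPow p q A.det := by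
  rw [Matrix.det_apply]
  refine isPow_sum' _ _ fun σ _ => ?_
  have h1 : IsPow p q (∏ i, A (σ i) i) := isPow_prod _ fun i => hA _ _
  rcases Int.units_eq_one_or (Equiv.Perm.sign σ) with h2 | h2
  · rw [h2, one_smul]
    exact h1
  · rw [h2, Units.neg_smul, one_smul]
    exact isPow_neg' h1

end PLUM

theorem specPLU : SpecPLU.{u, v₁, v₂} := by
  intro p _ K L _ _ _ _ _ V _ _ M _ _ _ _ S₀ S ι h W r w hw hspan hW
  refine ⟨PLUM.om h w, PLUM.om_apply h w, ?_, ?_⟩
  · obtain ⟨d, f, ξ, _, _, hf⟩ := S₀.dual 0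
    obtain ⟨k, hk⟩ := PLUM.om_ne h hw hf
    intro h0
    apply hk
    rw [← PLUM.om_apply, h0]
    rfl
  · intro q
    have hs : Submodule.span L {x | x ∈ W ∧ x ∈ S.F q} = Submodule.span L (Set.range w) := by
      rw [hspan]
      exact le_antisymm (Submodule.span_le.mpr fun x hx => hx.1) (hW q)
    obtain ⟨w', hw'1, hw'2⟩ := PLUM.choose_basis hw hs
    have h1 : ∀ j, ∃ g : Fin r → L, ∑ i, g i • w i = w' j := by
      intro j
      have h2 : w' j ∈ Submodule.span L (Set.range w) := by
        rw [hspan]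
        exact (hw'1 j).1
      exact (Submodule.mem_span_range_iff_exists_fun L).mp h2
    choose g hg using h1
    have hg' : ∀ j, w' j = ∑ i, (Matrix.of fun i j => g j i) i j • w i := fun j => (hg j).symm
    refine ⟨(Matrix.of fun i j => g j i).det, PLUM.det_ne hw'2 hg', ?_⟩
    intro l hl
    have h3 : ((Matrix.of fun i j => g j i).det • PLUM.om h w) l = plu h w' l := by
      rw [PLUM.plu_mul h hg' l]
      rfl
    rw [h3]
    exact PLUM.det_isPow _ fun i j => extB_isPow h (hl i) (hw'1 j).2

end FU
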