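import Pool.Agent.Lib.FU.SpecT

/-!
# Module PUL: the tensor power of a pull-back
-/

set_option autoImplicit false

namespace FU

open Finset FD

namespace PULM

section

variable {p : ℕ} [hp : Fact p.Prime] {K : Type*} [Field K] [CharP K p] {V : Type*} [AddCommGroup V]
  [Module K V] (L : Type*) [Field L] [Algebra K L] (r : ℕ)

omit hp [CharP K p] in
theorem expand {d : ℕ} {f : Fin d → V} {ξ : Fin d → (V →ₗ[K] K)}
    (hf : ∀ m, ∑ i, ξ i m • f i = m) (t : Ten K V L r) :
    t = ∑ j : Fin r → Fin d, t (fun i => ξ (j i)) • pure L (fun i => f (j i)) := by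
  ext l
  rw [ten_expand L r hf t l, MultilinearMap.sum_apply]
  refine sum_congr rfl fun j _ => ?_
  rw [MultilinearMap.smul_apply, pure_apply, smul_eq_mul, mul_comm]

omit hp [CharP K p] in
theorem tenMap_pure (x : Fin r → V) : tenMap L r (pure K x) = pure L x := by
  ext l
  rw [tenMap_apply, pure_apply, pure_apply]
  rfl

omit hp [CharP K p] in
theorem expandK {d : ℕ} {f : Fin d → V} {ξ : Fin d → (V →ₗ[K] K)}
    (hf : ∀ m, ∑ i, ξ i m • f i = m) (t : Ten K V L r) :
    t = ∑ j : Fin r → Fin d, t (fun i => ξ (j i)) • tenMap L r (pure K (fun i => f (j i))) := by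
  conv_lhs => rw [expand L r hf t]
  refine sum_congr rfl fun j _ => ?_
  rw [tenMap_pure]

omit hp [CharP K p] in
theorem isBaseChange {d : ℕ} {f : Fin d → V} {ξ : Fin d → (V →ₗ[K] K)}
    (hf : ∀ m, ∑ i, ξ i m • f i = m) : IsBaseChange L (tenMap (K := K) (V := V) L r) := by
  apply IsBaseChange.of_lift_unique
  intro Q _ _ _ _ g
  refine ⟨{ toFun := fun t => ∑ j : Fin r → Fin d, t (fun i => ξ (j i)) • g (pure K (fun i => f (j i)))
            map_add' := fun a b => ?_
            map_smul' := fun c a => ?_ }, ?_, ?_⟩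
  · rw [← sum_add_distrib]
    refine sum_congr rfl fun j _ => ?_
    rw [MultilinearMap.add_apply, add_smul]
  · rw [RingHom.id_apply, smul_sum]
    refine sum_congr rfl fun j _ => ?_
    rw [MultilinearMap.smul_apply, smul_eq_mul, mul_smul]
  · apply LinearMap.ext
    intro s
    show ∑ j : Fin r → Fin d, (tenMap L r s) (fun i => ξ (j i)) • g (pure K (fun i => f (j i))) = g s
    conv_rhs => rw [expand K r hf s, map_sum]
    refine sum_congr rfl fun j _ => ?_
    rw [tenMap_apply, algebraMap_smul, map_smul]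
  · intro g' hg'
    apply LinearMap.ext
    intro t
    show g' t = ∑ j : Fin r → Fin d, t (fun i => ξ (j i)) • g (pure K (fun i => f (j i)))
    conv_lhs => rw [expandK L r hf t, map_sum]
    refine sum_congr rfl fun j _ => ?_
    rw [map_smul, ← hg']
    rfl

end

end PULM

universe u v₁

theorem specPUL : SpecPUL.{u, v₁} := by
  intro p _ K L _ _ _ _ _ V _ _ S₀ r
  refine ⟨?_, fun q => ?_⟩
  · obtain ⟨d, f, ξ, -, -, hf3⟩ := S₀.dual 0
    exact PULM.isBaseChange L r hf3
  · apply le_antisymm
    · intro t ht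
      obtain ⟨d, f, ξ, hf1, hf2, hf3⟩ := S₀.dual q
      rw [PULM.expandK L r hf3 t]
      refine sum_mem fun j _ => ?_
      obtain ⟨c, hc⟩ := ht (fun i => ξ (j i)) (fun i => hf2 (j i))
      rw [← hc]
      exact AddSubgroup.subset_closure ⟨c, _, pure_mem K r S₀ fun i => hf1 _, rfl⟩
    · rw [AddSubgroup.closure_le]
      rintro _ ⟨c, m, hm, rfl⟩
      refine (TP L r S₀).pow_smul q c _ ?_
      intro l hl
      rw [tenMap_apply]
      exact IsPow.algMap L (hm l hl)

end FU
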