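import Pool.Agent.Lib.FU.SpecT

/-!
# REG: the tensor power of a regular singular F-divided space is regular singular
-/

set_option autoImplicit false

namespace FU

open Finset FD

universe u v₁

namespace REGM

section Latt

variable {K V : Type*} [Field K] [AddCommGroup V] [Module K V] {v : K → ℤ} {n : ℕ} {y : Fin n → V}

theorem inL_zero : InL v y (0 : V) := ⟨fun _ => 0, fun _ => ge_zero 0, by simp⟩

theorem inL_add (hv : IsVal v) {x x' : V} (h : InL v y x) (h' : InL v y x') :
    InL v y (x + x') := by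
  obtain ⟨a, ha, rfl⟩ := h
  obtain ⟨b, hb, rfl⟩ := h'
  refine ⟨fun i => a i + b i, fun i => ge_add hv (ha i) (hb i), ?_⟩
  rw [← sum_add_distrib]
  exact sum_congr rfl fun i _ => add_smul _ _ _

theorem inL_smul (hv : IsVal v) {c : K} (hc : Ge v 0 c) {x : V} (h : InL v y x) :
    InL v y (c • x) := by
  obtain ⟨a, ha, rfl⟩ := h
  refine ⟨fun i => c * a i, fun i => ?_, ?_⟩
  · have := ge_mul hv hc (ha i)
    rwa [add_zero] at this
  · rw [smul_sum]
    exact sum_congr rfl fun i _ => mul_smul _ _ _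

theorem inL_sum (hv : IsVal v) {ι : Type*} (s : Finset ι) (x : ι → V)
    (h : ∀ i ∈ s, InL v y (x i)) : InL v y (∑ i ∈ s, x i) := by
  classical
  induction s using Finset.induction_on with
  | empty => rw [sum_empty]; exact inL_zero
  | insert a s ha ih =>
    rw [sum_insert ha]
    exact inL_add hv (h a (mem_insert_self _ _)) (ih fun i hi => h i (mem_insert_of_mem hi))

theorem ge_prod (hv : IsVal v) {ι : Type*} (s : Finset ι) (a : ι → K)
    (h : ∀ i ∈ s, Ge v 0 (a i)) : Ge v 0 (∏ i ∈ s, a i) := by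
  classical
  induction s using Finset.induction_on with
  | empty => rw [prod_empty]; exact Or.inr hv.one.ge
  | insert b s hb ih =>
    rw [prod_insert hb]
    have := ge_mul hv (h b (mem_insert_self _ _)) (ih fun i hi => h i (mem_insert_of_mem hi))
    rwa [add_zero] at this

end Latt

section Pure

variable {K V : Type*} [Field K] [AddCommGroup V] [Module K V] {r : ℕ}

theorem pure_sum {κ : Fin r → Type} [∀ i, Fintype (κ i)] (a : ∀ i, κ i → K)
    (z : ∀ i, κ i → V) :
    (pure K (fun i => ∑ k, a i k • z i k) : Ten K V K r) =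
      ∑ j : (∀ i, κ i), (∏ i, a i (j i)) • pure K (fun i => z i (j i)) := by
  classical
  ext l
  rw [MultilinearMap.sum_apply]
  show (∏ i, l i (∑ k, a i k • z i k)) = _
  have h1 : ∀ i, l i (∑ k, a i k • z i k) = ∑ k, a i k * l i (z i k) := by
    intro i
    rw [map_sum]
    exact sum_congr rfl fun k _ => by rw [map_smul, smul_eq_mul]
  rw [Finset.prod_congr rfl fun i _ => h1 i, Finset.prod_univ_sum, Fintype.piFinset_univ]
  refine sum_congr rfl fun j _ => ?_
  show _ = (∏ i, a i (j i)) * ∏ i, l i (z i (j i))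
  rw [Finset.prod_mul_distrib]

theorem pure_smul (c : Fin r → K) (z : Fin r → V) :
    (pure K (fun i => c i • z i) : Ten K V K r) = (∏ i, c i) • pure K z := by
  ext l
  show (∏ i, l i (c i • z i)) = (∏ i, c i) * ∏ i, l i (z i)
  rw [← Finset.prod_mul_distrib]
  exact Finset.prod_congr rfl fun i _ => by rw [map_smul, smul_eq_mul]

/-- the generators of the lattice of the tensor power -/
noncomputable def yy {m : ℕ} (r : ℕ) (y : Fin m → V) : Fin (m ^ r) → Ten K V K r :=
  fun k => pure K (fun i => y (finFunctionFinEquiv.symm k i))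

theorem inL_pure {v : K → ℤ} (hv : IsVal v) {m : ℕ} {y : Fin m → V} {x : Fin r → V}
    (h : ∀ i, InL v y (x i)) : InL v (yy (K := K) r y) (pure K x) := by
  choose a ha hs using h
  have h1 : (pure K x : Ten K V K r) = ∑ j : Fin r → Fin m, (∏ i, a i (j i)) •
      pure K (fun i => y (j i)) := by
    rw [← pure_sum (κ := fun _ => Fin m) a (fun _ k => y k)]
    congr 1
    funext i
    exact (hs i).symm
  refine ⟨fun k => ∏ i, a i (finFunctionFinEquiv.symm k i),
    fun k => ge_prod hv _ _ fun i _ => ha i _, ?_⟩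
  rw [h1, ← Equiv.sum_comp finFunctionFinEquiv]
  refine sum_congr rfl fun j _ => ?_
  simp only [yy, Equiv.symm_apply_apply]

theorem span_yy {m : ℕ} {y : Fin m → V} (hy : Submodule.span K (Set.range y) = ⊤) :
    Submodule.span K (Set.range (yy (K := K) r y)) = ⊤ := by
  obtain ⟨θ, hθ⟩ := exists_theta hy
  rw [eq_top_iff]
  intro t _
  have h1 : t = ∑ j : Fin r → Fin m, t (fun i => θ (j i)) • pure K (fun i => y (j i)) := by
    ext l
    rw [ten_expand K r hθ t l, MultilinearMap.sum_apply]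
    refine sum_congr rfl fun j _ => ?_
    rw [MultilinearMap.smul_apply, pure_apply, smul_eq_mul, mul_comm]
  rw [h1]
  refine sum_mem fun j _ => Submodule.smul_mem _ _
    (Submodule.subset_span ⟨finFunctionFinEquiv j, ?_⟩)
  simp only [yy, Equiv.symm_apply_apply]

end Pure

theorem term {p : ℕ} [Fact p.Prime] {K : Type u} [Field K] [CharP K p] {V : Type v₁}
    [AddCommGroup V] [Module K V] {v : K → ℤ} (hv : IsVal v) (hD : HasDecomp p v)
    (T : FDiv p K V) (r : ℕ) {m : ℕ} {y : Fin m → V}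
    (hst : ∀ (q : ℕ) (Q : K →+ K) (Q' : V →+ V), IsLogAt p v q Q → IsInduced T q Q Q' →
      ∀ x : V, InL v y x → InL v y (Q' x)) {q : ℕ} {Q : K →+ K}
    {Q'' : Ten K V K r →+ Ten K V K r} (hQ : IsLogAt p v q Q)
    (hQ'' : IsInduced (TP K r T) q Q Q'') (a : K) (ha : Ge v 0 a) (x : Fin r → V)
    (hx : ∀ i, InL v y (x i)) :
    InL v (yy (K := K) r y) (Q'' (a • pure K x)) := by
  choose d g e he hg hs using fun i => decomp hD T hst q (hx i)
  have h1 : (pure K x : Ten K V K r) = ∑ j : (∀ i, Fin (d i)), (∏ i, g i (j i)) •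
      pure K (fun i => e i (j i)) := by
    rw [← pure_sum (κ := fun i => Fin (d i)) g e]
    congr 1
    funext i
    exact (hs i).symm
  rw [h1, smul_sum, map_sum]
  refine inL_sum hv _ _ fun j _ => ?_
  have hmem : (pure K (fun i => e i (j i)) : Ten K V K r) ∈ (TP K r T).F q :=
    pure_mem K r T fun i => he i (j i)
  rw [smul_smul, hQ'' _ _ hmem]
  obtain ⟨G, hG⟩ : ∃ G : K, G = ∏ i, g i (j i) := ⟨_, rfl⟩
  rw [← hG]
  by_cases h0 : a * G = 0
  · rw [h0, map_zero, zero_smul]
    exact inL_zero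
  have ha0 : a ≠ 0 := left_ne_zero_of_mul h0
  have hG0 : G ≠ 0 := right_ne_zero_of_mul h0
  have h2 : Q (a * G) • (pure K (fun i => e i (j i)) : Ten K V K r) =
      (Q (a * G) * G⁻¹) • pure K (fun i => g i (j i) • e i (j i)) := by
    rw [pure_smul (fun i => g i (j i)) (fun i => e i (j i)), ← hG, smul_smul, mul_assoc,
      inv_mul_cancel₀ hG0, mul_one]
  rw [h2]
  refine inL_smul hv ?_ (inL_pure hv fun i => hg i (j i))
  have h3 : Ge v (v (a * G)) (Q (a * G)) := hQ.2 _ _ (Or.inr le_rfl)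
  have h4 : Ge v (-v G) G⁻¹ := Or.inr (hv.inv hG0).ge
  have h5 := ge_mul hv h3 h4
  refine h5.mono ?_
  rw [hv.mul a G ha0 hG0]
  have h6 := ha.resolve_left ha0
  omega

end REGM

open REGM in
theorem specREG : SpecREG.{u, v₁} := by
  intro p _ K _ _ V _ _ v hv hD T r hT
  obtain ⟨m, y, hy, hst⟩ := hT
  refine ⟨m ^ r, yy (K := K) r y, span_yy hy, ?_⟩
  intro q Q Q'' hQ hQ'' t ht
  obtain ⟨a, ha, rfl⟩ := ht
  rw [map_sum]
  exact inL_sum hv _ _ fun k _ =>
    term hv hD T r hst hQ hQ'' (a k) (ha k) _ (fun i => inL_y hv _)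

end FU
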