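import Pool.Agent.Lib.FU.SubDesc
import Pool.Agent.Lib.FU.HomDesc
import Pool.Agent.Lib.FU.Field
import Pool.Agent.Lib.FU.REG
import Pool.Agent.Lib.FU.EXT
import Pool.Agent.Lib.FU.PUL
import Pool.Agent.Lib.FU.PLU
import Pool.Agent.Lib.FU.CRA

/-!
# Fields of definition of morphisms and subobjects
-/

set_option autoImplicit false

namespace FU

open Finset FD IntermediateField

universe u v₁ v₂

section Over

variable {p : ℕ} [hp : Fact p.Prime] {K L : Type u} [Field K] [CharP K p] [Field L] [CharP L p]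
  [Algebra K L] {V : Type v₁} [AddCommGroup V] [Module K V] {M : Type v₂} [AddCommGroup M]
  [Module L M] [Module K M] [IsScalarTower K L M] {S₀ : FDiv p K V} {S : FDiv p L M}
  {ι : V →ₗ[K] M} (h : IsPull S₀ S ι) {x : M}

include h in
theorem line_over [Algebra.EssFiniteType K L] {D P : Set (K → ℤ)}
    (hD : ∀ v ∈ D, IsVal v ∧ HasDecomp p v) (hP : ∀ v ∈ P, IsVal v ∧ HasDecomp p v)
    (he : ∀ v ∈ D, ExtendsAt v S₀) (hr : ∀ v ∈ P, RegularAt v S₀) (hx : x ≠ 0)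
    (hline : ∀ q, ∃ c : L, c ≠ 0 ∧ c • x ∈ S.F q) :
    ∃ C : IntermediateField K L, Good D P C ∧ ∀ q, ∃ c : L, c ≠ 0 ∧
      ∀ η : V →ₗ[K] K, IsLev S₀ q η → ∃ b ∈ C, b ^ p ^ q = c * extB h η x := by
  obtain ⟨d, f, ξ, hf1, hf2, hf3⟩ := S₀.dual 0
  obtain ⟨i₀, h0⟩ := exists_ne h hf3 hx
  obtain ⟨a, ha⟩ : ∃ a, a = (extB h (ξ i₀) x)⁻¹ := ⟨_, rfl⟩
  have ha0 : a ≠ 0 := by rw [ha]; exact inv_ne_zero h0
  obtain ⟨x', hx'⟩ : ∃ x', x' = a • x := ⟨_, rfl⟩
  have h1 : extB h (ξ i₀) x' = 1 := by rw [hx', map_smul, smul_eq_mul, ha, inv_mul_cancel₀ h0]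
  have hxx : x' ≠ 0 := by rw [hx']; exact smul_ne_zero ha0 hx
  have hline' : ∀ q, ∃ c : L, c ≠ 0 ∧ c • x' ∈ S.F q := by
    intro q
    obtain ⟨c, hc1, hc2⟩ := hline q
    refine ⟨c * a⁻¹, mul_ne_zero hc1 (inv_ne_zero ha0), ?_⟩
    rw [hx', smul_smul, mul_assoc, inv_mul_cancel₀ ha0, mul_one]
    exact hc2
  obtain ⟨Q, hQ⟩ := (fseq h hxx hline').exists_stable
  obtain ⟨hfin, hsep⟩ := (fseq h hxx hline').finite_separable Q (hQ (Q + 1) (Nat.le_succ Q))
  have hle := fs_le h hxx hline' hQ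
  refine ⟨Fs S₀ h x' Q, ⟨hfin, hsep, fun v hv => ?_, fun v hv => ?_⟩, fun q => ?_⟩
  · intro N iF i1 iD iG j wN r hwN hr0 hwr σ hσ c
    exact fixedLine h h1 hxx hline' hQ j σ (fun X hX l l' =>
      inertLine (hD v hv).1 (hD v hv).2 (he v hv) X hX hwN r hr0 hwr σ hσ l l') c
  · intro N iF i1 iD iG j wN r hwN hr0 hwr σ hσ c
    exact fixedLine h h1 hxx hline' hQ j σ (fun X hX l l' =>
      wildLine (hP v hv).1 (hP v hv).2 (hr v hv) X hX hwN r hwr σ hσ l l') c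
  · obtain ⟨n, g, ζ, hg1, hg2, hg3⟩ := S₀.dual q
    obtain ⟨i₁, h2⟩ := exists_ne h hg3 hxx
    refine ⟨(extB h (ζ i₁) x')⁻¹ * a, mul_ne_zero (inv_ne_zero h2) ha0, fun η hη => ?_⟩
    obtain ⟨b, hb⟩ := exists_ratio h hline' hη (hg2 i₁) h2
    refine ⟨b, hle q (subset_adjoin K _ ⟨η, ζ i₁, hη, hg2 i₁, h2, hb⟩), ?_⟩
    have h3 : extB h η x' = a * extB h η x := by rw [hx', map_smul, smul_eq_mul]
    rw [mul_assoc, ← h3, ← hb, mul_comm, mul_inv_cancel_right₀ h2]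

include h in
open CRAM in
theorem sub_over [Algebra.EssFiniteType K L] {D P : Set (K → ℤ)}
    (hD : ∀ v ∈ D, IsVal v ∧ HasDecomp p v) (hP : ∀ v ∈ P, IsVal v ∧ HasDecomp p v)
    (he : ∀ v ∈ D, ExtendsAt v S₀) (hr : ∀ v ∈ P, RegularAt v S₀) (W : Submodule L M)
    (hW : ∀ q, W ≤ Submodule.span L {x | x ∈ W ∧ x ∈ S.F q}) :
    ∃ C : IntermediateField K L, Good D P C ∧
      ∀ q, W ≤ Submodule.span L {x | x ∈ W ∧ x ∈ levC S₀ ι C q} := by
  have hfin : Module.Finite L M := by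
    obtain ⟨d, e, ξ, _, _, hsum⟩ := S.dual 0
    classical
    refine ⟨⟨univ.image e, ?_⟩⟩
    rw [eq_top_iff]
    rintro m -
    rw [← hsum m]
    exact sum_mem fun i _ => Submodule.smul_mem _ _ (Submodule.subset_span (by
      rw [coe_image]
      exact ⟨i, mem_univ _, rfl⟩))
  obtain ⟨r, w, hw1, hw2⟩ : ∃ (r : ℕ) (w : Fin r → M), LinearIndependent L w ∧
      Submodule.span L (Set.range w) = W := by
    have hfinW : Module.Finite L W := inferInstance
    let b := Module.finBasis L W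
    refine ⟨_, fun i => (b i : M), ?_, ?_⟩
    · exact b.linearIndependent.map' W.subtype (Submodule.ker_subtype W)
    · have h1 : Set.range (fun i => (b i : M)) = W.subtype '' Set.range b := by
        rw [← Set.range_comp]
        rfl
      rw [h1, Submodule.span_image, b.span_eq, Submodule.map_top, Submodule.range_subtype]
  obtain ⟨ω, h1, h2, h3⟩ := specPLU p K L V M S₀ S ι h W r w hw1 hw2 hW
  have hT := specPUL p K L V S₀ r
  obtain ⟨C, hC, h4⟩ := line_over hT hD hP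
    (fun v hv => specEXT p K V v (hD v hv).1 (hD v hv).2 S₀ r (he v hv))
    (fun v hv => specREG p K V v (hP v hv).1 (hP v hv).2 S₀ r (hr v hv)) h2 h3
  refine ⟨C, hC, fun q => ?_⟩
  -- the values of `ω` on forms of level `q`
  have h5 : ∃ c : L, c ≠ 0 ∧ ∀ l : Fin r → (V →ₗ[K] K), (∀ i, IsLev S₀ q (l i)) →
      ∃ b ∈ C, b ^ p ^ q = c * plu h w l := by
    obtain ⟨c, hc, h6⟩ := h4 q
    refine ⟨c, hc, fun l hl => ?_⟩
    let η : Ten K V K r →ₗ[K] K :=
      { toFun := fun t => t l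
        map_add' := fun a b => rfl
        map_smul' := fun a b => rfl }
    let η' : Ten K V L r →ₗ[L] L :=
      { toFun := fun t => t l
        map_add' := fun a b => rfl
        map_smul' := fun a b => rfl }
    obtain ⟨b, hb, hb'⟩ := h6 η (fun t ht => ht l hl)
    have h7 : extB hT η = η' := by
      apply hom_ext_B hT
      intro t
      rw [extB_ι]
      rfl
    refine ⟨b, hb, ?_⟩
    rw [hb', h7]
    show c * ω l = _
    rw [h1]
  obtain ⟨c, hc, h6⟩ := h5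
  obtain ⟨d, f, ξ, hf1, hf2, hf3⟩ := S₀.dual q
  obtain ⟨k, hk⟩ : ∃ k : Fin r → Fin d, plu h w (fun i => ξ (k i)) ≠ 0 := by
    by_contra hcon
    push Not at hcon
    apply h2
    ext l
    rw [ten_expand L r hf3 ω l]
    show _ = (0 : L)
    exact sum_eq_zero fun j _ => by rw [h1, hcon j, mul_zero]
  obtain ⟨s, hsC, hs⟩ := h6 (fun i => ξ (k i)) (fun i => hf2 (k i))
  have huu : ∀ i, uu h w (fun i => ξ (k i)) i ∈ levC S₀ ι C q := by
    intro i
    rw [← expand_val h hf3 (uu h w (fun i => ξ (k i)) i)]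
    refine sum_mem fun a _ => ?_
    obtain ⟨t, htC, ht⟩ := h6 (Function.update (fun i => ξ (k i)) i (ξ a)) (fun i' => by
      rw [Function.update_apply]
      by_cases hi : i' = i
      · rw [if_pos hi]; exact hf2 a
      · rw [if_neg hi]; exact hf2 (k i'))
    refine AddSubgroup.subset_closure ⟨t / s, div_mem htC hsC, f a, hf1 a, ?_⟩
    rw [cramer, div_pow, hs, ht, mul_div_mul_left _ _ hc, div_eq_inv_mul]
  intro y hy
  rw [← hw2] at hy
  rw [← y_eq h w _ hk hy]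
  refine sum_mem fun i _ => Submodule.smul_mem _ _ (Submodule.subset_span ⟨?_, huu i⟩)
  have h7 := uu_mem h w (fun i => ξ (k i)) i
  rw [hw2] at h7
  exact h7

end Over

section HomOver

variable {p : ℕ} [hp : Fact p.Prime] {K L : Type u} [Field K] [CharP K p] [Field L] [CharP L p]
  [Algebra K L] {E E' : Type v₁} [AddCommGroup E] [Module K E] [AddCommGroup E'] [Module K E']
  {M M' : Type v₂} [AddCommGroup M] [Module L M] [Module K M] [IsScalarTower K L M]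
  [AddCommGroup M'] [Module L M'] [Module K M'] [IsScalarTower K L M']
  {S₀ : FDiv p K E} {S₀' : FDiv p K E'} {S : FDiv p L M} {S' : FDiv p L M'}
  {ι : E →ₗ[K] M} {ι' : E' →ₗ[K] M'} (h : IsPull S₀ S ι) (h' : IsPull S₀' S' ι')

include h h' in
theorem hom_over [Algebra.EssFiniteType K L] {D P : Set (K → ℤ)}
    (hD : ∀ v ∈ D, IsVal v ∧ HasDecomp p v) (hP : ∀ v ∈ P, IsVal v ∧ HasDecomp p v)
    (he : ∀ v ∈ D, ExtendsAt v S₀ ∧ ExtendsAt v S₀')
    (hr : ∀ v ∈ P, RegularAt v S₀ ∧ RegularAt v S₀') (w : M →ₗ[L] M') (hw : IsHor S S' w) :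
    ∃ C : IntermediateField K L, Good D P C ∧
      ∀ q, ∀ e ∈ S₀.F q, w (ι e) ∈ levC S₀' ι' C q := by
  obtain ⟨h1, h2, h3, h5⟩ := CC_good h h' hD hP he hr w hw
  obtain ⟨C, hC, hgood⟩ := exists_good h1 h2 h3 h5
  refine ⟨C, hgood, fun q e heq => ?_⟩
  obtain ⟨d, f, ξ, hf1, hf2, hf3⟩ := S₀'.dual q
  rw [← expand_val h' hf3 (w _)]
  refine sum_mem fun k _ => ?_
  obtain ⟨c, hc⟩ := coef_isPow h h' w hw (hf2 k) heq
  have hcC : c ∈ CC S₀ h' ι w :=
    mem_CC h' w (q := q) (Submodule.subset_span ⟨_, heq, ξ k, hf2 k, hc⟩)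
  rw [← hC] at hcC
  refine AddSubgroup.subset_closure ⟨c, hcC, f k, hf1 k, ?_⟩
  rw [hc]
  rfl

end HomOver

end FU
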