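import Pool.Agent.Lib.FU.Ten

/-!
# Specifications: tensor powers and descent of horizontal subspaces
-/

set_option autoImplicit false

namespace FU

open Finset FD

universe u v₁ v₂

/-- REG. The tensor power of a regular singular F-divided space is regular singular.

PROOF. Let `y` be as in `RegularAt v T` (so `hst`: all induced `Q'` preserve `InL v y`). Take the
`m ^ r` tensors `y' k = pure K (fun i => y (finFunctionFinEquiv.symm k i))`.
(1) They span: by `exists_theta` (Wild/Tame) there are forms `θ` with `∑ i, θ i x • y i = x`, and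
`ten_expand` with `f = y`, `ξ = θ` writes `t = ∑_j t(θ_j) • pure (y_j)`.
(2) Multilinearity: if `InL v y (x i)` for all `i` then `InL v y' (pure K x)` (expand with
`MultilinearMap.map_sum`-like computations: `∏_i l_i(∑_k a_ik y_k) = ∑_j ∏_i a_{i,j_i} l_i(y_{j_i})`,
`Finset.prod_univ_sum`, or: `pure K x = ∑_j (∏ i, a i (j i)) • pure K (y_j)`); a product of elements
with `Ge v 0` has `Ge v 0` (`ge_mul`).
(3) Let `Q` be log of level `q`, `Q''` induced by `Q` on `TP K r T`. Every element of the lattice is a sum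
of `a • pure K x` with `Ge v 0 a`, `InL v y (x i)` (even `x i = y (j i)`). By `decomp` write
`x i = ∑_α g_iα • e_iα`, `e_iα ∈ T.F q`, `InL v y (g_iα • e_iα)`. Then
`a • pure K x = ∑_α (a * ∏ i, g i (α i)) • pure K (fun i => e i (α i))` (the index sets `Fin (d i)` depend
on `i`: use `Finset.prod_univ_sum` / `Fintype.piFinset`, or `MultilinearMap.map_sum`), and
`pure K (e_α) ∈ (TP K r T).F q` (`pure_mem`), so `Q'' (..) = ∑_α Q (a * G) • pure K (e_α)`, `G = ∏ g`.
If `a * G = 0` the term is `0`. Otherwise `Ge v (v (a * G)) (Q (a * G))`, so `u = Q (a * G) / G` has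
`Ge v 0 u` (`v (a * G) = v a + v G`), and the term is `u • pure K (fun i => g i (α i) • e i (α i))`, which is
in the lattice by (2). -/
def SpecREG : Prop := ∀ (p : ℕ) [Fact p.Prime] (K : Type u) [Field K] [CharP K p] (V : Type v₁)
  [AddCommGroup V] [Module K V] (v : K → ℤ), IsVal v → HasDecomp p v → ∀ (T : FDiv p K V) (r : ℕ),
  RegularAt v T → RegularAt v (TP K r T)

/-- EXT. The same for the extension to the valuation ring.

PROOF. As in REG with `decompE` (in `Inert.lean`) instead of `decomp`: `x i = ∑_α g_iα • e_iα` with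
`Ge v 0 (g_iα)`, `e_iα ∈ T.F q`, `InL v y (e_iα)`; then `Q'' (a • pure K x) = ∑_α Q (a * G) • pure K (e_α)`
with `Ge v 0 (a * G)`, so `Ge v 0 (Q (a * G))`. -/
def SpecEXT : Prop := ∀ (p : ℕ) [Fact p.Prime] (K : Type u) [Field K] [CharP K p] (V : Type v₁)
  [AddCommGroup V] [Module K V] (v : K → ℤ), IsVal v → HasDecomp p v → ∀ (T : FDiv p K V) (r : ℕ),
  ExtendsAt v T → ExtendsAt v (TP K r T)

/-- PUL. `TP L r S₀` is the pull-back of `TP K r S₀`.

PROOF. `IsPull` = `IsBaseChange` and `F q` = closure.
(1) `IsBaseChange L (tenMap L r)`: let `f, ξ` be the level `0` frame of `S₀` (`S₀.dual 0`), `e_j = pure K (f_j)`,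
`j : Fin r → Fin d`. The `L`-linear map `L ⊗[K] Ten K V K r → Ten K V L r` is bijective: it has the inverse
`t ↦ ∑_j t(ξ_j) ⊗ₜ e_j` (`ten_expand` for both composites; `tenMap L r (pure K x) = pure L x`). For instance with
`IsBaseChange.of_equiv`, or `IsBaseChange.of_lift_unique`, or bijectivity of the lift.
(2) `⊇`: `tenMap` of a tensor of level `q` is of level `q` (`IsPow.algMap`), `(TP L r S₀).pow_smul`.
(3) `⊆`: with a level `q` frame `f, ξ` of `S₀`: `t = ∑_j t(ξ_j) • pure L (f_j)`, `t(ξ_j) = c_j ^ p ^ q`,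
`pure L (f_j) = tenMap L r (pure K (f_j))`, `pure K (f_j)` of level `q` (`pure_mem`). -/
def SpecPUL : Prop := ∀ (p : ℕ) [Fact p.Prime] (K L : Type u) [Field K] [CharP K p] [Field L] [CharP L p]
  [Algebra K L] (V : Type v₁) [AddCommGroup V] [Module K V] (S₀ : FDiv p K V) (r : ℕ),
  IsPull (TP K r S₀) (TP L r S₀) (tenMap L r)

/-- The Pluecker tensor of `w_1, ..., w_r ∈ M = L ⊗ V`: `(l_i) ↦ det (l_i (w_j))`. -/
noncomputable def plu {p : ℕ} {K L : Type u} [Field K] [Field L] [Algebra K L] {V : Type v₁}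
    [AddCommGroup V] [Module K V] {M : Type v₂} [AddCommGroup M] [Module L M] [Module K M]
    [IsScalarTower K L M] {S₀ : FDiv p K V} {S : FDiv p L M} {ι : V →ₗ[K] M} (h : IsPull S₀ S ι)
    {r : ℕ} (w : Fin r → M) (l : Fin r → (V →ₗ[K] K)) : L :=
  (Matrix.of fun i j => extB h (l i) (w j)).det

/-- PLU. The Pluecker tensor of a basis of a horizontal subspace `W` is multilinear, not `0`, and up to
scalars it has level `q` for all `q`.

PROOF. Multilinear: `extB h (a • l + b • l')` is `a` times .. plus ..: by `hom_ext_B` (as in `extB_form`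
in `Sub.lean`) `extB h (l + l') = extB h l + extB h l'`, `extB h (a • l) = algebraMap K L a • extB h l`;
then `Matrix.det` is multilinear in the rows (`Matrix.detRowAlternating`, or `Matrix.det_updateRow_add`,
`Matrix.det_updateRow_smul`).
Not `0`: `w` is linearly independent over `L`; let `f, ξ` be a level `0` frame; the `L`-linear map
`M → (Fin d → L)`, `y ↦ (extB h (ξ k) y)_k` is injective (`expand_val`), so the `d × r` matrix
`(extB h (ξ k) (w j))` has independent columns and an `r × r` minor is not `0`.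
Level `q`: by `hW q` there is a basis `w'` of `W` in `S.F q` (`exists_linearIndependent`-type lemma:
a spanning set contains a basis; it has `r` elements), `w' = w * g` with an invertible matrix `g` over `L`,
so `plu w' = (det g) plu w`; for forms `l_i` of level `q` all `extB h (l i) (w' j)` are `p^q`-th powers
(`extB_isPow` in `Sub.lean`), so the determinant is (`Matrix.det_apply`, `isPow_sum'`, `isPow_prod`; signs:
`isPow_neg'`). -/
def SpecPLU : Prop := ∀ (p : ℕ) [Fact p.Prime] (K L : Type u) [Field K] [CharP K p] [Field L] [CharP L p]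
  [Algebra K L] (V : Type v₁) [AddCommGroup V] [Module K V] (M : Type v₂) [AddCommGroup M] [Module L M]
  [Module K M] [IsScalarTower K L M] (S₀ : FDiv p K V) (S : FDiv p L M) (ι : V →ₗ[K] M)
  (h : IsPull S₀ S ι) (W : Submodule L M) (r : ℕ) (w : Fin r → M), LinearIndependent L w →
  Submodule.span L (Set.range w) = W → (∀ q, W ≤ Submodule.span L {x | x ∈ W ∧ x ∈ S.F q}) →
  ∃ ω : Ten K V L r, (∀ l, ω l = plu h w l) ∧ ω ≠ 0 ∧ ∀ q, ∃ c : L, c ≠ 0 ∧ c • ω ∈ (TP L r S₀).F q

/-- CRA. If the Pluecker tensor is proportional to a tensor `e` over `K` with the property of horizontal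
lines, `W` is defined over `K` (Cramer's rule).

PROOF. Let `q` be given, `f, ξ` a level `q` frame of `S₀` (`S₀.dual q`). As in PLU some minor `plu h w l ≠ 0`
with `l i = ξ (k i)` (`ω` is not `0`, `ten_expand`). Let `A = (extB h (l i) (w j))`, invertible, and `u i' = ∑_j
(A⁻¹) j i' • w j ∈ W`, so `extB h (l i) (u i') = δ` and the `u i'` span `W` (`A` is invertible). By Cramer,
`extB h (ξ k) (u i') = plu h w (Function.update l i' (ξ k)) / plu h w l` for all `k` (the determinant of
`(extB h (·) (w j))` with row `i'` replaced: `Matrix.det_updateRow`, `Matrix.cramer`; or: both sides of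
`plu h w (update l i' η) = extB h η (u i') * plu h w l` are determinants: `A' = B * A` where `B` is the
identity with the row `i'` replaced by `(extB h η (u j))_j`, as `extB h η (w j) = ∑_i extB h η (u i) A i j`).
By `he0` this is `algebraMap K L (e (update l i' (ξ k)) / e l)`, `e l ≠ 0`. By `heq` there is `c ≠ 0` with
`c • e` of level `q`, so `e (update l i' (ξ k)) / e l` is a `p^q`-th power in `K`, as `l`, `update l i' (ξ k)` consist
of forms of level `q`. So `z i' := ∑_k (e (update l i' (ξ k)) / e l) • f k ∈ S₀.F q` and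
`ι (z i') = ∑_k extB h (ξ k) (u i') • ι (f k) = u i'` (`expand_val`). Take
`W₀ = (W.restrictScalars K).comap ι`; it contains all `z i'` for all `q`, `W = span_L (ι '' W₀)`; and
`W₀` is the `K`-span of the `z i'` for each `q`: if `ι z ∈ W`, then `ι z = ∑_i extB h (l i) (ι z) • u i`
(both in `W`, same values of the `extB h (l i)`, which are coordinates on `W`)
`= ∑_i algebraMap (l i z) • ι (z i) = ι (∑_i l i z • z i)` (`extB_ι`), and `ι` is injective (`ι_injective`). -/
def SpecCRA : Prop := ∀ (p : ℕ) [Fact p.Prime] (K L : Type u) [Field K] [CharP K p] [Field L] [CharP L p]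
  [Algebra K L] (V : Type v₁) [AddCommGroup V] [Module K V] (M : Type v₂) [AddCommGroup M] [Module L M]
  [Module K M] [IsScalarTower K L M] (S₀ : FDiv p K V) (S : FDiv p L M) (ι : V →ₗ[K] M)
  (h : IsPull S₀ S ι) (W : Submodule L M) (r : ℕ) (w : Fin r → M), LinearIndependent L w →
  Submodule.span L (Set.range w) = W → ∀ (e : Ten K V K r) (c : L), c ≠ 0 → e ≠ 0 →
  -- `he0`
  (∀ l, algebraMap K L (e l) = c * plu h w l) →
  -- `heq`
  (∀ q, ∃ c : K, c ≠ 0 ∧ c • e ∈ (TP K r S₀).F q) →
  ∃ W₀ : Submodule K V, (∀ q, W₀ ≤ Submodule.span K {x | x ∈ W₀ ∧ x ∈ S₀.F q}) ∧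
    W = Submodule.span L (ι '' (W₀ : Set V))

end FU
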