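import Pool.Agent.Lib.FU.FSeq
import Pool.Agent.Lib.FU.Line
import Pool.Agent.Lib.FU.Main

/-!
# The fields of definition of a horizontal line
-/

set_option autoImplicit false

namespace FU

open Finset FD IntermediateField

universe u v₁ v₂

section Sub

variable {p : ℕ} [hp : Fact p.Prime] {K L : Type u} [Field K] [CharP K p] [Field L] [CharP L p]
  [Algebra K L] {V : Type v₁} [AddCommGroup V] [Module K V] {M : Type v₂} [AddCommGroup M]
  [Module L M] [Module K M] [IsScalarTower K L M] {S₀ : FDiv p K V} {S : FDiv p L M}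
  {ι : V →ₗ[K] M} (h : IsPull S₀ S ι) (x : M)

omit hp [CharP K p] [CharP L p] in
theorem extB_form {d : ℕ} {f : Fin d → V} {ξ : Fin d → (V →ₗ[K] K)}
    (hf : ∀ m, ∑ i, ξ i m • f i = m) (η : V →ₗ[K] K) (y : M) :
    extB h η y = ∑ i, algebraMap K L (η (f i)) * extB h (ξ i) y := by
  have h1 : extB h η = ∑ i, (algebraMap K L (η (f i))) • extB h (ξ i) := by
    apply hom_ext_B h
    intro x
    rw [extB_ι, LinearMap.sum_apply]
    conv_lhs => rw [← hf x, map_sum, map_sum]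
    refine sum_congr rfl fun i _ => ?_
    rw [LinearMap.smul_apply, extB_ι, map_smul, smul_eq_mul, smul_eq_mul, map_mul, mul_comm]
  rw [h1, LinearMap.sum_apply]
  rfl

theorem extB_isPow {q : ℕ} {η : V →ₗ[K] K} (hη : IsLev S₀ q η) {y : M} (hy : y ∈ S.F q) :
    IsPow p q (extB h η y) := by
  rw [h.2 q] at hy
  refine AddSubgroup.closure_induction (p := fun x _ => IsPow p q (extB h η x)) ?_ ?_ ?_ ?_ hy
  · rintro _ ⟨c, m, hm, rfl⟩
    rw [map_smul, smul_eq_mul, extB_ι]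
    obtain ⟨d, hd⟩ := hη m hm
    exact isPow_mul' ⟨c, rfl⟩ ⟨algebraMap K L d, by rw [← map_pow, hd]⟩
  · rw [map_zero]
    exact isPow_zero' q
  · intro a b _ _ ha hb
    rw [map_add]
    exact isPow_add' ha hb
  · intro a _ ha
    rw [map_neg]
    exact isPow_neg' ha

/-- the `p^q`-th roots of the ratios of the coordinates of level `q` -/
def Rs (S₀ : FDiv p K V) (h : IsPull S₀ S ι) (x : M) (q : ℕ) : Set L :=
  {b | ∃ η η' : V →ₗ[K] K, IsLev S₀ q η ∧ IsLev S₀ q η' ∧ extB h η' x ≠ 0 ∧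
    b ^ p ^ q * extB h η' x = extB h η x}

/-- the field generated by them -/
def Fs (S₀ : FDiv p K V) (h : IsPull S₀ S ι) (x : M) (q : ℕ) : IntermediateField K L :=
  adjoin K (Rs S₀ h x q)

variable {x}

theorem exists_ratio (hline : ∀ q, ∃ c : L, c ≠ 0 ∧ c • x ∈ S.F q) {q : ℕ} {η η' : V →ₗ[K] K}
    (hη : IsLev S₀ q η) (hη' : IsLev S₀ q η') (hne : extB h η' x ≠ 0) :
    ∃ b : L, b ^ p ^ q * extB h η' x = extB h η x := by
  obtain ⟨c, hc, hcx⟩ := hline q
  obtain ⟨a, ha⟩ := extB_isPow h hη hcx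
  obtain ⟨a', ha'⟩ := extB_isPow h hη' hcx
  rw [map_smul, smul_eq_mul] at ha ha'
  have h1 : a' ^ p ^ q ≠ 0 := by
    rw [ha']
    exact mul_ne_zero hc hne
  refine ⟨a / a', ?_⟩
  rw [div_pow, ha, ha']
  field_simp

omit hp [CharP K p] [CharP L p] in
theorem exists_ne {d : ℕ} {f : Fin d → V} {ξ : Fin d → (V →ₗ[K] K)}
    (hf : ∀ m, ∑ i, ξ i m • f i = m) (hx : x ≠ 0) : ∃ i, extB h (ξ i) x ≠ 0 := by
  by_contra hcon
  push Not at hcon
  apply hx
  rw [← expand_val h hf x]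
  exact sum_eq_zero fun i _ => by rw [hcon i, zero_smul]

theorem expandR {q r : ℕ} (hqr : q ≤ r) {d : ℕ} {f : Fin d → V} {ξ : Fin d → (V →ₗ[K] K)}
    (hfr : ∀ i, f i ∈ S₀.F r) (hf : ∀ m, ∑ i, ξ i m • f i = m) {i₀ : Fin d}
    (h0 : extB h (ξ i₀) x ≠ 0) {D : Fin d → L}
    (hD : ∀ i, D i ^ p ^ r * extB h (ξ i₀) x = extB h (ξ i) x) {b : L} (hb : b ∈ Rs S₀ h x q) :
    ∃ a a' : Fin d → K, (∑ i, algebraMap K L (a' i) * D i ^ p ^ (r - q)) ≠ 0 ∧
      b = (∑ i, algebraMap K L (a i) * D i ^ p ^ (r - q)) /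
        ∑ i, algebraMap K L (a' i) * D i ^ p ^ (r - q) := by
  obtain ⟨η, η', hη, hη', hne, hbe⟩ := hb
  choose a ha using fun i => hη (f i) (S₀.anti_le hqr (hfr i))
  choose a' ha' using fun i => hη' (f i) (S₀.anti_le hqr (hfr i))
  have key : ∀ (η : V →ₗ[K] K) (a : Fin d → K), (∀ i, a i ^ p ^ q = η (f i)) →
      extB h η x = (∑ i, algebraMap K L (a i) * D i ^ p ^ (r - q)) ^ p ^ q * extB h (ξ i₀) x := by
    intro η a ha
    rw [extB_form h hf η x, sum_pow_char_pow', sum_mul]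
    refine sum_congr rfl fun i _ => ?_
    rw [mul_pow, ← pow_mul, ← pow_add, Nat.sub_add_cancel hqr, ← map_pow, ha, mul_assoc, hD]
  have h1 := key η a ha
  have h2 := key η' a' ha'
  have h3 : (∑ i, algebraMap K L (a' i) * D i ^ p ^ (r - q)) ≠ 0 := by
    intro hz
    apply hne
    rw [h2, hz, zero_pow (pow_ne_zero _ hp.out.ne_zero), zero_mul]
  refine ⟨a, a', h3, ?_⟩
  rw [eq_div_iff h3]
  apply pow_inj (p := p) q
  rw [mul_pow]
  apply mul_right_cancel₀ h0
  rw [mul_assoc, ← h2, hbe, h1]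

theorem fseq (hx : x ≠ 0) (hline : ∀ q, ∃ c : L, c ≠ 0 ∧ c • x ∈ S.F q) :
    FSeq p (Fs S₀ h x) := by
  refine ⟨fun q => ?_, fun q => ?_, fun q => ?_⟩
  · obtain ⟨d, f, ξ, hf1, hf2, hf3⟩ := S₀.dual q
    obtain ⟨i₀, h0⟩ := exists_ne h hf3 hx
    choose D hD using fun i => exists_ratio h hline (hf2 i) (hf2 i₀) h0
    classical
    refine ⟨univ.image D, ?_⟩
    apply le_antisymm
    · refine adjoin.mono K _ _ ?_
      intro b hb
      rw [coe_image] at hb
      obtain ⟨i, _, rfl⟩ := hb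
      exact ⟨ξ i, ξ i₀, hf2 i, hf2 i₀, h0, hD i⟩
    · unfold Fs
      rw [adjoin_le_iff]
      intro b hb
      obtain ⟨a, a', hne, rfl⟩ := expandR h le_rfl hf1 hf3 h0 hD hb
      have hmem : ∀ a : Fin d → K, (∑ i, algebraMap K L (a i) * D i ^ p ^ (q - q)) ∈
          adjoin K ((univ.image D : Finset L) : Set L) := by
        intro a
        refine sum_mem fun i _ => mul_mem (_root_.algebraMap_mem _ _) (pow_mem ?_ _)
        refine subset_adjoin K _ ?_
        rw [coe_image]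
        exact ⟨i, mem_univ _, rfl⟩
      exact div_mem (hmem a) (hmem a')
  · obtain ⟨d, f, ξ, hf1, hf2, hf3⟩ := S₀.dual (q + 1)
    obtain ⟨i₀, h0⟩ := exists_ne h hf3 hx
    choose D hD using fun i => exists_ratio h hline (hf2 i) (hf2 i₀) h0
    conv_lhs => unfold Fs
    rw [adjoin_le_iff]
    intro b hb
    obtain ⟨a, a', hne, rfl⟩ := expandR h (Nat.le_succ q) hf1 hf3 h0 hD hb
    have hmem : ∀ a : Fin d → K, (∑ i, algebraMap K L (a i) * D i ^ p ^ (q.succ - q)) ∈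
        adjoin K {x_1 | ∃ c ∈ Fs S₀ h x (q + 1), x_1 = c ^ p} := by
      intro a
      refine sum_mem fun i _ => mul_mem (_root_.algebraMap_mem _ _) ?_
      rw [show q.succ - q = 1 by omega, pow_one]
      refine subset_adjoin K _ ⟨D i, subset_adjoin K _ ?_, rfl⟩
      exact ⟨ξ i, ξ i₀, hf2 i, hf2 i₀, h0, hD i⟩
    exact div_mem (hmem a) (hmem a')
  · intro c hc
    unfold Fs at hc ⊢
    refine adjoin_induction K (p := fun c _ => c ^ p ∈ adjoin K (Rs S₀ h x q)) ?_ ?_ ?_ ?_ ?_ hc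
    · rintro b ⟨η, η', hη, hη', hne, hbe⟩
      refine subset_adjoin K _ ⟨η, η', hη.succ, hη'.succ, hne, ?_⟩
      rw [← pow_mul, ← pow_succ', hbe]
    · intro a
      rw [← map_pow]
      exact _root_.algebraMap_mem _ _
    · intro a b _ _ ha hb
      rw [add_pow_char]
      exact add_mem ha hb
    · intro a _ ha
      rw [inv_pow]
      exact inv_mem ha
    · intro a b _ _ ha hb
      rw [mul_pow]
      exact mul_mem ha hb

end Sub

end FU
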