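import Pool.Agent.Lib.FU.SpecT
import Pool.Agent.Lib.FU.LineDesc

/-!
# Horizontal subspaces descend
-/

set_option autoImplicit false

namespace FU

open Finset FD IntermediateField

universe u v₁ v₂

section SubDesc

variable {p : ℕ} [hp : Fact p.Prime] {K L : Type u} [Field K] [CharP K p] [Field L] [CharP L p]
  [Algebra K L] {V : Type v₁} [AddCommGroup V] [Module K V] {M : Type v₂} [AddCommGroup M]
  [Module L M] [Module K M] [IsScalarTower K L M] {S₀ : FDiv p K V} {S : FDiv p L M}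
  {ι : V →ₗ[K] M} (h : IsPull S₀ S ι)

include h in
omit hp [CharP K p] [CharP L p] in
theorem mem_of_span {W₀ : Submodule K V} {e : V}
    (he : ι e ∈ Submodule.span L (ι '' (W₀ : Set V))) : e ∈ W₀ := by
  by_contra hne
  obtain ⟨η, hη1, hη2⟩ := Submodule.exists_le_ker_of_notMem hne
  have h1 : ∀ y ∈ Submodule.span L (ι '' (W₀ : Set V)), extB h η y = 0 := by
    intro y hy
    refine Submodule.span_induction (p := fun y _ => extB h η y = 0) ?_ ?_ ?_ ?_ hy
    · rintro _ ⟨z, hz, rfl⟩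
      rw [extB_ι, hη2 hz, map_zero]
    · rw [map_zero]
    · intro a b _ _ ha hb
      rw [map_add, ha, hb, add_zero]
    · intro a b _ hb
      rw [map_smul, hb, smul_zero]
  have h2 := h1 _ he
  rw [extB_ι, map_eq_zero] at h2
  exact hη1 h2

include h in
theorem sub_descent (hREG : SpecREG.{u, v₁}) (hEXT : SpecEXT.{u, v₁}) (hPUL : SpecPUL.{u, v₁})
    (hPLU : SpecPLU.{u, v₁, v₂}) (hCRA : SpecCRA.{u, v₁, v₂})
    [Algebra.EssFiniteType K L] {D P : Set (K → ℤ)}
    (hD : ∀ v ∈ D, IsVal v ∧ HasDecomp p v) (hP : ∀ v ∈ P, IsVal v ∧ HasDecomp p v)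
    (hN : ∀ C : Subalgebra K L, Module.Finite K C → Algebra.FormallyUnramified K C →
      (∀ v ∈ D, UnramAt K C v) → (∀ v ∈ P, TameAt K C v) → C = ⊥)
    (he : ∀ v ∈ D, ExtendsAt v S₀) (hr : ∀ v ∈ P, RegularAt v S₀) (W : Submodule L M)
    (hW : ∀ q, W ≤ Submodule.span L {x | x ∈ W ∧ x ∈ S.F q}) :
    ∃! W₀ : Submodule K V, (∀ q, W₀ ≤ Submodule.span K {x | x ∈ W₀ ∧ x ∈ S₀.F q}) ∧
      W = Submodule.span L (ι '' (W₀ : Set V)) := by
  have hfin : Module.Finite L M := by
    obtain ⟨d, e, ξ, _, _, hsum⟩ := S.dual 0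
    classical
    refine ⟨⟨univ.image e, ?_⟩⟩
    rw [eq_top_iff]
    rintro m -
    rw [← hsum m]
    exact sum_mem fun i _ => Submodule.smul_mem _ _ (Submodule.subset_span (by
      rw [coe_image]
      exact ⟨i, mem_univ _, rfl⟩))
  obtain ⟨r, w, hw1, hw2⟩ : ∃ (r : ℕ) (w : Fin r → M), LinearIndependent L w ∧
      Submodule.span L (Set.range w) = W := by
    have hfinW : Module.Finite L W := inferInstance
    let b := Module.finBasis L W
    refine ⟨_, fun i => (b i : M), ?_, ?_⟩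
    · exact b.linearIndependent.map' W.subtype (Submodule.ker_subtype W)
    · have h1 : Set.range (fun i => (b i : M)) = W.subtype '' Set.range b := by
        rw [← Set.range_comp]
        rfl
      rw [h1, Submodule.span_image, b.span_eq, Submodule.map_top, Submodule.range_subtype]
  obtain ⟨ω, h1, h2, h3⟩ := hPLU p K L V M S₀ S ι h W r w hw1 hw2 hW
  obtain ⟨e, c, hc, h4, h5, h6⟩ := line_descent (hPUL p K L V S₀ r) hD hP hN
    (fun v hv => hEXT p K V v (hD v hv).1 (hD v hv).2 S₀ r (he v hv))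
    (fun v hv => hREG p K V v (hP v hv).1 (hP v hv).2 S₀ r (hr v hv)) h2 h3
  obtain ⟨W₀, h7, h8⟩ := hCRA p K L V M S₀ S ι h W r w hw1 hw2 e c hc h5 (fun l => by
    rw [← tenMap_apply, h4, MultilinearMap.smul_apply, h1, smul_eq_mul]) h6
  refine ⟨W₀, ⟨h7, h8⟩, ?_⟩
  rintro W₁ ⟨_, h9⟩
  ext z
  constructor
  · intro hz
    apply mem_of_span h
    rw [← h8, h9]
    exact Submodule.subset_span ⟨z, hz, rfl⟩
  · intro hz
    apply mem_of_span h
    rw [← h9, h8]
    exact Submodule.subset_span ⟨z, hz, rfl⟩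

end SubDesc

end FU
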