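import Pool.Agent.Lib.FU.Sub

/-!
# Tensor powers of F-divided vector spaces

The tensors of degree `r` of the `K`-vector space `V` are written as multilinear functions of `r` linear
forms; with values in an extension `L` of `K` this is the tensor power of `L ⊗ V`.
-/

set_option autoImplicit false

namespace FU

open Finset FD

section Ten

variable {p : ℕ} [hp : Fact p.Prime] {K : Type*} [Field K] [CharP K p] {V : Type*} [AddCommGroup V]
  [Module K V] (L : Type*) [Field L] [Algebra K L] (r : ℕ)

/-- tensors of degree `r` with coefficients in `L` -/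
abbrev Ten (K V L : Type*) [Field K] [AddCommGroup V] [Module K V] [Field L] [Algebra K L] (r : ℕ) :
    Type _ := MultilinearMap K (fun _ : Fin r => (V →ₗ[K] K)) L

instance instTenTower (K V L : Type*) [Field K] [AddCommGroup V] [Module K V] [Field L] [Algebra K L]
    (r : ℕ) : IsScalarTower K L (Ten K V L r) :=
  ⟨fun a b t => by ext l; exact smul_assoc a b (t l)⟩

/-- the pure tensor `x_1 ⊗ ... ⊗ x_r` -/
noncomputable def pure {r : ℕ} (x : Fin r → V) : Ten K V L r :=
  (Algebra.linearMap K L).compMultilinearMap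
    ((MultilinearMap.mkPiAlgebra K (Fin r) K).compLinearMap (fun i => Module.Dual.eval K V (x i)))

omit hp [CharP K p] in
theorem pure_apply {r : ℕ} (x : Fin r → V) (l : Fin r → (V →ₗ[K] K)) :
    (pure L x : Ten K V L r) l = algebraMap K L (∏ i, l i (x i)) := rfl

/-- expansion of a multilinear function -/
theorem ten_expand {d : ℕ} {f : Fin d → V} {ξ : Fin d → (V →ₗ[K] K)}
    (hf : ∀ m, ∑ i, ξ i m • f i = m) (t : Ten K V L r) (l : Fin r → (V →ₗ[K] K)) :
    t l = ∑ j : Fin r → Fin d, algebraMap K L (∏ i, l i (f (j i))) * t (fun i => ξ (j i)) := by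
  have e1 : ∀ i, l i = ∑ k, (l i (f k)) • ξ k := by
    intro i
    ext z
    conv_lhs => rw [← hf z, map_sum]
    rw [LinearMap.sum_apply]
    refine sum_congr rfl fun k _ => ?_
    rw [map_smul, LinearMap.smul_apply, smul_eq_mul, smul_eq_mul, mul_comm]
  conv_lhs => rw [show l = fun i => ∑ k, (l i (f k)) • ξ k from funext e1]
  rw [MultilinearMap.map_sum]
  refine sum_congr rfl fun j _ => ?_
  rw [MultilinearMap.map_smul_univ, Algebra.smul_def]

variable [CharP L p]

/-- the subgroup of level `q` -/
def lev (S : FDiv p K V) (q : ℕ) : AddSubgroup (Ten K V L r) where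
  carrier := {t | ∀ l : Fin r → (V →ₗ[K] K), (∀ i, IsLev S q (l i)) → IsPow p q (t l)}
  zero_mem' := fun l _ => isPow_zero' q
  add_mem' := fun {a b} ha hb l hl => isPow_add' (ha l hl) (hb l hl)
  neg_mem' := fun {a} ha l hl => isPow_neg' (ha l hl)

omit [CharP K p] in
theorem mem_lev (S : FDiv p K V) {q : ℕ} {t : Ten K V L r} : t ∈ lev L r S q ↔
    ∀ l : Fin r → (V →ₗ[K] K), (∀ i, IsLev S q (l i)) → IsPow p q (t l) := Iff.rfl

omit [CharP K p] in
theorem isPow_prod {R : Type*} [CommRing R] {q r : ℕ} (a : Fin r → R) (h : ∀ i, IsPow p q (a i)) :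
    IsPow p q (∏ i, a i) := by
  choose c hc using h
  exact ⟨∏ i, c i, by rw [← Finset.prod_pow]; exact prod_congr rfl fun i _ => hc i⟩

omit [CharP K p] [CharP L p] hp in
theorem IsPow.algMap {q : ℕ} {a : K} (h : IsPow p q a) : IsPow p q (algebraMap K L a) := by
  obtain ⟨c, hc⟩ := h
  exact ⟨algebraMap K L c, by rw [← map_pow, hc]⟩

omit [CharP K p] in
theorem pure_mem (S : FDiv p K V) {q : ℕ} {x : Fin r → V} (hx : ∀ i, x i ∈ S.F q) :
    pure L x ∈ lev L r S q := by
  intro l hl
  rw [pure_apply]
  exact IsPow.algMap L (isPow_prod _ fun i => hl i _ (hx i))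

omit [CharP K p] in
theorem mem_lev_of_frame (S : FDiv p K V) {q q' : ℕ} (hq : q ≤ q') {d : ℕ} {f : Fin d → V}
    {ξ : Fin d → (V →ₗ[K] K)} (hf1 : ∀ i, f i ∈ S.F q') (hf : ∀ m, ∑ i, ξ i m • f i = m)
    {t : Ten K V L r} (ht : ∀ j : Fin r → Fin d, IsPow p q (t (fun i => ξ (j i)))) :
    t ∈ lev L r S q := by
  intro l hl
  rw [ten_expand L r hf t l]
  refine isPow_sum' _ _ fun j _ => isPow_mul' (IsPow.algMap L (isPow_prod _ fun i => ?_)) (ht j)
  exact hl i _ (S.anti_le hq (hf1 _))

/-- the tensor power of an F-divided vector space, with coefficients in `L` -/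
noncomputable def TP (S : FDiv p K V) : FDiv p L (Ten K V L r) where
  F := lev L r S
  zero := by
    ext t
    simp only [AddSubgroup.mem_top, iff_true]
    intro l _
    exact ⟨t l, by rw [pow_zero, pow_one]⟩
  anti := by
    intro q t ht
    obtain ⟨d, f, ξ, hf1, hf2, hf3⟩ := S.dual (q + 1)
    refine mem_lev_of_frame L r S (Nat.le_succ q) hf1 hf3 fun j => ?_
    obtain ⟨c, hc⟩ := ht (fun i => ξ (j i)) (fun i => hf2 (j i))
    exact ⟨c ^ p, by rw [← pow_mul, ← pow_succ', hc]⟩
  pow_smul := by
    intro q c t ht l hl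
    exact isPow_mul' ⟨c, rfl⟩ (ht l hl)
  dual := by
    intro q
    obtain ⟨d, f, ξ, hf1, hf2, hf3⟩ := S.dual q
    refine ⟨d ^ r, fun k => pure L (fun i => f (finFunctionFinEquiv.symm k i)), fun k =>
      { toFun := fun t => t (fun i => ξ (finFunctionFinEquiv.symm k i))
        map_add' := fun a b => rfl
        map_smul' := fun a b => rfl }, fun k => pure_mem L r S fun i => hf1 _,
      fun k t ht => ht _ fun i => hf2 _, fun t => ?_⟩
    ext l
    rw [ten_expand L r hf3 t l]
    rw [MultilinearMap.sum_apply, ← Equiv.sum_comp finFunctionFinEquiv]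
    refine sum_congr rfl fun j _ => ?_
    rw [MultilinearMap.smul_apply, pure_apply, smul_eq_mul, mul_comm]
    simp only [Equiv.symm_apply_apply]
    rfl
  gen := by
    intro q t ht
    obtain ⟨d, f, ξ, hf1, hf2, hf3⟩ := S.dual (q + 1)
    have h1 : t = ∑ j : Fin r → Fin d, t (fun i => ξ (j i)) • pure L (fun i => f (j i)) := by
      ext l
      rw [ten_expand L r hf3 t l, MultilinearMap.sum_apply]
      refine sum_congr rfl fun j _ => ?_
      rw [MultilinearMap.smul_apply, pure_apply, smul_eq_mul, mul_comm]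
    rw [h1]
    refine sum_mem fun j _ => ?_
    obtain ⟨c, hc⟩ := ht (fun i => ξ (j i)) (fun i => IsLev.succ S (hf2 (j i)))
    rw [← hc]
    exact AddSubgroup.subset_closure ⟨c, _, pure_mem L r S fun i => hf1 _, rfl⟩

/-- extension of scalars -/
noncomputable def tenMap : Ten K V K r →ₗ[K] Ten K V L r where
  toFun t := (Algebra.linearMap K L).compMultilinearMap t
  map_add' a b := by
    ext l
    show algebraMap K L _ = algebraMap K L _ + algebraMap K L _
    rw [← map_add]
    rfl
  map_smul' c a := by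
    ext l
    show algebraMap K L _ = c • algebraMap K L _
    rw [Algebra.smul_def, ← map_mul]
    rfl

omit hp [CharP K p] [CharP L p] in
theorem tenMap_apply (t : Ten K V K r) (l : Fin r → (V →ₗ[K] K)) :
    tenMap L r t l = algebraMap K L (t l) := rfl

end Ten

end FU
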