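import Pool.Agent.Lib.FU.Defs

/-!
# Lemmas on valuations and lattices
-/

set_option autoImplicit false

namespace FU

open FD Finset

section Val

variable {K : Type*} [Field K] {v : K → ℤ} (hv : IsVal v)

theorem Ge.mono {n m : ℤ} {a : K} (h : Ge v n a) (hmn : m ≤ n) : Ge v m a :=
  h.imp_right fun h => hmn.trans h

theorem ge_zero (n : ℤ) : Ge v n 0 := Or.inl rfl

include hv

theorem IsVal.one : v 1 = 0 := by
  have := hv.mul 1 1 one_ne_zero one_ne_zero
  rw [mul_one] at this
  omega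

theorem IsVal.pow {a : K} (ha : a ≠ 0) (m : ℕ) : v (a ^ m) = m * v a := by
  induction m with
  | zero => rw [pow_zero, hv.one, Nat.cast_zero, zero_mul]
  | succ m ih => rw [pow_succ, hv.mul _ _ (pow_ne_zero _ ha) ha, ih]; push_cast; ring

theorem IsVal.inv {a : K} (ha : a ≠ 0) : v a⁻¹ = - v a := by
  have := hv.mul a a⁻¹ ha (inv_ne_zero ha)
  rw [mul_inv_cancel₀ ha, hv.one] at this
  omega

theorem ge_add {n : ℤ} {a b : K} (ha : Ge v n a) (hb : Ge v n b) : Ge v n (a + b) := by
  by_cases h : a + b = 0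
  · exact Or.inl h
  rcases ha with rfl | ha
  · rw [zero_add]
    exact hb
  rcases hb with rfl | hb
  · rw [add_zero]
    exact Or.inr ha
  by_cases h1 : a = 0
  · rw [h1, zero_add]
    exact Or.inr hb
  by_cases h2 : b = 0
  · rw [h2, add_zero]
    exact Or.inr ha
  exact Or.inr ((le_min ha hb).trans (hv.add a b h1 h2 h))

theorem ge_mul {n m : ℤ} {a b : K} (ha : Ge v n a) (hb : Ge v m b) : Ge v (n + m) (a * b) := by
  by_cases h1 : a = 0
  · rw [h1, zero_mul]
    exact ge_zero _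
  by_cases h2 : b = 0
  · rw [h2, mul_zero]
    exact ge_zero _
  refine Or.inr ?_
  rw [hv.mul a b h1 h2]
  exact add_le_add (ha.resolve_left h1) (hb.resolve_left h2)

theorem ge_sum {ι : Type*} {n : ℤ} (s : Finset ι) (f : ι → K) (h : ∀ i ∈ s, Ge v n (f i)) :
    Ge v n (∑ i ∈ s, f i) := by
  classical
  induction s using Finset.induction_on with
  | empty => rw [sum_empty]; exact ge_zero n
  | insert a s ha ih =>
    rw [sum_insert ha]
    exact ge_add hv (h a (mem_insert_self _ _)) (ih fun i hi => h i (mem_insert_of_mem hi))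

/-- a common denominator -/
theorem exists_denom {m : ℕ} (a : Fin m → K) : ∃ b : K, b ≠ 0 ∧ ∀ i, Ge v 0 (b * a i) := by
  obtain ⟨t, ht0, ht1⟩ := hv.unif
  obtain ⟨n, hn⟩ : ∃ n : ℕ, ∀ i, 0 ≤ n + v (a i) := by
    refine ⟨univ.sum fun i => (v (a i)).natAbs, fun i => ?_⟩
    have h1 : (v (a i)).natAbs ≤ univ.sum fun i => (v (a i)).natAbs :=
      single_le_sum (f := fun i => (v (a i)).natAbs) (fun _ _ => Nat.zero_le _) (mem_univ i)
    omega
  refine ⟨t ^ n, pow_ne_zero n ht0, fun i => ?_⟩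
  by_cases h : a i = 0
  · rw [h, mul_zero]
    exact ge_zero 0
  refine Or.inr ?_
  rw [hv.mul _ _ (pow_ne_zero n ht0) h, hv.pow ht0, ht1, mul_one]
  exact hn i

end Val

end FU
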