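import Pool.Agent.Lib.FU.Vals

/-!
# The wild inertia group acts trivially on horizontal sections of regular singular bundles
-/

set_option autoImplicit false

namespace FU

open FD Finset

section Latt

variable {p : ℕ} [hp : Fact p.Prime] {K V : Type*} [Field K] [CharP K p] [AddCommGroup V] [Module K V]
  {v : K → ℤ} {m : ℕ} {y : Fin m → V}

/-- the lattice -/
def InL (v : K → ℤ) (y : Fin m → V) (x : V) : Prop :=
  ∃ a : Fin m → K, (∀ i, Ge v 0 (a i)) ∧ ∑ i, a i • y i = x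

/-- the dual lattice -/
def Dl (v : K → ℤ) (y : Fin m → V) (l : V →ₗ[K] K) : Prop := ∀ i, Ge v 0 (l (y i))

theorem dl_apply (hv : IsVal v) {l : V →ₗ[K] K} (hl : Dl v y l) {x : V} (hx : InL v y x) :
    Ge v 0 (l x) := by
  obtain ⟨a, ha, rfl⟩ := hx
  rw [map_sum]
  refine ge_sum hv _ _ fun i _ => ?_
  rw [map_smul, smul_eq_mul]
  have := ge_mul hv (ha i) (hl i)
  rwa [add_zero] at this

theorem inL_y (hv : IsVal v) (i : Fin m) : InL v y (y i) := by
  classical
  refine ⟨fun j => if j = i then 1 else 0, fun j => ?_, ?_⟩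
  · show Ge v 0 (if j = i then 1 else 0)
    split_ifs
    · exact Or.inr (le_of_eq hv.one.symm)
    · exact ge_zero 0
  · simp

theorem exists_theta (hy : Submodule.span K (Set.range y) = ⊤) :
    ∃ θ : Fin m → (V →ₗ[K] K), ∀ x, ∑ i, θ i x • y i = x := by
  let f : (Fin m → K) →ₗ[K] V := Fintype.linearCombination K y
  have hf : LinearMap.range f = ⊤ := by
    rw [Fintype.range_linearCombination, hy]
  obtain ⟨g, hg⟩ := f.exists_rightInverse_of_surjective hf
  refine ⟨fun i => (LinearMap.proj i).comp g, fun x => ?_⟩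
  have h1 := congrArg (fun h : V →ₗ[K] V => h x) hg
  simp only [LinearMap.comp_apply, LinearMap.id_apply, f, Fintype.linearCombination_apply] at h1
  exact h1

theorem exists_scale (hv : IsVal v) {θ : Fin m → (V →ₗ[K] K)} (hθ : ∀ x, ∑ i, θ i x • y i = x)
    (x : V) : ∃ b : K, b ≠ 0 ∧ InL v y (b • x) := by
  obtain ⟨b, hb, hb'⟩ := exists_denom hv (fun i => θ i x)
  refine ⟨b, hb, fun i => b * θ i x, hb', ?_⟩
  conv_rhs => rw [← hθ x, smul_sum]
  refine sum_congr rfl fun i _ => ?_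
  rw [mul_smul]

theorem exists_scale_dual (hv : IsVal v) (l : V →ₗ[K] K) : ∃ b : K, b ≠ 0 ∧ Dl v y (b • l) := by
  obtain ⟨b, hb, hb'⟩ := exists_denom hv (fun i => l (y i))
  exact ⟨b, hb, fun i => hb' i⟩

omit hp [CharP K p] in
/-- decomposition of the elements of the lattice -/
theorem decomp (hD : HasDecomp p v) (T : FDiv p K V)
    (hst : ∀ (q : ℕ) (Q : K →+ K) (Q' : V →+ V), IsLogAt p v q Q → IsInduced T q Q Q' →
      ∀ x : V, InL v y x → InL v y (Q' x)) (q : ℕ) {x : V} (hx : InL v y x) :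
    ∃ (d : ℕ) (g : Fin d → K) (e : Fin d → V), (∀ α, e α ∈ T.F q) ∧ (∀ α, InL v y (g α • e α)) ∧
      ∑ α, g α • e α = x := by
  obtain ⟨d, π, g, hgg, h1, h2, h3, h4⟩ := hD q
  obtain ⟨n, f, ζ, hf, hζ, hsum⟩ := T.dual q
  have hQ : ∀ α, ∃ Q' : V →+ V, IsInduced T q (π α) Q' := fun α => exists_induced T q (π α) (h1 α)
  choose Q' hQ' using hQ
  have hlog : ∀ α, IsLogAt p v q (π α) := by
    intro α
    refine ⟨h1 α, fun z k hz => ?_⟩
    by_cases hz0 : z = 0
    · rw [hz0, map_zero]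
      exact ge_zero k
    · exact (h4 α z hz0).mono (hz.resolve_left hz0)
  choose c hc using h2
  have hval : ∀ α, Q' α x = g α • ∑ j, (c α (ζ j x)) ^ p ^ q • f j := by
    intro α
    conv_lhs => rw [← hsum x, map_sum]
    rw [smul_sum]
    refine sum_congr rfl fun j _ => ?_
    rw [hQ' α _ _ (hf j), hc, smul_smul, mul_comm]
  refine ⟨d, g, fun α => ∑ j, (c α (ζ j x)) ^ p ^ q • f j, fun α => ?_, fun α => ?_, ?_⟩
  · exact sum_mem fun j _ => T.pow_smul q _ _ (hf j)
  · rw [← hval α]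
    exact hst q (π α) (Q' α) (hlog α) (hQ' α) x hx
  · have h5 : ∀ α, g α • ∑ j, (c α (ζ j x)) ^ p ^ q • f j = Q' α x := fun α => (hval α).symm
    rw [sum_congr rfl fun α _ => h5 α]
    conv_rhs => rw [← hsum x]
    have h6 : ∀ α, Q' α x = ∑ j, π α (ζ j x) • f j := by
      intro α
      conv_lhs => rw [← hsum x, map_sum]
      exact sum_congr rfl fun j _ => hQ' α _ _ (hf j)
    rw [sum_congr rfl fun α _ => h6 α, sum_comm]
    refine sum_congr rfl fun j _ => ?_
    rw [← sum_smul, h3]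

/-- decomposition of the elements of the dual lattice -/
theorem decomp_dual (hv : IsVal v) (hD : HasDecomp p v) (T : FDiv p K V)
    (hst : ∀ (q : ℕ) (Q : K →+ K) (Q' : V →+ V), IsLogAt p v q Q → IsInduced T q Q Q' →
      ∀ x : V, InL v y x → InL v y (Q' x)) (q : ℕ) {l : V →ₗ[K] K} (hl : Dl v y l) :
    ∃ (d : ℕ) (g : Fin d → K) (η : Fin d → (V →ₗ[K] K)),
      (∀ α, ∀ x ∈ T.F q, IsPow p q (η α x)) ∧ (∀ α, Dl v y (g α • η α)) ∧ ∑ α, g α • η α = l := by
  obtain ⟨d, π, g, hgg, h1, h2, h3, h4⟩ := hD q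
  obtain ⟨n, f, ζ, hf, hζ, hsum⟩ := T.dual q
  choose c hc using h2
  have hlev : ∀ α, ∀ x ∈ T.F q, IsPow p q ((∑ j, (c α (l (f j))) ^ p ^ q • ζ j) x) := by
    intro α x hx
    rw [LinearMap.sum_apply]
    choose a ha using fun j => hζ j x hx
    refine ⟨∑ j, c α (l (f j)) * a j, ?_⟩
    have hs : ∀ s : Finset (Fin n), (∑ j ∈ s, c α (l (f j)) * a j) ^ p ^ q =
        ∑ j ∈ s, ((c α (l (f j))) ^ p ^ q • ζ j) x := by
      intro s
      classical
      induction s using Finset.induction_on with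
      | empty => rw [sum_empty, sum_empty, zero_pow (pow_ne_zero _ hp.out.ne_zero)]
      | insert b s hb ih =>
        rw [sum_insert hb, sum_insert hb, add_pow_char_pow, ih, mul_pow, ha, LinearMap.smul_apply,
          smul_eq_mul]
    exact hs univ
  have hval : ∀ α, ∀ x ∈ T.F q, (g α • ∑ j, (c α (l (f j))) ^ p ^ q • ζ j) x = π α (l x) := by
    intro α x hx
    choose a ha using fun j => hζ j x hx
    have e1 : l x = ∑ j, (a j) ^ p ^ q * l (f j) := by
      conv_lhs => rw [← hsum x, map_sum]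
      refine sum_congr rfl fun j _ => ?_
      rw [map_smul, smul_eq_mul, ha]
    rw [e1, map_sum, LinearMap.smul_apply, LinearMap.sum_apply, smul_eq_mul, mul_sum]
    refine sum_congr rfl fun j _ => ?_
    rw [h1, hc, LinearMap.smul_apply, smul_eq_mul, ← ha]
    ring
  refine ⟨d, g, fun α => ∑ j, (c α (l (f j))) ^ p ^ q • ζ j, hlev, fun α i => ?_, ?_⟩
  · obtain ⟨d', g', e', he', hg', hs'⟩ := decomp hD T hst q (inL_y hv i)
    rw [← hs', map_sum]
    refine ge_sum hv _ _ fun β _ => ?_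
    rw [map_smul, hval α _ (he' β), smul_eq_mul]
    by_cases hz : l (e' β) = 0
    · rw [hz, map_zero, mul_zero]
      exact ge_zero 0
    by_cases hg : g' β = 0
    · rw [hg, zero_mul]
      exact ge_zero 0
    have h5 : Ge v (v (g' β) + v (l (e' β))) (g' β * π α (l (e' β))) :=
      ge_mul hv (Or.inr le_rfl) (h4 α _ hz)
    refine h5.mono ?_
    rw [← hv.mul _ _ hg hz]
    have h6 := dl_apply hv hl (hg' β)
    rw [map_smul, smul_eq_mul] at h6
    exact h6.resolve_left (mul_ne_zero hg hz)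
  · ext x
    rw [LinearMap.sum_apply]
    conv_lhs => rw [← hsum x]
    conv_rhs => rw [← hsum x]
    rw [map_sum]
    have : ∀ α, (g α • ∑ j, (c α (l (f j))) ^ p ^ q • ζ j) (∑ i, ζ i x • f i) =
        ∑ i, ζ i x * π α (l (f i)) := by
      intro α
      rw [map_sum]
      refine sum_congr rfl fun i _ => ?_
      rw [map_smul, hval α _ (hf i), smul_eq_mul]
    rw [sum_congr rfl fun α _ => this α, sum_comm]
    refine sum_congr rfl fun i _ => ?_
    rw [← mul_sum, h3, map_smul, smul_eq_mul]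

end Latt

section Wild

variable {p : ℕ} [hp : Fact p.Prime] {K V V' N : Type*} [Field K] [CharP K p] [AddCommGroup V]
  [Module K V] [AddCommGroup V'] [Module K V'] [Field N] [Algebra K N] {v : K → ℤ} {w : N → ℤ}

omit hp [CharP K p] in
theorem gam_smul (gam : (V' →ₗ[K] K) →ₗ[K] (V →ₗ[K] N)) (a b : K) (l : V' →ₗ[K] K) (x : V) :
    gam (a • l) (b • x) = a • b • gam l x := by
  have h1 : gam (a • l) = a • gam l := map_smul gam a l
  rw [h1, LinearMap.smul_apply, LinearMap.map_smul]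

omit hp [CharP K p] in
theorem gam_sum (gam : (V' →ₗ[K] K) →ₗ[K] (V →ₗ[K] N)) {τ : Type*} (s : Finset τ)
    (l : τ → (V' →ₗ[K] K)) (x : V) : gam (∑ i ∈ s, l i) x = ∑ i ∈ s, gam (l i) x := by
  have h1 : gam (∑ i ∈ s, l i) = ∑ i ∈ s, gam (l i) := map_sum gam l s
  rw [h1, LinearMap.sum_apply]

omit hp [CharP K p] [Algebra K N] in
theorem exists_bound {τ : Type*} [Finite τ] (f : τ → N) : ∃ μ : ℤ, ∀ i, Ge w μ (f i) := by
  have := Fintype.ofFinite τ
  refine ⟨-(univ.sum fun i => ((w (f i)).natAbs : ℤ)), fun i => Or.inr ?_⟩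
  have h1 : ((w (f i)).natAbs : ℤ) ≤ univ.sum fun i => ((w (f i)).natAbs : ℤ) :=
    single_le_sum (f := fun i => ((w (f i)).natAbs : ℤ)) (fun _ _ => by positivity) (mem_univ i)
  omega

theorem wild (hv : IsVal v) (hD : HasDecomp p v) {T : FDiv p K V} {T' : FDiv p K V'}
    (hT : RegularAt v T) (hT' : RegularAt v T') (gam : (V' →ₗ[K] K) →ₗ[K] (V →ₗ[K] N))
    (hgam : ∀ q, ∀ x ∈ T.F q, ∀ l : V' →ₗ[K] K, (∀ z ∈ T'.F q, IsPow p q (l z)) →
      ∃ c, c ^ p ^ q = gam l x)
    (hw : IsVal w) (r : ℕ) (hwr : ∀ a : K, a ≠ 0 → w (algebraMap K N a) = r * v a)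
    (σ : N ≃ₐ[K] N) (hσ : ∀ c, c ≠ 0 → σ c ≠ c → w c < w (σ c - c)) (l : V' →ₗ[K] K) (x : V) :
    σ (gam l x) = gam l x := by
  have hchar : CharP N p := charP_of_injective_algebraMap (algebraMap K N).injective p
  obtain ⟨m, y, hy, hst⟩ := hT
  obtain ⟨m', y', hy', hst'⟩ := hT'
  obtain ⟨θ, hθ⟩ := exists_theta hy
  obtain ⟨θ', hθ'⟩ := exists_theta hy'
  have hge : ∀ (a : K), Ge v 0 a → Ge w 0 (algebraMap K N a) := by
    intro a ha
    by_cases h : a = 0
    · rw [h, map_zero]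
      exact ge_zero 0
    · refine Or.inr ?_
      rw [hwr a h]
      exact mul_nonneg (Int.natCast_nonneg r) (ha.resolve_left h)
  obtain ⟨μ, hμ⟩ := exists_bound (w := w) (fun z : Fin m' × Fin m => gam (θ' z.1) (y z.2))
  have hbound : ∀ (x : V) (l : V' →ₗ[K] K), InL v y x → Dl v y' l → Ge w μ (gam l x) := by
    intro x l hx hl
    obtain ⟨a, ha, rfl⟩ := hx
    have e1 : l = ∑ k, l (y' k) • θ' k := by
      ext z
      conv_lhs => rw [← hθ' z, map_sum]
      rw [LinearMap.sum_apply]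
      refine sum_congr rfl fun k _ => ?_
      rw [map_smul, LinearMap.smul_apply, smul_eq_mul, smul_eq_mul, mul_comm]
    rw [e1, gam_sum]
    refine ge_sum hw _ _ fun k _ => ?_
    rw [map_sum]
    refine ge_sum hw _ _ fun i _ => ?_
    rw [gam_smul, Algebra.smul_def, Algebra.smul_def]
    have h1 := ge_mul hw (hge _ (ha i)) (hμ (k, i))
    have h2 := ge_mul hw (hge _ (hl k)) h1
    rwa [zero_add, zero_add] at h2
  have hdiff : ∀ (x : V) (l : V' →ₗ[K] K), InL v y x → Dl v y' l → ∀ q : ℕ,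
      Ge w (μ + (p : ℤ) ^ q) (σ (gam l x) - gam l x) := by
    intro x l hx hl q
    obtain ⟨d, g, e, he, hg, hs⟩ := decomp hD T hst q hx
    obtain ⟨d', g', η, hη, hg', hs'⟩ := decomp_dual hv hD T' hst' q hl
    have e1 : gam l x = ∑ β, ∑ α, gam (g' β • η β) (g α • e α) := by
      conv_lhs => rw [← hs, ← hs', gam_sum]
      exact sum_congr rfl fun β _ => map_sum _ _ _
    rw [e1, map_sum, ← sum_sub_distrib]
    refine ge_sum hw _ _ fun β _ => ?_
    rw [map_sum, ← sum_sub_distrib]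
    refine ge_sum hw _ _ fun α _ => ?_
    obtain ⟨c, hc⟩ := hgam q (e α) (he α) (η β) (hη β)
    have e2 : gam (g' β • η β) (g α • e α) = algebraMap K N (g' β * g α) * c ^ p ^ q := by
      rw [gam_smul, ← hc, Algebra.smul_def, Algebra.smul_def, map_mul, mul_assoc]
    have h1 := hbound _ _ (hg α) (hg' β)
    rw [e2] at h1 ⊢
    have e3 : σ (algebraMap K N (g' β * g α) * c ^ p ^ q) - algebraMap K N (g' β * g α) * c ^ p ^ q =
        algebraMap K N (g' β * g α) * (σ c - c) ^ p ^ q := by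
      rw [map_mul, AlgEquiv.commutes, map_pow, sub_pow_char_pow]
      ring
    rw [e3]
    by_cases hc0 : c = 0
    · rw [hc0, map_zero, sub_zero, zero_pow (pow_ne_zero _ hp.out.ne_zero), mul_zero]
      exact ge_zero _
    by_cases hσc : σ c = c
    · rw [hσc, sub_self, zero_pow (pow_ne_zero _ hp.out.ne_zero), mul_zero]
      exact ge_zero _
    by_cases hs0 : algebraMap K N (g' β * g α) = 0
    · rw [hs0, zero_mul]
      exact ge_zero _
    have h2 := hσ c hc0 hσc
    have h3 : σ c - c ≠ 0 := sub_ne_zero.mpr hσc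
    refine Or.inr ?_
    have h4 := h1.resolve_left (mul_ne_zero hs0 (pow_ne_zero _ hc0))
    rw [hw.mul _ _ hs0 (pow_ne_zero _ hc0), hw.pow hc0] at h4
    rw [hw.mul _ _ hs0 (pow_ne_zero _ h3), hw.pow h3]
    push_cast at h4 ⊢
    have h5 : (0 : ℤ) < (p : ℤ) ^ q := by
      have := hp.out.pos
      positivity
    nlinarith
  have hzero : ∀ (x : V) (l : V' →ₗ[K] K), InL v y x → Dl v y' l → σ (gam l x) = gam l x := by
    intro x l hx hl
    by_contra hne
    have h1 : σ (gam l x) - gam l x ≠ 0 := sub_ne_zero.mpr hne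
    obtain ⟨q, hq⟩ : ∃ q : ℕ, w (σ (gam l x) - gam l x) - μ < (p : ℤ) ^ q := by
      obtain ⟨n, hn⟩ : ∃ n : ℕ, w (σ (gam l x) - gam l x) - μ ≤ n :=
        ⟨(w (σ (gam l x) - gam l x) - μ).toNat, Int.self_le_toNat _⟩
      refine ⟨n, lt_of_le_of_lt hn ?_⟩
      have : n < p ^ n := Nat.lt_pow_self hp.out.one_lt
      exact_mod_cast this
    have h2 := (hdiff x l hx hl q).resolve_left h1
    omega
  obtain ⟨b, hb, hbx⟩ := exists_scale hv hθ x
  obtain ⟨b', hb', hbl⟩ := exists_scale_dual (y := y') hv l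
  have h1 := hzero _ _ hbx hbl
  rw [gam_smul, map_smul, map_smul] at h1
  have h2 := smul_right_injective N hb' h1
  exact smul_right_injective N hb h2

end Wild

end FU
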